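import Pool.Agent.helper23.HB.Stmts

open MeasureTheory ProbabilityTheory Set Filter Topology
open scoped ENNReal NNReal

namespace Pool.Agent.helper23.HB

theorem blaw_meas {Ω : Type} [MeasurableSpace Ω] (X : Ω → Pth) (hX : Measurable X) :
    Measurable (fun ω (t : ℝ≥0) => (X ω : ℝ → ℝ) (t : ℝ)) :=
  measurable_pi_lambda _ fun t => (measurable_pth_apply _).comp hX

theorem blaw_aux {Ω : Type} [MeasurableSpace Ω] (P : Measure Ω) [IsProbabilityMeasure P]
    (X : Ω → Pth) (hX : Measurable X)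
    (h : IsPreBrownianReal (fun (t : ℝ≥0) ω => (X ω : ℝ → ℝ) (t : ℝ)) P) :
    IsProjectiveLimit (P.map fun ω (t : ℝ≥0) => (X ω : ℝ → ℝ) (t : ℝ))
      BrownianReal.projectiveFamily := by
  intro I
  rw [Measure.map_map (by fun_prop) (blaw_meas X hX)]
  exact (h.hasLaw I).map_eq

theorem mBLAW : St_BLAW := by
  intro Ω Ω' _ _ P P' _ _ X X' hX hX' h h'
  have e : (P.map fun ω (t : ℝ≥0) => (X ω : ℝ → ℝ) (t : ℝ)) =
      (P'.map fun ω (t : ℝ≥0) => (X' ω : ℝ → ℝ) (t : ℝ)) :=
    (blaw_aux P X hX h).unique (blaw_aux P' X' hX' h')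
  have key : ∀ {Ω : Type} [MeasurableSpace Ω] (P : Measure Ω) (X : Ω → Pth), Measurable X →
      (P.map X).map Subtype.val = (P.map fun ω (t : ℝ≥0) => (X ω : ℝ → ℝ) (t : ℝ)).map
        (fun (g : ℝ≥0 → ℝ) (t : ℝ) => if t ≤ 0 then 0 else g t.toNNReal) := by
    intro Ω _ P X hX
    have hm : Measurable (fun (g : ℝ≥0 → ℝ) (t : ℝ) => if t ≤ 0 then 0 else g t.toNNReal) := by
      refine measurable_pi_lambda _ fun t => ?_
      by_cases ht : t ≤ 0
      · simp only [ht, if_true]; exact measurable_const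
      · simp only [ht, if_false]; exact measurable_pi_apply _
    rw [Measure.map_map measurable_subtype_coe hX, Measure.map_map hm (blaw_meas X hX)]
    congr 1
    funext ω t
    simp only [Function.comp]
    by_cases ht : t ≤ 0
    · simp only [ht, if_true]; exact (X ω).of_nonpos ht
    · simp only [ht, if_false, Real.coe_toNNReal t (not_le.mp ht).le]
  have e2 : (P.map X).map Subtype.val = (P'.map X').map Subtype.val := by
    rw [key P X hX, key P' X' hX', e]
  ext s hs
  obtain ⟨A, hA, rfl⟩ := hs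
  rw [← Measure.map_apply measurable_subtype_coe hA, ← Measure.map_apply measurable_subtype_coe hA,
    e2]

end Pool.Agent.helper23.HB
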