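import Pool.Agent.helper23.HB.Stmts

open MeasureTheory ProbabilityTheory Set Filter Topology
open scoped ENNReal NNReal

namespace Pool.Agent.helper23.HB

theorem birth_congr {τ τ' : Lab → ℝ} {v : Lab} (h : ∀ u, u <:+ v → τ u = τ' u) :
    birth τ v = birth τ' v := by
  induction v with
  | nil => rfl
  | cons x u ih =>
    rw [birth_cons, birth_cons, death, death, h u (List.suffix_cons x u),
      ih fun z hz => h z (hz.trans (List.suffix_cons x u))]

/-- the three disjoint sets of labels -/
def lab3 (w : Lab) (x : Bool) : Fin 3 → Set Lab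
  | 0 => {u | u <:+ w}
  | 1 => {u | ∃ p, u = p ++ x :: w}
  | 2 => {u | ∃ p, u = p ++ (!x) :: w}

theorem lab3_disjoint (w : Lab) (x : Bool) :
    Pairwise (fun i j => Disjoint (lab3 w x i) (lab3 w x j)) := by
  have h01 : ∀ y : Bool, Disjoint {u | u <:+ w} {u | ∃ p, u = p ++ y :: w} := by
    intro y
    rw [Set.disjoint_left]
    rintro u hu ⟨p, rfl⟩
    have := hu.length_le
    simp at this
    omega
  have h12 : ∀ y : Bool, Disjoint {u | ∃ p, u = p ++ y :: w} {u | ∃ p, u = p ++ (!y) :: w} := by
    intro y
    rw [Set.disjoint_left]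
    rintro u ⟨p, rfl⟩ ⟨q, hq⟩
    have h1 : (p ++ [y]) ++ w = (q ++ [!y]) ++ w := by simpa using hq
    have h2 := List.append_cancel_right h1
    have h3 := List.append_inj_right' h2 rfl
    simp at h3
  intro i j hij
  fin_cases i <;> fin_cases j <;> first | exact absurd rfl hij | skip
  · exact h01 x
  · exact h01 (!x)
  · exact (h01 x).symm
  · exact h12 x
  · exact (h01 (!x)).symm
  · exact (h12 x).symm

open Classical in
/-- extension of an array by a default value -/
noncomputable def extA {E : Type} [Inhabited E] (A : Set Lab) (U : A → E) (u : Lab) : E :=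
  if h : u ∈ A then U ⟨u, h⟩ else default

theorem extA_of_mem {E : Type} [Inhabited E] {A : Set Lab} (U : A → E) {u : Lab} (h : u ∈ A) :
    extA A U u = U ⟨u, h⟩ := by simp [extA, h]

theorem measurable_extA {E : Type} [Inhabited E] [MeasurableSpace E] (A : Set Lab) :
    Measurable (fun U : A → E => extA A U) := by
  refine measurable_pi_lambda _ fun u => ?_
  by_cases h : u ∈ A
  · simp only [extA, h, dite_true]; exact measurable_pi_apply _
  · simp only [extA, h, dite_false]; exact measurable_const

/-- the values at birth and lifetime are determined by the suffixes -/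
theorem birth_extA (w : Lab) (τ : Lab → ℝ) :
    (birth (extA {u | u <:+ w} fun u => τ u) w, extA {u | u <:+ w} (fun u => τ u) w) =
      (birth τ w, τ w) := by
  have h : ∀ u, u <:+ w → extA {u | u <:+ w} (fun u => τ u) u = τ u := fun u hu =>
    extA_of_mem _ hu
  rw [birth_congr h, h w List.suffix_rfl]

theorem mBR (hIND : St_IND) (hSHT : St_SHT) : St_BR := by
  intro Ω _ P _ β T hβ hT w x φ f g hφ hf hg
  have hm : Measurable T := measurable_pi_lambda _ hT.meas
  have hi := hIND Ω P ℝ T hT.meas hT.indep (Fin 3) (lab3 w x) (lab3_disjoint w x)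
  -- the three functions
  let h0 : (lab3 w x 0 → ℝ) → ℝ × ℝ := fun U =>
    (birth (extA {u | u <:+ w} U) w, extA {u | u <:+ w} U w)
  let h1 : (lab3 w x 1 → ℝ) → (Lab → ℝ) := fun U p => U ⟨p ++ x :: w, p, rfl⟩
  let h2 : (lab3 w x 2 → ℝ) → (Lab → ℝ) := fun U p => U ⟨p ++ (!x) :: w, p, rfl⟩
  have m0 : Measurable h0 := by
    have := measurable_extA (E := ℝ) {u | u <:+ w}
    exact ((measurable_birth w).comp this).prodMk ((measurable_pi_apply w).comp this)
  have m1 : Measurable h1 := measurable_pi_lambda _ fun p => measurable_pi_apply _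
  have m2 : Measurable h2 := measurable_pi_lambda _ fun p => measurable_pi_apply _
  have mU : ∀ i : Fin 3, Measurable (fun (ω : Ω) (u : lab3 w x i) => T ω u) := fun i =>
    measurable_pi_lambda _ fun u => hT.meas _
  have i12 : IndepFun (fun ω => sh (x :: w) (T ω)) (fun ω => sh ((!x) :: w) (T ω)) P :=
    (hi.indepFun (show (1 : Fin 3) ≠ 2 by decide)).comp m1 m2
  have i120 : IndepFun (fun ω => (birth (T ω) w, T ω w))
      (fun ω => (sh (x :: w) (T ω), sh ((!x) :: w) (T ω))) P := by
    have := (hi.indepFun_prodMk mU 1 2 0 (by decide) (by decide)).comp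
      (φ := fun y => (h1 y.1, h2 y.2)) (ψ := h0)
      ((m1.comp measurable_fst).prodMk (m2.comp measurable_snd)) m0
    refine this.symm.congr ?_ ?_
    · exact Eventually.of_forall fun ω => birth_extA w (T ω)
    · exact Eventually.of_forall fun ω => rfl
  have mA : Measurable (fun ω => (birth (T ω) w, T ω w)) :=
    ((measurable_birth w).comp hm).prodMk (hT.meas w)
  have mS1 : Measurable (fun ω => sh (x :: w) (T ω)) := (measurable_sh _).comp hm
  have mS2 : Measurable (fun ω => sh ((!x) :: w) (T ω)) := (measurable_sh _).comp hm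
  have l1 := (hSHT Ω P β T hβ hT (x :: w)).2
  have l2 := (hSHT Ω P β T hβ hT ((!x) :: w)).2
  have law12 := (indepFun_iff_map_prod_eq_prod_map_map mS1.aemeasurable mS2.aemeasurable).1 i12
  have law := (indepFun_iff_map_prod_eq_prod_map_map mA.aemeasurable
    (mS1.prodMk mS2).aemeasurable).1 i120
  haveI : IsProbabilityMeasure (P.map T) := Measure.isProbabilityMeasure_map hm.aemeasurable
  haveI : IsProbabilityMeasure (P.map fun ω => (birth (T ω) w, T ω w)) :=
    Measure.isProbabilityMeasure_map mA.aemeasurable
  rw [law12, l1, l2] at law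
  -- the integrand as a function of the triple
  let Φ : (ℝ × ℝ) × ((Lab → ℝ) × (Lab → ℝ)) → ℝ≥0∞ := fun y =>
    φ y.1 * f (y.2.1, y.1.1 + y.1.2) * g (y.2.2, y.1.1 + y.1.2)
  have mΦ : Measurable Φ := by
    refine ((hφ.comp measurable_fst).mul (hf.comp ?_)).mul (hg.comp ?_)
    · exact (measurable_fst.comp measurable_snd).prodMk
        ((measurable_fst.comp measurable_fst).add (measurable_snd.comp measurable_fst))
    · exact (measurable_snd.comp measurable_snd).prodMk
        ((measurable_fst.comp measurable_fst).add (measurable_snd.comp measurable_fst))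
  have e1 : ∫⁻ ω, φ (birth (T ω) w, T ω w) * f (sh (x :: w) (T ω), death (T ω) w) *
        g (sh ((!x) :: w) (T ω), death (T ω) w) ∂P =
      ∫⁻ y, Φ y ∂(P.map fun ω => ((birth (T ω) w, T ω w),
        (sh (x :: w) (T ω), sh ((!x) :: w) (T ω)))) := by
    rw [lintegral_map mΦ (mA.prodMk (mS1.prodMk mS2))]
    rfl
  rw [e1, law, lintegral_prod _ mΦ.aemeasurable, lintegral_map]
  · refine lintegral_congr fun ω => ?_
    have e2 : ∀ y : (Lab → ℝ) × (Lab → ℝ), Φ ((birth (T ω) w, T ω w), y) =
        φ (birth (T ω) w, T ω w) * (f (y.1, death (T ω) w) * g (y.2, death (T ω) w)) := by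
      intro y; simp only [Φ, death, mul_assoc]
    have mf : Measurable (fun s : Lab → ℝ => f (s, death (T ω) w)) :=
      hf.comp (measurable_id.prodMk measurable_const)
    have mg : Measurable (fun s : Lab → ℝ => g (s, death (T ω) w)) :=
      hg.comp (measurable_id.prodMk measurable_const)
    simp_rw [e2]
    rw [lintegral_const_mul, lintegral_prod_mul mf.aemeasurable mg.aemeasurable,
      lintegral_map mf hm, lintegral_map mg hm, mul_assoc]
    exact (mf.comp measurable_fst).mul (mg.comp measurable_snd)
  · exact mΦ.lintegral_prod_right'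
  · exact mA

end Pool.Agent.helper23.HB
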