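import Pool.Agent.helper23.HB.Stmts

open MeasureTheory ProbabilityTheory Set Filter Topology
open scoped ENNReal NNReal

namespace Pool.Agent.helper23.HB

theorem mJNT : St_JNT := by
  intro Ω _ P _ E E' _ _ X Y hX hY hiX hiY hXY
  rw [iIndepFun_iff_iIndep]
  set π : Lab → Set (Set Ω) := fun u =>
    {s | ∃ A B, MeasurableSet A ∧ MeasurableSet B ∧
      s = (fun ω => X ω u) ⁻¹' A ∩ (fun ω => Y ω u) ⁻¹' B} with hπ
  refine iIndepSets.iIndep (fun u => ((hX u).prodMk (hY u)).comap_le) π ?_ ?_ ?_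
  · rintro u _ ⟨A, B, hA, hB, rfl⟩ _ ⟨A', B', hA', hB', rfl⟩ -
    exact ⟨A ∩ A', B ∩ B', hA.inter hA', hB.inter hB', by ext; simp; tauto⟩
  · intro u
    rw [← generateFrom_prod, MeasurableSpace.comap_generateFrom]
    congr 1
    ext s
    constructor
    · rintro ⟨_, ⟨A, hA, B, hB, rfl⟩, rfl⟩
      exact ⟨A, B, hA, hB, rfl⟩
    · rintro ⟨A, B, hA, hB, rfl⟩
      exact ⟨A ×ˢ B, ⟨A, hA, B, hB, rfl⟩, rfl⟩
  · rw [iIndepSets_iff]
    intro s f hf
    choose! A B hA hB hf using hf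
    have e1 : (⋂ i ∈ s, f i) = (X ⁻¹' (⋂ i ∈ s, {x | x i ∈ A i})) ∩
        (Y ⁻¹' (⋂ i ∈ s, {y | y i ∈ B i})) := by
      ext ω
      simp only [mem_iInter, mem_inter_iff, mem_preimage]
      constructor
      · intro h
        refine ⟨fun i hi => ?_, fun i hi => ?_⟩
        · have := h i hi; rw [hf i hi] at this; exact this.1
        · have := h i hi; rw [hf i hi] at this; exact this.2
      · rintro ⟨h1, h2⟩ i hi
        rw [hf i hi]; exact ⟨h1 i hi, h2 i hi⟩
    have mA : MeasurableSet (⋂ i ∈ s, {x : Lab → E | x i ∈ A i}) :=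
      Finset.measurableSet_biInter _ fun i hi => (measurable_pi_apply i) (hA i hi)
    have mB : MeasurableSet (⋂ i ∈ s, {x : Lab → E' | x i ∈ B i}) :=
      Finset.measurableSet_biInter _ fun i hi => (measurable_pi_apply i) (hB i hi)
    rw [e1, hXY.measure_inter_preimage_eq_mul _ _ mA mB]
    have e2 : X ⁻¹' (⋂ i ∈ s, {x | x i ∈ A i}) = ⋂ i ∈ s, (fun ω => X ω i) ⁻¹' (A i) := by
      ext; simp
    have e3 : Y ⁻¹' (⋂ i ∈ s, {x | x i ∈ B i}) = ⋂ i ∈ s, (fun ω => Y ω i) ⁻¹' (B i) := by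
      ext; simp
    rw [e2, e3, hiX.measure_inter_preimage_eq_mul s hA, hiY.measure_inter_preimage_eq_mul s hB,
      ← Finset.prod_mul_distrib]
    refine Finset.prod_congr rfl fun i hi => ?_
    rw [hf i hi]
    exact ((hXY.comp (measurable_pi_apply i) (measurable_pi_apply i)).measure_inter_preimage_eq_mul
      _ _ (hA i hi) (hB i hi)).symm

end Pool.Agent.helper23.HB
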