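import Pool.Agent.helper23.HB.PRS

open MeasureTheory ProbabilityTheory Set Filter Topology
open scoped ENNReal NNReal

namespace Pool.Agent.helper23.HB

theorem tsum_ind_eq {α : Type*} {p : α → Prop} {a : α} (ha : p a) (hu : ∀ b, p b → b = a) :
    ∑' b, ind (p b) = 1 := by
  rw [tsum_eq_single a, ind_true ha]
  intro b hb
  exact ind_false fun h => hb (hu b h)

/-- product of the populations at two times -/
theorem cnt_mul_cnt {τ : Lab → ℝ} (h : ∀ u, 0 < τ u) {s t : ℝ} (hs : 0 ≤ s) (hst : s ≤ t) :
    cnt τ s * cnt τ t = cnt τ t +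
      ∑' z : Quad, ind (qu z ∈ Alive τ s) * ind (qv z ∈ Alive τ t) := by
  have h1 : cnt τ s * cnt τ t = ∑' y : Lab × Lab, ind (y.1 ∈ Alive τ s) * ind (y.2 ∈ Alive τ t) := by
    unfold cnt
    rw [ENNReal.tsum_prod', ← ENNReal.tsum_mul_right]
    refine tsum_congr fun u => ?_
    exact ENNReal.tsum_mul_left.symm
  have h2 : ∀ y : Lab × Lab, ind (y.1 ∈ Alive τ s) * ind (y.2 ∈ Alive τ t) =
      ind (y.1 <:+ y.2) * (ind (y.1 ∈ Alive τ s) * ind (y.2 ∈ Alive τ t)) +
      ind (¬ y.1 <:+ y.2) * (ind (y.1 ∈ Alive τ s) * ind (y.2 ∈ Alive τ t)) := by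
    intro y
    by_cases hy : y.1 <:+ y.2
    · rw [ind_true hy, ind_false (not_not.mpr hy)]; simp
    · rw [ind_false hy, ind_true hy]; simp
  rw [h1, tsum_congr h2, ENNReal.tsum_add]
  congr 1
  · rw [ENNReal.tsum_prod', ENNReal.tsum_comm]
    unfold cnt
    refine tsum_congr fun v => ?_
    by_cases hv : v ∈ Alive τ t
    · rw [ind_true hv]
      have : ∀ u : Lab, ind (u <:+ v) * (ind (u ∈ Alive τ s) * ind (v ∈ Alive τ t)) =
          ind (u <:+ v ∧ u ∈ Alive τ s) := by
        intro u; rw [ind_true hv, mul_one, ind_and]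
      refine (tsum_congr this).trans ?_
      refine tsum_ind_eq (a := anc τ s v) ⟨anc_suffix τ s v, anc_mem hs (hst.trans_lt hv.2)⟩ ?_
      rintro u ⟨hu1, hu2⟩
      exact (anc_of_suffix h hu2 hu1).symm
    · simp [ind_false hv]
  · have hinj : Function.Injective (fun z : Quad => (qu z, qv z)) := by
      intro z z' hz
      simp only [Prod.mk.injEq] at hz
      exact quad_inj hz.1 hz.2
    rw [← hinj.tsum_eq (f := fun y : Lab × Lab => ind (¬ y.1 <:+ y.2) *
      (ind (y.1 ∈ Alive τ s) * ind (y.2 ∈ Alive τ t)))]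
    · refine tsum_congr fun z => ?_
      rw [ind_true (not_suffix_quad z), one_mul]
    · rintro ⟨u, v⟩ hy
      simp only [Function.mem_support, ne_eq, mul_eq_zero, not_or] at hy
      obtain ⟨hy1, hy2, hy3⟩ := hy
      have hn : ¬ u <:+ v := ind_ne_zero.mp hy1
      have hu : u ∈ Alive τ s := ind_ne_zero.mp hy2
      have hv : v ∈ Alive τ t := ind_ne_zero.mp hy3
      rcases suffix_or u v with h3 | h3 | ⟨z, hz1, hz2⟩
      · exact absurd h3 hn
      · exfalso
        obtain ⟨p, rfl⟩ := h3
        rcases List.eq_nil_or_concat p with rfl | ⟨q, x, rfl⟩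
        · exact hn (by simp)
        · have h4 := death_le_birth_append h x q v
          rw [List.concat_eq_append, List.append_assoc, List.singleton_append] at hu
          have := hu.1
          have := hv.2
          linarith
      · exact ⟨z, by simp [hz1, hz2]⟩

theorem mMOM (hPRS : St_PRS) (hCNT : St_CNT) : St_MOM := by
  intro Ω _ P _ β T hβ hT s t hs hst
  have hm : Measurable T := measurable_pi_lambda _ hT.meas
  simp_rw [fun ω => cnt_mul_cnt (hT.pos ω) hs hst]
  have hmz : ∀ z : Quad, Measurable (fun ω => ind (qu z ∈ Alive (T ω) s) *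
      ind (qv z ∈ Alive (T ω) t)) := fun z =>
    ((measurable_ind (measurableSet_Alive_left _ s)).comp hm).mul
      ((measurable_ind (measurableSet_Alive_left _ t)).comp hm)
  have hmc : Measurable (fun ω => cnt (T ω) t) := (measurable_cnt_left t).comp hm
  rw [lintegral_add_left hmc,
    lintegral_tsum fun z => (hmz z).aemeasurable, (hCNT Ω P β T hβ hT).1 t (hs.trans hst)]
  have h1 := hPRS Ω P β T hβ hT s t (fun _ => 1) measurable_const
  simp only [mul_one, one_mul] at h1
  rw [h1, min_eq_left hst]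
  have hcont : Continuous fun r : ℝ => 2 * β * Real.exp (β * (s + t - r)) := by fun_prop
  rw [← ofReal_integral_eq_lintegral_ofReal
    ((hcont.integrableOn_Icc (a := 0) (b := s)).mono_set Ioc_subset_Icc_self)
    (Eventually.of_forall fun r => by positivity),
    ← intervalIntegral.integral_of_le hs]
  have hder : ∀ r ∈ uIcc 0 s, HasDerivAt (fun r => -(2 * Real.exp (β * (s + t - r))))
      (2 * β * Real.exp (β * (s + t - r))) r := by
    intro r _
    have h2 : HasDerivAt (fun r => β * (s + t - r)) (-β) r := by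
      simpa using ((hasDerivAt_id r).const_sub (s + t)).const_mul β
    refine ((h2.exp).const_mul 2).neg.congr_deriv ?_
    ring
  rw [intervalIntegral.integral_eq_sub_of_hasDerivAt hder (hcont.intervalIntegrable _ _)]
  have e1 : -(2 * Real.exp (β * (s + t - s))) - -(2 * Real.exp (β * (s + t - 0))) =
      2 * Real.exp (β * (s + t)) * (1 - Real.exp (-β * s)) := by
    have : Real.exp (β * (s + t - s)) = Real.exp (β * (s + t)) * Real.exp (-β * s) := by
      rw [← Real.exp_add]; ring_nf
    rw [this]; ring_nf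
  rw [e1, ← ENNReal.ofReal_add (Real.exp_pos _).le]
  have : Real.exp (-β * s) ≤ 1 := Real.exp_le_one_iff.mpr (by nlinarith)
  exact mul_nonneg (by positivity) (by linarith)

end Pool.Agent.helper23.HB
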