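import Pool.Agent.helper23.HB.Stmts

open MeasureTheory ProbabilityTheory Set Filter Topology
open scoped ENNReal NNReal

namespace Pool.Agent.helper23.HB

theorem drift_ge (lam : ℝ) {y : ℝ} (hy : 0 < y) : lam + 1 / 2 ≤ drift lam y := by
  have h1 : 0 < Real.sinh y := Real.sinh_pos_iff.mpr hy
  have h2 : Real.sinh y ≤ Real.cosh y := (Real.sinh_lt_cosh y).le
  have : 1 / 2 ≤ Real.cosh y / (2 * Real.sinh y) := by
    rw [le_div_iff₀ (by positivity)]; linarith
  unfold drift; linarith

theorem drift_le (lam : ℝ) {η y : ℝ} (hη : 0 < η) (hy : 1 / (2 * η) ≤ y) :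
    drift lam y ≤ lam + 1 / 2 + η := by
  have hy0 : 0 < y := lt_of_lt_of_le (by positivity) hy
  have h1 : y ≤ Real.sinh y := Real.self_le_sinh_iff.mpr hy0.le
  have h2 : 0 < Real.sinh y := hy0.trans_le h1
  have h3 : Real.cosh y - Real.sinh y = Real.exp (-y) := Real.cosh_sub_sinh y
  have h4 : Real.exp (-y) ≤ 1 := Real.exp_le_one_iff.mpr (by linarith)
  have h5 : 1 ≤ 2 * η * y := by
    rw [div_le_iff₀ (by positivity)] at hy; linarith
  have : Real.cosh y / (2 * Real.sinh y) ≤ 1 / 2 + η := by
    rw [div_le_iff₀ (by positivity)]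
    nlinarith
  unfold drift; linarith

theorem drift_continuousOn (lam : ℝ) : ContinuousOn (drift lam) (Ioi 0) := by
  unfold drift
  refine ContinuousOn.add (ContinuousOn.div Real.continuous_cosh.continuousOn
    (continuous_const.mul Real.continuous_sinh).continuousOn ?_) continuousOn_const
  intro y hy
  have : 0 < Real.sinh y := Real.sinh_pos_iff.mpr hy
  positivity

theorem RSol.intervalIntegrable {lam : ℝ} {X r : ℝ → ℝ} (h : RSol lam X r) {s t : ℝ}
    (hs : 0 ≤ s) (hst : s ≤ t) :
    IntervalIntegrable (fun y => drift lam (r y)) volume s t := by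
  apply ContinuousOn.intervalIntegrable
  rw [uIcc_of_le hst]
  refine (drift_continuousOn lam).comp (h.cont.mono fun y hy => hs.trans hy.1) ?_
  intro y hy
  exact h.pos y (hs.trans hy.1)

theorem mR1 : St_R1 := by
  refine ⟨?_, ?_⟩
  · intro lam X r _ h s t hs hst
    have h1 : (lam + 1 / 2) * (t - s) ≤ ∫ y in s..t, drift lam (r y) := by
      have : ∫ _ in s..t, (lam + 1 / 2) ≤ ∫ y in s..t, drift lam (r y) := by
        refine intervalIntegral.integral_mono_on hst (by simp) (h.intervalIntegrable hs hst) ?_
        intro y hy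
        exact drift_ge lam (h.pos y (hs.trans hy.1))
      rw [intervalIntegral.integral_const, smul_eq_mul] at this
      linarith
    have := h.eqn s t hs hst
    linarith
  · intro η hη
    refine ⟨1 / (2 * η), by positivity, ?_⟩
    intro lam X r _ h hc
    have key : ∀ s t, 0 ≤ s → s ≤ t → (∀ y ∈ Icc s t, 1 / (2 * η) ≤ r y) →
      r t ≤ r s + (X t - X s) + (lam + 1 / 2 + η) * (t - s) := by
      intro s t hs hst hy
      have h1 : ∫ y in s..t, drift lam (r y) ≤ (lam + 1 / 2 + η) * (t - s) := by
        have : ∫ y in s..t, drift lam (r y) ≤ ∫ _ in s..t, (lam + 1 / 2 + η) := by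
          refine intervalIntegral.integral_mono_on hst (h.intervalIntegrable hs hst) (by simp) ?_
          intro y hy'
          exact drift_le lam hη (hy y hy')
        rw [intervalIntegral.integral_const, smul_eq_mul] at this
        linarith
      have := h.eqn s t hs hst
      linarith
    refine ⟨key, ?_⟩
    intro s t hs hst
    -- the last time at which `r` is below the level
    set M := max (r s) (1 / (2 * η)) with hM
    set A : Set ℝ := {y | y ∈ Icc s t ∧ r y ≤ M} with hA
    have hAc : IsClosed A := by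
      have h1 : ContinuousOn r (Icc s t) := h.cont.mono fun y hy => hs.trans hy.1
      have := h1.preimage_isClosed_of_isClosed isClosed_Icc (isClosed_Iic (a := M))
      exact this
    have hAcomp : IsCompact A := isCompact_Icc.of_isClosed_subset hAc fun y hy => hy.1
    have hAne : A.Nonempty := ⟨s, left_mem_Icc.mpr hst, le_max_left _ _⟩
    have hy0 := hAcomp.sSup_mem hAne
    set y0 := sSup A with hy0def
    refine ⟨y0, hy0.1, ?_⟩
    have hgt : ∀ y ∈ Icc y0 t, y0 < y → M < r y := by
      intro y hy hlt
      by_contra hcon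
      have : y ∈ A := ⟨⟨hy0.1.1.trans hy.1, hy.2⟩, not_lt.mp hcon⟩
      exact absurd (le_csSup hAcomp.bddAbove this) (not_le.mpr hlt)
    have hs0 : 0 ≤ y0 := hs.trans hy0.1.1
    rcases hy0.1.2.eq_or_lt with heq | hlt
    · have e1 : r t ≤ M := heq ▸ hy0.2
      rw [heq]
      have : 0 ≤ (lam + 1 / 2 + η) * (t - s) := mul_nonneg (by linarith) (by linarith)
      linarith
    · -- `r y0 = M` is not needed: `r y0 ≤ M`, and `r ≥ 1/(2η)` after `y0`
      have hge : ∀ y ∈ Icc y0 t, 1 / (2 * η) ≤ r y := by
        -- by continuity at y0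
        have hc1 : ContinuousOn r (Icc y0 t) := h.cont.mono fun y hy => hs0.trans hy.1
        intro y hy
        rcases hy.1.eq_or_lt with h1 | h1
        · subst h1
          have hne : (𝓝[Ioc y0 t] y0).NeBot := by
            rw [← mem_closure_iff_nhdsWithin_neBot, closure_Ioc hlt.ne]
            exact left_mem_Icc.mpr hlt.le
          have ht1 : Tendsto r (𝓝[Ioc y0 t] y0) (𝓝 (r y0)) :=
            (hc1 y0 (left_mem_Icc.mpr hlt.le)).mono_left (nhdsWithin_mono _ Ioc_subset_Icc_self)
          refine ge_of_tendsto ht1 ?_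
          filter_upwards [self_mem_nhdsWithin] with y hy
          exact (le_max_right _ _).trans (hgt y ⟨hy.1.le, hy.2⟩ hy.1).le
        · exact (le_max_right _ _).trans (hgt y hy h1).le
      have := key y0 t hs0 hy0.1.2 hge
      have h2 : (lam + 1 / 2 + η) * (t - y0) ≤ (lam + 1 / 2 + η) * (t - s) :=
        mul_le_mul_of_nonneg_left (by linarith [hy0.1.1]) (by linarith)
      have h3 := hy0.2
      linarith

end Pool.Agent.helper23.HB
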