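import Pool.Agent.helper23.HB.Stmts

open MeasureTheory ProbabilityTheory Set Filter Topology
open scoped ENNReal NNReal

namespace Pool.Agent.helper23.HB

theorem append_right_inj (u : Lab) : Function.Injective (fun p : Lab => p ++ u) :=
  fun _ _ h => List.append_cancel_right h

/-- the marginal laws of the lifetimes coincide -/
theorem life_law_eq {Ω : Type} [MeasurableSpace Ω] {P : Measure Ω} [IsProbabilityMeasure P]
    {β : ℝ} {T : Ω → Lab → ℝ} (hT : Life β P T) (u v : Lab) :
    P.map (fun ω => T ω u) = P.map (fun ω => T ω v) := by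
  have h1 : ∀ w, IsProbabilityMeasure (P.map fun ω => T ω w) := fun w =>
    Measure.isProbabilityMeasure_map (hT.meas w).aemeasurable
  have key : ∀ (w : Lab) (a : ℝ), (P.map fun ω => T ω w) (Iic a) =
      1 - P {ω | a < T ω w} := by
    intro w a
    rw [Measure.map_apply (hT.meas w) measurableSet_Iic]
    have : (fun ω => T ω w) ⁻¹' (Iic a) = {ω | a < T ω w}ᶜ := by ext; simp
    rw [this, prob_compl_eq_one_sub]
    exact measurableSet_lt measurable_const (hT.meas w)
  apply Measure.ext_of_Iic
  intro a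
  rw [key, key]
  congr 1
  by_cases ha : 0 ≤ a
  · rw [hT.law u a ha, hT.law v a ha]
  · have : ∀ w, {ω | a < T ω w} = univ := by
      intro w; ext ω; simp only [mem_setOf_eq, mem_univ, iff_true]
      exact (not_le.mp ha).trans (hT.pos ω w)
    rw [this, this]

theorem mSHT : St_SHT := by
  intro Ω _ P _ β T hβ hT u
  have hm : Measurable T := measurable_pi_lambda _ hT.meas
  have hL : Life β P (fun ω => sh u (T ω)) :=
    ⟨fun ω p => hT.pos ω _, fun p => hT.meas _, fun p t ht => hT.law _ t ht,
      hT.indep.precomp (append_right_inj u)⟩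
  refine ⟨hL, ?_⟩
  have e1 := (iIndepFun_iff_map_fun_eq_infinitePi_map hT.meas).1 hT.indep
  have e2 := (iIndepFun_iff_map_fun_eq_infinitePi_map hL.meas).1 hL.indep
  change P.map (fun ω p => sh u (T ω) p) = P.map (fun ω p => T ω p)
  rw [e1, e2]
  congr 1
  funext p
  exact life_law_eq hT _ _

theorem noise_law_eq (hBLAW : St_BLAW) {Ω : Type} [MeasurableSpace Ω] {P : Measure Ω}
    [IsProbabilityMeasure P] {B : Ω → Lab → Pth} (hB : Noise P B) (u v : Lab) :
    P.map (fun ω => B ω u) = P.map (fun ω => B ω v) :=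
  hBLAW Ω Ω P P _ _ (hB.meas u) (hB.meas v) (hB.bm u) (hB.bm v)

theorem noise_sh {Ω : Type} [MeasurableSpace Ω] {P : Measure Ω} {B : Ω → Lab → Pth}
    (hB : Noise P B) (u : Lab) : Noise P (fun ω => sh u (B ω)) :=
  ⟨fun p => hB.meas _, fun p => hB.bm _, hB.indep.precomp (append_right_inj u)⟩

theorem mSH (hBLAW : St_BLAW) : St_SH := by
  intro Ω _ P _ β T B hβ hT hB hTB u
  obtain ⟨hL, hLT⟩ := mSHT Ω P β T hβ hT u
  have hN := noise_sh hB u
  refine ⟨hL, hN, ?_⟩
  have hmT : Measurable T := measurable_pi_lambda _ hT.meas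
  have hmB : Measurable B := measurable_pi_lambda _ hB.meas
  have hmT' : Measurable (fun ω => sh u (T ω)) := (measurable_sh u).comp hmT
  have hmB' : Measurable (fun ω => sh u (B ω)) := (measurable_sh u).comp hmB
  have hLB : P.map (fun ω => sh u (B ω)) = P.map B := by
    have e1 := (iIndepFun_iff_map_fun_eq_infinitePi_map hB.meas).1 hB.indep
    have e2 := (iIndepFun_iff_map_fun_eq_infinitePi_map hN.meas).1 hN.indep
    change P.map (fun ω p => sh u (B ω) p) = P.map (fun ω p => B ω p)
    rw [e1, e2]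
    congr 1
    funext p
    exact noise_law_eq hBLAW hB _ _
  have h1 := (indepFun_iff_map_prod_eq_prod_map_map hmT.aemeasurable hmB.aemeasurable).1 hTB
  have h2 := (indepFun_iff_map_prod_eq_prod_map_map hmT'.aemeasurable hmB'.aemeasurable).1
    (hTB.comp (measurable_sh u) (measurable_sh u))
  change P.map (fun ω => (sh u (T ω), sh u (B ω))) = P.map (fun ω => (T ω, B ω))
  rw [h1]
  refine Eq.trans h2 ?_
  rw [hLB]
  congr 1

end Pool.Agent.helper23.HB
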