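import Pool.Agent.helper23.HB.IND
import Pool.Agent.helper23.HB.JNT
import Pool.Agent.helper23.HB.BLAW
import Pool.Agent.helper23.HB.SH
import Pool.Agent.helper23.HB.BR
import Pool.Agent.helper23.HB.MOM
import Pool.Agent.helper23.HB.R1
import Pool.Agent.helper10.HB_BAD
import Pool.Agent.helper10.HB_LIN
import Pool.Agent.helper17.HB_D5
import Pool.Agent.helper17.HB_WT
import Pool.Agent.helper19.HB_DET
import Pool.Agent.helper19.HB_DIM
import Pool.Agent.helper19.HB_E3D
import Pool.Agent.helper19.HB_ECOV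
import Pool.Agent.helper19.HB_SYS
import Pool.Agent.helper26.HB_CONV
import Pool.Agent.helper26.HB_EN2
import Pool.Agent.helper26.HB_MSYS
import Pool.Agent.helper31.HB_ACON
import Pool.Agent.helper38.HB_BIR
import Pool.Agent.helper38.HB_LINE
import Pool.Agent.helper4.HB_GAU
import Pool.Agent.helper41.HB_B4
import Pool.Agent.helper41.HB_COV1
import Pool.Agent.helper41.HB_TRI
import Pool.Agent.helper41.HB_UNI
import Pool.Agent.helper5.HB_B5a
import Pool.Agent.helper5.HB_M21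
import Pool.Agent.helper5.HB_OSC
import Pool.Agent.helper5.HB_PAIR
import Pool.Agent.helper5.HB_PSUM
import Pool.Agent.helper51.HB_E5D
import Pool.Agent.helper59.HB_UL
import Pool.Agent.helper6.HB_EN4
import Pool.Agent.helper62.HB_CLK
import Pool.Agent.helper68.HB_E2A
import Pool.Agent.helper71.HB_C4
import Pool.Agent.helper71.HB_E2M
import Pool.Agent.helper74.HB_BLK
import Pool.Agent.helper76.HB_LCL
import Pool.Agent.helper8.HB_LDP
import Pool.Agent.helper80.HB_SUBR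
import Pool.Agent.helper83.HB_CK
import Pool.Agent.helper83.HB_RAD
import Pool.Agent.helper9.HB_E5
import Pool.Agent.helper9.HB_MART
import Pool.Agent.helper9.HB_POS
import Pool.Agent.helper9.HB_UM

/-! discharge of the module hypotheses -/

namespace Pool.Agent.helper23.HB.Asm
open Pool.Agent.helper23.HB

theorem aIND : St_IND := mIND
theorem aJNT : St_JNT := mJNT
theorem aBLAW : St_BLAW := mBLAW
theorem aSHT : St_SHT := mSHT
theorem aSH : St_SH := mSH aBLAW
theorem aBR : St_BR := mBR aIND aSHT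
theorem aCNT : St_CNT := mCNT aBR
theorem aDTH : St_DTH := mDTH aBR aCNT
theorem aPRS : St_PRS := mPRS aBR aCNT aDTH
theorem aMOM : St_MOM := mMOM aPRS aCNT
theorem aR1 : St_R1 := mR1
theorem aLINE : St_LINE := Pool.Agent.helper38.HB.mLINE aIND
theorem aBLK : St_BLK := Pool.Agent.helper74.HB.mBLK aBLAW
theorem aGAU : St_GAU := Pool.Agent.helper4.HB.mGAU
theorem aM21 : St_M21 := Pool.Agent.helper5.HB.mM21 aLINE aBLK
theorem aB4 : St_B4 := Pool.Agent.helper41.HB.mB4 aIND aLINE aBLK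
theorem aTRI : St_TRI := Pool.Agent.helper41.HB.mTRI aIND aJNT aSH
theorem aMART : St_MART := Pool.Agent.helper9.HB.mMART aMOM aCNT
theorem aPOS : St_POS := Pool.Agent.helper9.HB.mPOS aMART aBR aSHT aCNT
theorem aC4 : St_C4 := Pool.Agent.helper71.HB.mC4
theorem aPT : St_PT := Pool.Agent.helper71.HB.mPT aC4
theorem aWT : St_WT := Pool.Agent.helper17.HB.mWT aBR aCNT aMART
theorem aH4 : St_H4 := Pool.Agent.helper17.HB.mH4 aBR aDTH aMART
theorem aLDP : St_LDP := Pool.Agent.helper8.HB.mLDP aGAU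
theorem aLIN : St_LIN := Pool.Agent.helper10.HB.mLIN
theorem aSUMY : St_SUMY := Pool.Agent.helper10.HB.mSUMY aLIN aBLK aGAU
theorem aSUM3 : St_SUM3 := Pool.Agent.helper10.HB.mSUM3 aBLK aGAU
theorem aBAD : St_BAD := Pool.Agent.helper10.HB.mBAD aBLK aGAU
theorem aACON : St_ACON := Pool.Agent.helper31.HB.mACON
theorem aD5 : St_D5 := Pool.Agent.helper17.HB.mD5
theorem aECOV : St_ECOV := Pool.Agent.helper19.HB.mECOV
theorem aDIM : St_DIM := Pool.Agent.helper19.HB.mDIM
theorem aDET : St_DET := Pool.Agent.helper19.HB.mDET aECOV aDIM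
theorem aRAD : St_RAD := Pool.Agent.helper83.HB.mRAD aR1
theorem aUPR : St_UPR := Pool.Agent.helper83.HB.mUPR aR1
theorem aCK : St_CK := Pool.Agent.helper83.HB.mCK
theorem aCLK : St_CLK := Pool.Agent.helper62.HB.mCLK aCK
theorem aSUBR : St_SUBR := Pool.Agent.helper80.HB.mSUBR aR1
theorem aSYS : St_SYS := Pool.Agent.helper19.HB.mSYS aCLK
theorem aMSYS : St_MSYS := Pool.Agent.helper26.HB.mMSYS
theorem aB5a : St_B5a := Pool.Agent.helper5.HB.mB5a aCK aCLK aMSYS aLINE aGAU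
theorem aPAIR : St_PAIR := Pool.Agent.helper5.HB.mPAIR aCK aCLK aMSYS aLINE aACON aIND
theorem aOSC : St_OSC := Pool.Agent.helper5.HB.mOSC aB5a aRAD aCK aM21
theorem aCOV1 : St_COV1 := Pool.Agent.helper41.HB.mCOV1 aDIM
theorem aUL : St_UL := Pool.Agent.helper59.HB.mUL aCOV1 aSYS aMSYS aOSC aSUMY aCNT
theorem aE5D : St_E5D := Pool.Agent.helper51.HB.mE5D
theorem aE5 : St_E5 :=
  Pool.Agent.helper9.HB.mE5 aE5D aPT aSYS aMSYS aOSC aM21 aSUM3 aWT aCNT aPOS aRAD
theorem aE3D : St_E3D := Pool.Agent.helper19.HB.mE3D aDIM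
theorem aUM : St_UM :=
  Pool.Agent.helper9.HB.mUM aE3D aPT aSYS aMSYS aOSC aM21 aSUM3 aWT aCNT aPOS
theorem aEN4 : St_EN4 := Pool.Agent.helper6.HB.mEN4 aPAIR aUPR aCK aC4 aMSYS
theorem aPSUM : St_PSUM := Pool.Agent.helper5.HB.mPSUM aB4 aPRS
theorem aE2M : St_E2M := Pool.Agent.helper71.HB.mE2M aPSUM aM21 aBLK aCNT
theorem aE2A : St_E2A := Pool.Agent.helper68.HB.mE2A
theorem aBIR : St_BIR := Pool.Agent.helper38.HB.mBIR aR1 aLINE
theorem aEN2 : St_EN2 := Pool.Agent.helper26.HB.mEN2 aPAIR aSUBR aCK aMSYS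
theorem aLCL : St_LCL := Pool.Agent.helper76.HB.mLCL
theorem aCONV : St_CONV := Pool.Agent.helper26.HB.mCONV aCLK
theorem aUNI : St_UNI := Pool.Agent.helper41.HB.mUNI

end Pool.Agent.helper23.HB.Asm
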