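import Pool.Agent.helper23.HB.Stmts2

open MeasureTheory ProbabilityTheory Set Filter Topology
open scoped ENNReal NNReal

namespace Pool.Agent.helper23.HB

theorem dimM_le_one (hD : St_DIM) (μ : Measure ℂ) : dimM μ ≤ 1 := by
  refine le_trans ?_ hD.2.2
  refine iInf_le_of_le circ (iInf_le_of_le ?_ (iInf_le_of_le subset_rfl (iInf_le_of_le ?_ le_rfl)))
  · exact Metric.isClosed_sphere.measurableSet
  · simp

theorem LSet_subset (τ : Lab → ℝ) (Z : Lab → ℝ → ℂ) : LSet τ Z ⊆ circ := by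
  rintro ζ ⟨h1, -⟩; simpa [circ] using h1

/-- the theorem for systems -/
theorem main_sys (hD : St_DIM) (hUL : St_UL) (hLL : St_LL) (hE5 : St_E5) (hUM : St_UM)
    (hLM : St_LM)
    (Ω : Type) [MeasurableSpace Ω] (P : Measure Ω) [IsProbabilityMeasure P] (β lam : ℝ)
    (hβ : 0 < β) (hlam : -1 / 2 < lam) (S : Sys β lam P) :
    ∀ᵐ ω ∂P, (∃ μ : Measure ℂ, IsLim (S.T ω) (S.Z ω) μ ∧
        dimM μ = ENNReal.ofReal (min (2 * β / (2 * lam + 1)) 1)) ∧
      dimH (LSet (S.T ω) (S.Z ω)) = ENNReal.ofReal (lamDim β lam) := by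
  have hc : 0 < 2 * lam + 1 := by linarith
  set δ : ℝ := (1 + 2 * lam - √((1 + 2 * lam) ^ 2 - 8 * β)) / 2 with hδ
  -- lower bound of the dimension of the limit set
  have hlow : ∀ᵐ ω ∂P, ∀ s : ℚ, 0 < (s : ℝ) → (s : ℝ) < 1 →
      (β ≤ (1 + 2 * lam) ^ 2 / 8 → (s : ℝ) < δ) →
      ENNReal.ofReal (s : ℝ) ≤ dimH (LSet (S.T ω) (S.Z ω)) := by
    rw [ae_all_iff]; intro s
    by_cases h1 : 0 < (s : ℝ)
    · by_cases h2 : (s : ℝ) < 1
      · by_cases h3 : (β ≤ (1 + 2 * lam) ^ 2 / 8 → (s : ℝ) < δ)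
        · filter_upwards [hLL Ω P β lam hβ hlam S s h1 h2 h3] with ω hω _ _ _ using hω
        · exact Eventually.of_forall fun ω _ _ h => absurd h h3
      · exact Eventually.of_forall fun ω _ h => absurd h h2
    · exact Eventually.of_forall fun ω h => absurd h h1
  have hup : ∀ᵐ ω ∂P, β ≤ (1 + 2 * lam) ^ 2 / 8 → δ < 1 →
      dimH (LSet (S.T ω) (S.Z ω)) ≤ ENNReal.ofReal δ := by
    by_cases h1 : β ≤ (1 + 2 * lam) ^ 2 / 8
    · by_cases h2 : δ < 1
      · filter_upwards [hUL Ω P β lam hβ hlam S h1 h2] with ω hω _ _ using hω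
      · exact Eventually.of_forall fun ω _ h => absurd h h2
    · exact Eventually.of_forall fun ω h => absurd h h1
  filter_upwards [hlow, hup, hE5 Ω P β lam hβ hlam S, hUM Ω P β lam hβ hlam S,
    hLM Ω P β lam hβ hlam S] with ω h1 h2 h3 h4 h5
  refine ⟨?_, ?_⟩
  · obtain ⟨μ, hμ1, hμ2⟩ := h3
    refine ⟨μ, hμ1, le_antisymm ?_ ?_⟩
    · rw [ENNReal.ofReal_min, ENNReal.ofReal_one]
      exact le_min (h4 μ hμ2) (dimM_le_one hD μ)
    · refine le_iInf fun A => le_iInf fun hA => le_iInf fun hA1 => le_iInf fun hA2 => ?_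
      exact h5 μ hμ2 A hA hA1 hA2
  · have hle1 : dimH (LSet (S.T ω) (S.Z ω)) ≤ 1 :=
      (dimH_mono (LSet_subset _ _)).trans hD.2.2
    have hge : ∀ d : ℝ, d ≤ 1 → (β ≤ (1 + 2 * lam) ^ 2 / 8 → d ≤ δ) →
        ENNReal.ofReal d ≤ dimH (LSet (S.T ω) (S.Z ω)) := by
      intro d hd1 hd2
      by_contra hcon
      rw [not_le] at hcon
      have hd0 : 0 < d := by
        by_contra h; rw [ENNReal.ofReal_of_nonpos (not_lt.mp h)] at hcon; exact not_lt_bot hcon
      have hfin : dimH (LSet (S.T ω) (S.Z ω)) ≠ ∞ := ne_top_of_lt hcon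
      have hlt : (dimH (LSet (S.T ω) (S.Z ω))).toReal < d := by
        have := (ENNReal.toReal_lt_toReal hfin ENNReal.ofReal_ne_top).mpr hcon
        rwa [ENNReal.toReal_ofReal hd0.le] at this
      obtain ⟨q, hq1, hq2⟩ := exists_rat_btwn (max_lt hlt hd0)
      have hq0 : 0 < (q : ℝ) := (le_max_right _ _).trans_lt hq1
      have := h1 q hq0 (hq2.trans_le hd1) (fun h => hq2.trans_le (hd2 h))
      have h3 : (q : ℝ) ≤ (dimH (LSet (S.T ω) (S.Z ω))).toReal := by
        have := ENNReal.toReal_mono hfin this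
        rwa [ENNReal.toReal_ofReal hq0.le] at this
      exact absurd ((le_max_left _ _).trans_lt hq1) (not_lt.mpr h3)
    unfold lamDim
    split_ifs with hcase
    · rw [← hδ]
      refine le_antisymm ?_ ?_
      · rw [ENNReal.ofReal_min, ENNReal.ofReal_one]
        refine le_min ?_ hle1
        by_cases hδ1 : δ < 1
        · exact h2 hcase hδ1
        · refine hle1.trans ?_
          rw [← ENNReal.ofReal_one]
          exact ENNReal.ofReal_le_ofReal (not_lt.mp hδ1)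
      · exact hge _ (min_le_right _ _) (fun _ => min_le_left _ _)
    · refine le_antisymm (by rw [ENNReal.ofReal_one]; exact hle1) ?_
      exact hge 1 le_rfl (fun h => absurd h hcase)

/-- the theorem for hyperbolic branching Brownian motion started at the origin -/
theorem main_hbbm (hD : St_DIM) (hUL : St_UL) (hLL : St_LL) (hE5 : St_E5) (hUM : St_UM)
    (hLM : St_LM) (hPOS : St_POS) (hCNT : St_CNT) (hCONV : St_CONV) (hUNI : St_UNI)
    (Ω : Type) [MeasurableSpace Ω] (P : Measure Ω) [IsProbabilityMeasure P] (β lam : ℝ)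
    (hβ : 0 < β) (hlam : -1 / 2 < lam)
    (T : Lab → Ω → ℝ) (B W : Lab → ℝ≥0 → Ω → ℝ) (ρ θ : Lab → ℝ → Ω → ℝ)
    (H : HBBM β lam P T B W ρ θ) :
    ∀ᵐ ω ∂P, (∀ t, (Alive (fun u => T u ω) t).Finite) ∧
      (∃ μ : Measure ℂ, IsLim (fun u => T u ω) (posZ T ρ θ ω) μ ∧
        dimM μ = ENNReal.ofReal (min (2 * β / (2 * lam + 1)) 1)) ∧
      dimH (LSet (fun u => T u ω) (posZ T ρ θ ω)) = ENNReal.ofReal (lamDim β lam) := by
  choose S hS1 hS2 using hCONV Ω P β lam T B W ρ θ H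
  have hmain := fun x => main_sys hD hUL hLL hE5 hUM hLM Ω P β lam hβ hlam (S x)
  have hpos := fun x => hPOS Ω P β (S x).T hβ (S x).life
  have hcnt := fun x => (hCNT Ω P β (S x).T hβ (S x).life).2
  filter_upwards [hmain false, hmain true, hpos false, hpos true, hcnt false, hcnt true]
    with ω m0 m1 p0 p1 c0 c1
  have m : ∀ x, (∃ μ : Measure ℂ, IsLim ((S x).T ω) ((S x).Z ω) μ ∧
        dimM μ = ENNReal.ofReal (min (2 * β / (2 * lam + 1)) 1)) ∧
      dimH (LSet ((S x).T ω) ((S x).Z ω)) = ENNReal.ofReal (lamDim β lam) := by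
    rintro (_ | _); exacts [m0, m1]
  have p : ∀ x, ∃ w : ℝ, 0 < w ∧ Tendsto (fun t : ℝ => Real.exp (-β * t) *
      ((Alive ((S x).T ω) t).ncard : ℝ)) atTop (𝓝 w) := by
    rintro (_ | _)
    · simpa using p0 []
    · simpa using p1 []
  have c : ∀ x, NE ((S x).T ω) := by rintro (_ | _); exacts [c0, c1]
  choose w hw0 hw1 using p
  choose μ hμ1 hμ2 using fun x => (m x).1
  have hd := fun x => (m x).2
  obtain ⟨n1, n2, ν, n3, n4⟩ := hUNI β (fun u => T u ω) (posZ T ρ θ ω) (fun x => (S x).Z ω) w μ hβ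
    (H.T_pos [] ω) (fun x => by rw [← hS1 x ω]; exact c x)
    (fun x p t hp => by rw [← hS1 x ω] at hp; exact hS2 x ω p t hp)
    (fun x => ⟨hw0 x, by rw [← hS1 x ω]; exact hw1 x⟩)
    (fun x => by rw [← hS1 x ω]; exact hμ1 x)
  refine ⟨fun t => n1.finite_Alive t, ⟨ν, n3, ?_⟩, ?_⟩
  · rw [n4, hμ2, hμ2, max_self]
  · rw [n2, dimH_union, ← hS1 false ω, ← hS1 true ω, hd, hd, max_self]

end Pool.Agent.helper23.HB
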