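import Pool.Agent.helper23.HB.Asm1
import Pool.Agent.helper23.HB.Final
import Pool.Agent.helper23.HB.ModelAE
import Pool.Agent.helper41.HB_FEW
import Pool.Agent.helper6.HB_LIMA
import Pool.Agent.helper6.HB_LM

/-! final assembly -/

open MeasureTheory ProbabilityTheory Set Filter Topology
open scoped ENNReal NNReal

namespace Pool.Agent.helper23.HB.Asm
open Pool.Agent.helper23.HB

theorem aFEW : St_FEW := Pool.Agent.helper41.HB.mFEW aPT aM21 aBAD aWT aCNT
theorem aLIMA : St_LIMA := Pool.Agent.helper6.HB.mLIMA'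
theorem aLM : St_LM := Pool.Agent.helper6.HB.mLM aFEW aEN4 aH4 aLIMA aDET aPRS aCNT aPOS aMSYS

/-- the theorem, from the last module -/
theorem final (aLL : St_LL)
    {Ω : Type} [MeasurableSpace Ω] (P : Measure Ω) [IsProbabilityMeasure P] (β lam : ℝ)
    (hβ : 0 < β) (hlam : -1 / 2 < lam)
    (T : Lab → Ω → ℝ) (B W : Lab → ℝ≥0 → Ω → ℝ) (ρ θ : Lab → ℝ → Ω → ℝ)
    (H : HypBBM β lam P T B W ρ θ) :
    ∀ᵐ ω ∂P, (∀ t, (Alive (fun u => T u ω) t).Finite) ∧
      (∃ μ : Measure ℂ, IsLim (fun u => T u ω) (posZ T ρ θ ω) μ ∧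
        dimM μ = ENNReal.ofReal (min (2 * β / (2 * lam + 1)) 1)) ∧
      dimH (LSet (fun u => T u ω) (posZ T ρ θ ω)) = ENNReal.ofReal (lamDim β lam) := by
  obtain ⟨S, hS, h1, hH⟩ := H.exists_sure
  haveI := subP_prob hS h1
  have h2 := main_hbbm aDIM aUL aLL aE5 aUM aLM aPOS aCNT aCONV aUNI S
    (P.comap (Subtype.val : S → Ω)) β lam hβ hlam _ _ _ _ _ hH
  refine (subP_ae hS h1).mp ?_
  exact h2

end Pool.Agent.helper23.HB.Asm
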