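import Pool.Agent.helper23.HB.Asm2
import Pool.Agent.helper65.HB.HB_LL

/-! last module -/

namespace Pool.Agent.helper23.HB.Asm
open Pool.Agent.helper23.HB

theorem aLL : St_LL :=
  Pool.Agent.helper65.HB.mLL aD5 aLDP aE2M aE2A aTRI aBIR aEN2 aLIMA aDET aLCL aSH aSUBR aCNT
    aSYS aMSYS

end Pool.Agent.helper23.HB.Asm
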