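import Pool.Agent.helper23.HB.Final
import Pool.Agent.helper23.HB.Conv2

open MeasureTheory ProbabilityTheory Set Filter Topology
open scoped ENNReal NNReal

namespace Pool.Agent.helper23.HB

/-- the theorem for hyperbolic branching Brownian motion started at the origin -/
theorem main_hbbm2 (hCLK : St_CLK) (hD : St_DIM) (hUL : St_UL) (hLL : St_LL) (hE5 : St_E5) (hUM : St_UM)
    (hLM : St_LM) (hPOS : St_POS) (hCNT : St_CNT) (hUNI : St_UNI)
    (Ω : Type) [MeasurableSpace Ω] (P : Measure Ω) [IsProbabilityMeasure P] (β lam : ℝ)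
    (hβ : 0 < β) (hlam : -1 / 2 < lam)
    (T : Lab → Ω → ℝ) (B W : Lab → ℝ≥0 → Ω → ℝ) (ρ : Lab → ℝ → Ω → ℝ) (D : Lab → ℝ → Ω → ℂ)
    (H : DBBM β lam P T B W ρ D) :
    ∀ᵐ ω ∂P, (∀ t, (Alive (fun u => T u ω) t).Finite) ∧
      (∃ μ : Measure ℂ, IsLim (fun u => T u ω) (posD T ρ D ω) μ ∧
        dimM μ = ENNReal.ofReal (min (2 * β / (2 * lam + 1)) 1)) ∧
      dimH (LSet (fun u => T u ω) (posD T ρ D ω)) = ENNReal.ofReal (lamDim β lam) := by
  choose S hS1 hS2 using C2.mCONV2 hCLK Ω P β lam T B W ρ D H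
  have hmain := fun x => main_sys hD hUL hLL hE5 hUM hLM Ω P β lam hβ hlam (S x)
  have hpos := fun x => hPOS Ω P β (S x).T hβ (S x).life
  have hcnt := fun x => (hCNT Ω P β (S x).T hβ (S x).life).2
  filter_upwards [hmain false, hmain true, hpos false, hpos true, hcnt false, hcnt true]
    with ω m0 m1 p0 p1 c0 c1
  have m : ∀ x, (∃ μ : Measure ℂ, IsLim ((S x).T ω) ((S x).Z ω) μ ∧
        dimM μ = ENNReal.ofReal (min (2 * β / (2 * lam + 1)) 1)) ∧
      dimH (LSet ((S x).T ω) ((S x).Z ω)) = ENNReal.ofReal (lamDim β lam) := by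
    rintro (_ | _); exacts [m0, m1]
  have p : ∀ x, ∃ w : ℝ, 0 < w ∧ Tendsto (fun t : ℝ => Real.exp (-β * t) *
      ((Alive ((S x).T ω) t).ncard : ℝ)) atTop (𝓝 w) := by
    rintro (_ | _)
    · simpa using p0 []
    · simpa using p1 []
  have c : ∀ x, NE ((S x).T ω) := by rintro (_ | _); exacts [c0, c1]
  choose w hw0 hw1 using p
  choose μ hμ1 hμ2 using fun x => (m x).1
  have hd := fun x => (m x).2
  obtain ⟨n1, n2, ν, n3, n4⟩ := hUNI β (fun u => T u ω) (posD T ρ D ω) (fun x => (S x).Z ω) w μ hβ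
    (H.T_pos [] ω) (fun x => by rw [← hS1 x ω]; exact c x)
    (fun x p t hp => by rw [← hS1 x ω] at hp; exact hS2 x ω p t hp)
    (fun x => ⟨hw0 x, by rw [← hS1 x ω]; exact hw1 x⟩)
    (fun x => by rw [← hS1 x ω]; exact hμ1 x)
  refine ⟨fun t => n1.finite_Alive t, ⟨ν, n3, ?_⟩, ?_⟩
  · rw [n4, hμ2, hμ2, max_self]
  · rw [n2, dimH_union, ← hS1 false ω, ← hS1 true ω, hd, hd, max_self]

end Pool.Agent.helper23.HB
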