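import Pool.Agent.helper23.HB.Basic

/-! restriction of a probability space to a set of full measure -/

open MeasureTheory ProbabilityTheory Set Filter Topology
open scoped ENNReal NNReal

namespace Pool.Agent.helper23.HB.SubP

section subspace

variable {Ω : Type} [MeasurableSpace Ω] {P : Measure Ω} {S : Set Ω}

theorem subP_apply (hS : MeasurableSet S) (h1 : P Sᶜ = 0) (A : Set Ω) :
    (P.comap (Subtype.val : S → Ω)) (Subtype.val ⁻¹' A) = P A := by
  rw [(MeasurableEmbedding.subtype_coe hS).comap_apply, Subtype.image_preimage_coe]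
  refine le_antisymm (measure_mono inter_subset_right) ?_
  calc P A ≤ P ((S ∩ A) ∪ Sᶜ) := measure_mono fun x hx => by
        by_cases h : x ∈ S
        · exact Or.inl ⟨h, hx⟩
        · exact Or.inr h
    _ ≤ P (S ∩ A) + P Sᶜ := measure_union_le _ _
    _ = P (S ∩ A) := by rw [h1, add_zero]

theorem subP_map (hS : MeasurableSet S) (h1 : P Sᶜ = 0) :
    (P.comap (Subtype.val : S → Ω)).map Subtype.val = P := by
  ext A hA
  rw [Measure.map_apply measurable_subtype_coe hA, subP_apply hS h1]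

theorem subP_prob [IsProbabilityMeasure P] (hS : MeasurableSet S) (h1 : P Sᶜ = 0) :
    IsProbabilityMeasure (P.comap (Subtype.val : S → Ω)) := by
  refine ⟨?_⟩
  have h2 := subP_apply hS h1 univ
  rw [preimage_univ] at h2
  rw [h2]; exact measure_univ

theorem subP_iIndepFun (hS : MeasurableSet S) (h1 : P Sᶜ = 0) {ι : Type} {E : ι → Type}
    [∀ i, MeasurableSpace (E i)] {X : ∀ i, Ω → E i} (h : iIndepFun X P) :
    iIndepFun (fun i (ω : S) => X i ω.1) (P.comap (Subtype.val : S → Ω)) := by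
  rw [iIndepFun_iff_measure_inter_preimage_eq_mul] at h ⊢
  intro s A hA
  have e1 : (⋂ i ∈ s, (fun ω : S => X i ω.1) ⁻¹' (A i)) =
      Subtype.val ⁻¹' (⋂ i ∈ s, (X i) ⁻¹' (A i)) := by ext; simp
  rw [e1, subP_apply hS h1, h s hA]
  refine Finset.prod_congr rfl fun i _ => ?_
  exact (subP_apply hS h1 _).symm

theorem subP_indepFun (hS : MeasurableSet S) (h1 : P Sᶜ = 0) {E F : Type}
    [MeasurableSpace E] [MeasurableSpace F] {X : Ω → E} {Y : Ω → F} (h : IndepFun X Y P) :
    IndepFun (fun (ω : S) => X ω.1) (fun (ω : S) => Y ω.1) (P.comap (Subtype.val : S → Ω)) := by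
  rw [indepFun_iff_measure_inter_preimage_eq_mul] at h ⊢
  intro s t hs ht
  have e1 : (fun ω : S => X ω.1) ⁻¹' s ∩ (fun ω : S => Y ω.1) ⁻¹' t =
      Subtype.val ⁻¹' (X ⁻¹' s ∩ Y ⁻¹' t) := by ext; simp
  rw [e1, subP_apply hS h1, h s t hs ht]
  congr 1
  · exact (subP_apply hS h1 _).symm
  · exact (subP_apply hS h1 _).symm

theorem subP_ae (hS : MeasurableSet S) (h1 : P Sᶜ = 0) {Q : Ω → Prop} :
    (∀ᵐ ω ∂(P.comap (Subtype.val : S → Ω)), Q ω.1) ↔ ∀ᵐ ω ∂P, Q ω := by
  rw [ae_iff, ae_iff]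
  have : {ω : S | ¬Q ω.1} = Subtype.val ⁻¹' {ω | ¬Q ω} := rfl
  rw [this, subP_apply hS h1]

theorem subP_bm [IsProbabilityMeasure P] (hS : MeasurableSet S) (h1 : P Sᶜ = 0)
    {X : ℝ≥0 → Ω → ℝ} (h : IsBrownianReal X P) :
    IsBrownianReal (fun t (ω : S) => X t ω.1) (P.comap (Subtype.val : S → Ω)) := by
  refine ⟨⟨fun I => ?_⟩, ?_⟩
  · have h2 := h.hasLaw I
    have h3 : Measure.QuasiMeasurePreserving (Subtype.val : S → Ω) (P.comap (Subtype.val : S → Ω)) P :=
      ⟨measurable_subtype_coe, by rw [subP_map hS h1]⟩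
    refine ⟨h2.aemeasurable.comp_quasiMeasurePreserving h3, ?_⟩
    have h4 := h2.map_eq
    rw [← subP_map hS h1, AEMeasurable.map_map_of_aemeasurable] at h4
    · exact h4
    · rw [subP_map hS h1]; exact h2.aemeasurable
    · exact measurable_subtype_coe.aemeasurable
  · exact (subP_ae hS h1).mpr h.cont

end subspace

end Pool.Agent.helper23.HB.SubP
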