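import Pool.Agent.helper23.HB.Model2
import Pool.Agent.helper23.HB.SubP

/-!
# Hyperbolic branching Brownian motion with radial drift, started at the origin

The position in the unit disc of the particle `u` at age `s ≥ 0` is `tanh (ρ u s / 2) * D u s`:
`ρ u s` is its hyperbolic distance from the origin and `D u s`, a point of the unit circle, its
direction. (The diffusion of the particle is run for ever, the particle uses it only
until its lifetime `T u ω` is over, when it is replaced by its two children `false :: u`,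
`true :: u`.)
The generator of the motion is `Δ/2 + λ ∂_ρ`; in polar coordinates the radial part solves
`dρ = dB + (coth ρ / 2 + λ) dt`, and, given the radial part, the direction is a Brownian motion on
the circle run with the clock `∫ dt / sinh² ρ`.
-/

open MeasureTheory ProbabilityTheory Set Filter Topology
open scoped ENNReal NNReal

namespace Pool.Agent.helper23.HB

open SubP

/-- Hyperbolic branching Brownian motion with branching rate `β` and radial drift `lam`, started
from one particle at the origin of the hyperbolic disc. -/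
structure HyperbolicBBM {Ω : Type} [MeasurableSpace Ω] (β lam : ℝ) (P : Measure Ω)
    (T : Lab → Ω → ℝ) (B W : Lab → ℝ≥0 → Ω → ℝ) (ρ : Lab → ℝ → Ω → ℝ) (D : Lab → ℝ → Ω → ℂ) :
    Prop where
  /-- the lifetimes are independent exponential variables of rate `β` -/
  T_meas : ∀ u, Measurable (T u)
  T_law : ∀ u (t : ℝ), 0 ≤ t → P {ω | t < T u ω} = ENNReal.ofReal (Real.exp (-β * t))
  T_indep : iIndepFun T P
  /-- the radial noises are independent Brownian motions, independent of the lifetimes -/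
  B_meas : ∀ u t, Measurable (B u t)
  B_bm : ∀ u, IsBrownianReal (B u) P
  B_indep : iIndepFun (fun u ω t => B u t ω) P
  TB_indep : IndepFun (fun ω u => T u ω) (fun ω (u : Lab) (t : ℝ≥0) => B u t ω) P
  /-- the angular noises (of the particles different from the first one) are independent
  Brownian motions -/
  W_meas : ∀ u t, u ≠ [] → Measurable (W u t)
  W_bm : ∀ u, u ≠ [] → IsBrownianReal (W u) P
  W_indep : iIndepFun (fun (u : {u : Lab // u ≠ []}) ω t => W u.1 t ω) P
  /-- regularity of the polar coordinates -/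
  ρ_meas : ∀ u (t : ℝ≥0), Measurable (ρ u t)
  D_meas : ∀ u (t : ℝ≥0), Measurable (D u t)
  ρ_cont : ∀ u, ∀ᵐ ω ∂P, ContinuousOn (fun s => ρ u s ω) (Ici 0)
  D_cont : ∀ u, ∀ᵐ ω ∂P, ContinuousOn (fun s => D u s ω) (Ioi 0)
  ρ_pos : ∀ u, ∀ᵐ ω ∂P, ∀ t : ℝ, 0 < t → 0 < ρ u t ω
  ρ_int : ∀ u, ∀ᵐ ω ∂P, ∀ t : ℝ, 0 ≤ t →
    IntervalIntegrable (fun s => Real.cosh (ρ u s ω) / (2 * Real.sinh (ρ u s ω))) volume 0 t
  D_norm : ∀ u, ∀ᵐ ω ∂P, ∀ t : ℝ, 0 < t → ‖D u t ω‖ = 1
  /-- the first particle starts at the origin, its children start where it dies, and so on -/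
  ρ_root : ∀ᵐ ω ∂P, ρ [] 0 ω = 0
  ρ_start : ∀ x u, ∀ᵐ ω ∂P, ρ (x :: u) 0 ω = ρ u (T u ω) ω
  /-- the radial equation -/
  ρ_eqn : ∀ u, ∀ᵐ ω ∂P, ∀ t : ℝ, 0 ≤ t → ρ u t ω = ρ u 0 ω + B u t.toNNReal ω +
    ∫ s in (0 : ℝ)..t, (Real.cosh (ρ u s ω) / (2 * Real.sinh (ρ u s ω)) + lam)
  /-- the angular equation for the particles different from the first one -/
  D_eqn : ∀ x u, ∀ᵐ ω ∂P, ∀ t : ℝ, 0 ≤ t → D (x :: u) t ω = D u (T u ω) ω *
    cis (W (x :: u) (∫ s in (0 : ℝ)..t, 1 / (Real.sinh (ρ (x :: u) s ω)) ^ 2).toNNReal ω)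
  /-- the angular noises are independent of all the radial information and of the directions of
  the first particle -/
  W_radial_indep : IndepFun (fun ω (u : {u : Lab // u ≠ []}) (t : ℝ≥0) => W u.1 t ω)
    (fun ω => ((fun (u : Lab) => T u ω), (fun (u : Lab) (t : ℝ≥0) => B u t ω),
      (fun (u : Lab) (t : ℝ≥0) => ρ u t ω), (fun (t : ℝ≥0) => D [] t ω))) P
  /-- the angular equation for the first particle (started at the origin): after every time
  `s > 0` the direction is driven by a Brownian motion independent of the past directions and of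
  the radial information -/
  D_root : ∀ s : ℝ, 0 < s → ∃ W' : ℝ≥0 → Ω → ℝ, IsBrownianReal W' P ∧
    IndepFun (fun ω (t : ℝ≥0) => W' t ω)
      (fun ω => ((fun (u : Lab) => T u ω), (fun (u : Lab) (t : ℝ≥0) => B u t ω),
        (fun (u : Lab) (t : ℝ≥0) => ρ u t ω), (fun (t : Ioc (0 : ℝ) s) => D [] t ω))) P ∧
    ∀ᵐ ω ∂P, ∀ t : ℝ, 0 ≤ t → D [] (s + t) ω = D [] s ω *
      cis (W' (∫ r in s..(s + t), 1 / (Real.sinh (ρ [] r ω)) ^ 2).toNNReal ω)

open Classical in
/-- restriction of the model to a set of full measure on which everything holds surely -/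
theorem HyperbolicBBM.exists_sure {Ω : Type} [MeasurableSpace Ω] {P : Measure Ω} [IsProbabilityMeasure P]
    {β lam : ℝ} {T : Lab → Ω → ℝ} {B W : Lab → ℝ≥0 → Ω → ℝ} {ρ : Lab → ℝ → Ω → ℝ}
    {D : Lab → ℝ → Ω → ℂ}
    (H : HyperbolicBBM β lam P T B W ρ D) :
    ∃ S : Set Ω, MeasurableSet S ∧ P Sᶜ = 0 ∧
      DBBM β lam (P.comap (Subtype.val : S → Ω)) (fun u ω => T u ω.1) (fun u t ω => B u t ω.1)
        (fun u t ω => if u = [] then 0 else W u t ω.1) (fun u s ω => ρ u s ω.1)
        (fun u s ω => D u s ω.1) := by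
  have hT : ∀ u, ∀ᵐ ω ∂P, 0 < T u ω := by
    intro u
    have h0 := H.T_law u 0 le_rfl
    rw [mul_zero, Real.exp_zero, ENNReal.ofReal_one] at h0
    have hm : MeasurableSet {ω | 0 < T u ω} := measurableSet_lt measurable_const (H.T_meas u)
    have := (prob_compl_eq_zero_iff hm).mpr h0
    exact this
  have hall : ∀ᵐ ω ∂P, (∀ u, 0 < T u ω) ∧ (∀ u, Continuous (fun t => B u t ω)) ∧
      (∀ u, B u 0 ω = 0) ∧ (∀ u, u ≠ [] → Continuous (fun t => W u t ω)) ∧
      (∀ u, u ≠ [] → W u 0 ω = 0) ∧ (∀ u, ContinuousOn (fun s => ρ u s ω) (Ici 0)) ∧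
      (∀ u, ContinuousOn (fun s => D u s ω) (Ioi 0)) ∧ (∀ u, ∀ t : ℝ, 0 < t → 0 < ρ u t ω) ∧
      (∀ u, ∀ t : ℝ, 0 < t → ‖D u t ω‖ = 1) ∧
      (∀ x u, ρ (x :: u) 0 ω = ρ u (T u ω) ω) ∧
      (∀ u, ∀ t : ℝ, 0 ≤ t → ρ u t ω = ρ u 0 ω + B u t.toNNReal ω +
        ∫ s in (0 : ℝ)..t, (Real.cosh (ρ u s ω) / (2 * Real.sinh (ρ u s ω)) + lam)) ∧
      (∀ x u, ∀ t : ℝ, 0 ≤ t → D (x :: u) t ω = D u (T u ω) ω *
        cis (W (x :: u) (∫ s in (0 : ℝ)..t, 1 / (Real.sinh (ρ (x :: u) s ω)) ^ 2).toNNReal ω)) := by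
    have w1 : ∀ u, ∀ᵐ ω ∂P, u ≠ [] → Continuous (fun t => W u t ω) := by
      intro u
      by_cases hu : u = []
      · exact Eventually.of_forall fun ω h => absurd hu h
      · filter_upwards [(H.W_bm u hu).cont] with ω hω _ using hω
    have w2 : ∀ u, ∀ᵐ ω ∂P, u ≠ [] → W u 0 ω = 0 := by
      intro u
      by_cases hu : u = []
      · exact Eventually.of_forall fun ω h => absurd hu h
      · filter_upwards [(H.W_bm u hu).eval_zero_ae_eq_zero] with ω hω _ using hω
    filter_upwards [ae_all_iff.mpr hT, ae_all_iff.mpr fun u => (H.B_bm u).cont,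
      ae_all_iff.mpr fun u => (H.B_bm u).eval_zero_ae_eq_zero, ae_all_iff.mpr w1,
      ae_all_iff.mpr w2, ae_all_iff.mpr H.ρ_cont, ae_all_iff.mpr H.D_cont,
      ae_all_iff.mpr H.ρ_pos, ae_all_iff.mpr H.D_norm,
      ae_all_iff.mpr fun x => ae_all_iff.mpr fun u => H.ρ_start x u,
      ae_all_iff.mpr H.ρ_eqn, ae_all_iff.mpr fun x => ae_all_iff.mpr fun u => H.D_eqn x u]
      with ω h1 h2 h3 h4 h5 h6 h7 h8 h9 h10 h11 h12
    exact ⟨h1, h2, h3, h4, h5, h6, h7, h8, h9, h10, h11, h12⟩
  rw [ae_iff] at hall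
  obtain ⟨N, hN1, hN2, hN3⟩ := exists_measurable_superset_of_null hall
  have hS : MeasurableSet Nᶜ := hN2.compl
  have h1 : P (Nᶜ)ᶜ = 0 := by rw [compl_compl]; exact hN3
  have hg : ∀ ω : (Nᶜ : Set Ω), _ := fun ω => not_not.mp fun h => ω.2 (hN1 h)
  refine ⟨Nᶜ, hS, h1, ?_⟩
  haveI := subP_prob hS h1
  exact
    { T_pos := fun u ω => (hg ω).1 u
      T_meas := fun u => (H.T_meas u).comp measurable_subtype_coe
      T_law := fun u t ht => (subP_apply hS h1 {ω | t < T u ω}).trans (H.T_law u t ht)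
      T_indep := subP_iIndepFun hS h1 H.T_indep
      B_meas := fun u t => (H.B_meas u t).comp measurable_subtype_coe
      B_cont := fun u ω => (hg ω).2.1 u
      B_zero := fun u ω => (hg ω).2.2.1 u
      B_bm := fun u => subP_bm hS h1 (H.B_bm u)
      B_indep := subP_iIndepFun hS h1 H.B_indep
      TB_indep := subP_indepFun hS h1 H.TB_indep
      W_meas := fun u t => by
        by_cases hu : u = []
        · simp only [hu, if_true]; exact measurable_const
        · simp only [hu, if_false]; exact (H.W_meas u t hu).comp measurable_subtype_coe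
      W_cont := fun u ω => by
        by_cases hu : u = []
        · simp only [hu, if_true]; exact continuous_const
        · simp only [hu, if_false]; exact (hg ω).2.2.2.1 u hu
      W_zero := fun u ω => by
        by_cases hu : u = []
        · simp only [hu, if_true]
        · simp only [hu, if_false]; exact (hg ω).2.2.2.2.1 u hu
      W_bm := fun u hu => by
        simp only [hu, if_false]; exact subP_bm hS h1 (H.W_bm u hu)
      W_indep := by
        have := subP_iIndepFun hS h1 H.W_indep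
        refine this.congr ?_
        intro u
        refine Eventually.of_forall fun ω => ?_
        funext t
        simp [u.2]
      ρ_meas := fun u t => (H.ρ_meas u t).comp measurable_subtype_coe
      D_meas := fun u t => (H.D_meas u t).comp measurable_subtype_coe
      ρ_cont := fun u ω => (hg ω).2.2.2.2.2.1 u
      D_cont := fun u ω => (hg ω).2.2.2.2.2.2.1 u
      ρ_pos := fun u ω => (hg ω).2.2.2.2.2.2.2.1 u
      D_norm := fun u ω => (hg ω).2.2.2.2.2.2.2.2.1 u
      ρ_start := fun x u ω => (hg ω).2.2.2.2.2.2.2.2.2.1 x u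
      ρ_eqn := fun u ω => (hg ω).2.2.2.2.2.2.2.2.2.2.1 u
      D_eqn := fun x u ω t ht => by
        simp only [reduceCtorEq, if_false]
        exact (hg ω).2.2.2.2.2.2.2.2.2.2.2 x u t ht
      W_radial_indep := by
        have := subP_indepFun hS h1 H.W_radial_indep
        refine this.congr ?_ ?_
        · refine Eventually.of_forall fun ω => ?_
          funext u t
          simp [u.2]
        · exact Eventually.of_forall fun ω => rfl }

end Pool.Agent.helper23.HB
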