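import Pool.Agent.helper23.HB.Defs

/-!
# Hyperbolic branching Brownian motion : elementary facts on trees and lines
-/

open MeasureTheory ProbabilityTheory Set Filter Topology
open scoped ENNReal NNReal

namespace Pool.Agent.helper23.HB

/-! ## births and deaths -/

@[simp] theorem birth_nil (τ : Lab → ℝ) : birth τ [] = 0 := rfl
@[simp] theorem birth_cons (τ : Lab → ℝ) (x : Bool) (u : Lab) :
    birth τ (x :: u) = death τ u := rfl

theorem birth_append (τ : Lab → ℝ) (p u : Lab) :
    birth τ (p ++ u) = birth τ u + birth (sh u τ) p := by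
  induction p with
  | nil => simp
  | cons x p ih => simp only [List.cons_append, birth_cons, death, ih, sh]; ring

theorem death_append (τ : Lab → ℝ) (p u : Lab) :
    death τ (p ++ u) = birth τ u + death (sh u τ) p := by
  simp only [death, birth_append, sh]; ring

theorem birth_lt_death {τ : Lab → ℝ} (h : ∀ u, 0 < τ u) (u : Lab) : birth τ u < death τ u := by
  have := h u; simp only [death]; linarith

theorem birth_nonneg {τ : Lab → ℝ} (h : ∀ u, 0 < τ u) (u : Lab) : 0 ≤ birth τ u := by
  induction u with
  | nil => simp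
  | cons x u ih => rw [birth_cons]; have := h u; simp only [death]; linarith

theorem death_pos {τ : Lab → ℝ} (h : ∀ u, 0 < τ u) (u : Lab) : 0 < death τ u :=
  lt_of_le_of_lt (birth_nonneg h u) (birth_lt_death h u)

theorem sh_pos {τ : Lab → ℝ} (h : ∀ u, 0 < τ u) (u : Lab) : ∀ p, 0 < sh u τ p := fun p => h _

theorem sh_sh {α : Type*} (u v : Lab) (f : Lab → α) : sh v (sh u f) = sh (v ++ u) f := by
  funext p; simp [sh, List.append_assoc]

@[simp] theorem sh_nil {α : Type*} (f : Lab → α) : sh [] f = f := by funext p; simp [sh]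

theorem birth_le_birth_append {τ : Lab → ℝ} (h : ∀ u, 0 < τ u) (p u : Lab) :
    birth τ u ≤ birth τ (p ++ u) := by
  rw [birth_append]; have := birth_nonneg (sh_pos h u) p; linarith

theorem death_le_birth_append {τ : Lab → ℝ} (h : ∀ u, 0 < τ u) (x : Bool) (p u : Lab) :
    death τ u ≤ birth τ (p ++ x :: u) := by
  have := birth_le_birth_append h p (x :: u); rwa [birth_cons] at this

theorem death_le_death_append {τ : Lab → ℝ} (h : ∀ u, 0 < τ u) (p u : Lab) :
    death τ u ≤ death τ (p ++ u) := by
  rcases List.eq_nil_or_concat p with rfl | ⟨q, x, rfl⟩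
  · simp
  · rw [List.concat_eq_append, List.append_assoc, List.singleton_append]
    exact (death_le_birth_append h x q u).trans (birth_lt_death h _).le

theorem mem_Alive {τ : Lab → ℝ} {t : ℝ} {u : Lab} :
    u ∈ Alive τ t ↔ birth τ u ≤ t ∧ t < death τ u := Iff.rfl

theorem append_mem_Alive {τ : Lab → ℝ} {t : ℝ} {p u : Lab} :
    p ++ u ∈ Alive τ (birth τ u + t) ↔ p ∈ Alive (sh u τ) t := by
  simp only [mem_Alive, birth_append, death_append]
  constructor
  · rintro ⟨h1, h2⟩; constructor <;> linarith
  · rintro ⟨h1, h2⟩; constructor <;> linarith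

/-! ## ancestors -/

@[simp] theorem anc_nil (τ : Lab → ℝ) (s : ℝ) : anc τ s [] = [] := rfl

theorem anc_suffix (τ : Lab → ℝ) (s : ℝ) (v : Lab) : anc τ s v <:+ v := by
  induction v with
  | nil => simp
  | cons x u ih =>
    rw [anc]; split_ifs
    · exact List.suffix_rfl
    · exact ih.trans (List.suffix_cons x u)

theorem birth_anc_le {τ : Lab → ℝ} {s : ℝ} (hs : 0 ≤ s) (v : Lab) : birth τ (anc τ s v) ≤ s := by
  induction v with
  | nil => simpa using hs
  | cons x u ih =>
    rw [anc]; split_ifs with h
    · exact h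
    · exact ih

theorem lt_death_anc {τ : Lab → ℝ} {s : ℝ} {v : Lab} (hv : s < death τ v) :
    s < death τ (anc τ s v) := by
  induction v with
  | nil => simpa using hv
  | cons x u ih =>
    rw [anc]; split_ifs with h
    · exact hv
    · exact ih (not_le.mp h)

/-- the ancestor at time `s` is alive at time `s` -/
theorem anc_mem {τ : Lab → ℝ} {s : ℝ} (hs : 0 ≤ s) {v : Lab} (hv : s < death τ v) :
    anc τ s v ∈ Alive τ s := ⟨birth_anc_le hs v, lt_death_anc hv⟩

/-- uniqueness of the ancestor alive at time `s` -/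
theorem anc_append {τ : Lab → ℝ} (h : ∀ u, 0 < τ u) {s : ℝ} {u : Lab} (hu : u ∈ Alive τ s)
    (p : Lab) : anc τ s (p ++ u) = u := by
  induction p with
  | nil =>
    cases u with
    | nil => rfl
    | cons x u => rw [List.nil_append, anc, if_pos]; exact hu.1
  | cons x p ih =>
    rw [List.cons_append, anc, if_neg, ih]
    exact not_le.mpr (hu.2.trans_le (death_le_death_append h p u))

theorem anc_of_suffix {τ : Lab → ℝ} (h : ∀ u, 0 < τ u) {s : ℝ} {u v : Lab} (hu : u ∈ Alive τ s)
    (huv : u <:+ v) : anc τ s v = u := by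
  obtain ⟨p, rfl⟩ := huv; exact anc_append h hu p

theorem anc_anc {τ : Lab → ℝ} (h : ∀ u, 0 < τ u) {s t : ℝ} (hs : 0 ≤ s) (hst : s ≤ t) {v : Lab}
    (hv : t < death τ v) : anc τ s (anc τ t v) = anc τ s v := by
  have h1 : s < death τ (anc τ t v) := lt_of_le_of_lt hst (lt_death_anc hv)
  have h2 := anc_mem hs h1
  exact (anc_of_suffix h h2 ((anc_suffix τ s _).trans (anc_suffix τ t v))).symm

/-- two particles alive at the same time are not comparable -/
theorem eq_of_suffix {τ : Lab → ℝ} (h : ∀ u, 0 < τ u) {t : ℝ} {u v : Lab} (hu : u ∈ Alive τ t)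
    (hv : v ∈ Alive τ t) (huv : u <:+ v) : u = v := by
  have h1 := anc_of_suffix h hu huv
  have h2 := anc_of_suffix h hv List.suffix_rfl
  exact h1.symm.trans h2

/-- trichotomy for two labels -/
theorem suffix_or (u v : Lab) : u <:+ v ∨ v <:+ u ∨ ∃ z : Quad, qu z = u ∧ qv z = v := by
  induction u using List.reverseRecOn generalizing v with
  | nil => exact Or.inl (List.nil_suffix)
  | append_singleton u x ih =>
    rcases List.eq_nil_or_concat v with rfl | ⟨v', y, rfl⟩
    · exact Or.inr (Or.inl List.nil_suffix)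
    · rw [List.concat_eq_append]
      by_cases hxy : x = y
      · subst hxy
        rcases ih v' with h1 | h1 | ⟨⟨w, z, p, q⟩, hz1, hz2⟩
        · left; obtain ⟨p, rfl⟩ := h1; exact ⟨p, by simp⟩
        · right; left; obtain ⟨p, rfl⟩ := h1; exact ⟨p, by simp⟩
        · right; right
          refine ⟨(w ++ [x], z, p, q), ?_, ?_⟩
          · simp only [qu] at hz1 ⊢; rw [← hz1]; simp
          · simp only [qv] at hz2 ⊢; rw [← hz2]; simp
      · right; right
        refine ⟨([], x, u, v'), rfl, ?_⟩
        have : y = !x := by cases x <;> cases y <;> simp_all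
        simp [qv, this]

theorem not_suffix_quad (z : Quad) : ¬ qu z <:+ qv z := by
  obtain ⟨w, x, p, q⟩ := z
  rintro ⟨r, hr⟩
  simp only [qu, qv] at hr
  rw [← List.append_assoc] at hr
  have h1 : (r ++ p ++ [x]) ++ w = (q ++ [!x]) ++ w := by simpa using hr
  have h2 := List.append_cancel_right h1
  have h3 := List.append_inj_right' h2 rfl
  simp at h3

theorem not_suffix_quad' (z : Quad) : ¬ qv z <:+ qu z := by
  obtain ⟨w, x, p, q⟩ := z
  have := not_suffix_quad (w, !x, q, p)
  simpa [qu, qv] using this

/-- the pair determines the quadruple -/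
theorem quad_inj {z z' : Quad} (h1 : qu z = qu z') (h2 : qv z = qv z') : z = z' := by
  obtain ⟨w, x, p, q⟩ := z
  obtain ⟨w', x', p', q'⟩ := z'
  simp only [qu, qv] at h1 h2
  -- `w` and `w'` are comparable
  have key : ∀ (w w' : Lab) (x x' : Bool) (p p' q q' : Lab), w.length ≤ w'.length →
      p ++ x :: w = p' ++ x' :: w' → q ++ (!x) :: w = q' ++ (!x') :: w' →
      w = w' ∧ x = x' ∧ p = p' ∧ q = q' := by
    intro w w' x x' p p' q q' hl h1 h2
    rcases hl.eq_or_lt with hl | hl
    · have h3 : (p ++ [x]) ++ w = (p' ++ [x']) ++ w' := by simpa using h1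
      obtain ⟨h4, h5⟩ := List.append_inj' h3 hl
      have h6 : (q ++ [!x]) ++ w = (q' ++ [!x']) ++ w' := by simpa using h2
      obtain ⟨h7, -⟩ := List.append_inj' h6 hl
      obtain ⟨h8, h9⟩ := List.append_inj' h4 rfl
      obtain ⟨h10, -⟩ := List.append_inj' h7 rfl
      exact ⟨h5, by simpa using h9, h8, h10⟩
    · exfalso
      have e1 : w' <:+ p ++ x :: w := by rw [h1]; exact ⟨p' ++ [x'], by simp⟩
      have e2 : w' <:+ q ++ (!x) :: w := by rw [h2]; exact ⟨q' ++ [!x'], by simp⟩
      have e3 : x :: w <:+ p ++ x :: w := ⟨p, rfl⟩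
      have e4 : (!x) :: w <:+ q ++ (!x) :: w := ⟨q, rfl⟩
      have f1 : x :: w <:+ w' := List.suffix_of_suffix_length_le e3 e1 (by simpa using hl)
      have f2 : (!x) :: w <:+ w' := List.suffix_of_suffix_length_le e4 e2 (by simpa using hl)
      have f3 : x :: w <:+ (!x) :: w := List.suffix_of_suffix_length_le f1 f2 (by simp)
      have f4 := f3.eq_of_length (by simp)
      simp at f4
  rcases le_total w.length w'.length with hl | hl
  · obtain ⟨rfl, rfl, rfl, rfl⟩ := key _ _ _ _ _ _ _ _ hl h1 h2; rfl
  · obtain ⟨rfl, rfl, rfl, rfl⟩ := key _ _ _ _ _ _ _ _ hl h1.symm h2.symm; rfl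

/-! ## no explosion -/

theorem NE.finite_Alive {τ : Lab → ℝ} (h : NE τ) (t : ℝ) : (Alive τ t).Finite :=
  (h.2 t).subset fun _ hu => hu.1

theorem NE.sh {τ : Lab → ℝ} (h : NE τ) (u : Lab) : NE (sh u τ) := by
  refine ⟨fun p => h.1 _, fun t => ?_⟩
  have h1 := h.2 (birth τ u + t)
  have h2 : (fun p => p ++ u) '' {p | birth (HB.sh u τ) p ≤ t} ⊆ {v | birth τ v ≤ birth τ u + t} := by
    rintro _ ⟨p, hp, rfl⟩
    simp only [mem_ofPred_eq, birth_append] at hp ⊢
    linarith
  exact Set.Finite.of_finite_image (h1.subset h2) (fun p _ q _ hpq => List.append_cancel_right hpq)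

/-- every particle alive at time `t` has a descendant alive at the later time `t'` -/
theorem NE.exists_desc {τ : Lab → ℝ} (h : NE τ) {t t' : ℝ} (htt' : t ≤ t') {u : Lab}
    (hu : u ∈ Alive τ t) : ∃ p, p ++ u ∈ Alive τ t' := by
  by_contra hcon
  push Not at hcon
  have h1 : ∀ k : ℕ, birth τ (List.replicate k false ++ u) ≤ t' := by
    intro k
    induction k with
    | zero => simpa using hu.1.trans htt'
    | succ k ih =>
      rw [List.replicate_succ, List.cons_append, birth_cons]
      by_contra h2
      exact hcon _ ⟨ih, not_le.mp h2⟩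
  have h2 : (Set.range fun k : ℕ => List.replicate k false ++ u) ⊆ {v | birth τ v ≤ t'} := by
    rintro _ ⟨k, rfl⟩; exact h1 k
  refine Set.infinite_range_of_injective ?_ ((h.2 t').subset h2)
  intro k l hkl
  have := congrArg List.length hkl
  simpa using this

/-! ## lines -/

theorem Pth.continuous (b : Pth) : Continuous (b : ℝ → ℝ) := b.2.1
theorem Pth.of_nonpos (b : Pth) {t : ℝ} (ht : t ≤ 0) : (b : ℝ → ℝ) t = 0 := b.2.2 t ht
@[simp] theorem Pth.zero (b : Pth) : (b : ℝ → ℝ) 0 = 0 := b.2.2 0 le_rfl

theorem line_nil (τ : Lab → ℝ) (b : Lab → Pth) (t : ℝ) : line τ b [] t = b [] t := by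
  rw [line]

theorem line_cons (τ : Lab → ℝ) (b : Lab → Pth) (x : Bool) (u : Lab) (t : ℝ) :
    line τ b (x :: u) t = line τ b u (min t (death τ u)) + b (x :: u) (t - death τ u) := by
  rw [line]

theorem line_continuous (τ : Lab → ℝ) (b : Lab → Pth) (v : Lab) : Continuous (line τ b v) := by
  induction v with
  | nil => have : line τ b [] = b [] := by funext t; rw [line]
           rw [this]; exact (b []).continuous
  | cons x u ih =>
    have : line τ b (x :: u) = fun t => line τ b u (min t (death τ u)) +
        b (x :: u) (t - death τ u) := by funext t; rw [line]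
    rw [this]
    exact (ih.comp (continuous_id.min continuous_const)).add
      ((b (x :: u)).continuous.comp (continuous_id.sub continuous_const))

theorem line_old (τ : Lab → ℝ) (b : Lab → Pth) (x : Bool) (u : Lab) {t : ℝ}
    (ht : t ≤ death τ u) : line τ b (x :: u) t = line τ b u t := by
  rw [line_cons, min_eq_left ht, Pth.of_nonpos _ (by linarith), add_zero]

theorem line_old_append {τ : Lab → ℝ} (h : ∀ u, 0 < τ u) (b : Lab → Pth) (p u : Lab) {t : ℝ}
    (ht : t ≤ death τ u) : line τ b (p ++ u) t = line τ b u t := by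
  induction p with
  | nil => rfl
  | cons x p ih =>
    rw [List.cons_append, line_old, ih]
    exact ht.trans (death_le_death_append h p u)

theorem line_of_nonpos {τ : Lab → ℝ} (h : ∀ u, 0 < τ u) (b : Lab → Pth) (v : Lab) {t : ℝ}
    (ht : t ≤ 0) : line τ b v t = 0 := by
  have h1 := line_old_append h b v [] (t := t) (ht.trans (death_pos h []).le)
  rw [List.append_nil] at h1
  rw [h1, line_nil, Pth.of_nonpos _ ht]

/-- after the birth of `u` the increments of the line of `p ++ u` are given by the subtree -/
theorem line_shift {τ : Lab → ℝ} (h : ∀ u, 0 < τ u) (b : Lab → Pth) (p u : Lab) {r : ℝ}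
    (hr : 0 ≤ r) : line τ b (p ++ u) (birth τ u + r) =
      line τ b u (birth τ u) + line (sh u τ) (sh u b) p r := by
  induction p generalizing r with
  | nil =>
    rw [List.nil_append, line_nil]
    cases u with
    | nil => simp [line_nil, sh]
    | cons x u =>
      rw [line_cons, line_cons, birth_cons, min_self, min_eq_right (by linarith)]
      simp [sh]
  | cons x p ih =>
    have hb := death_append τ p u
    have h0 : 0 ≤ death (sh u τ) p := (death_pos (sh_pos h u) p).le
    rw [List.cons_append, line_cons, line_cons, hb, min_add_add_left, ih (le_min hr h0)]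
    have : birth τ u + r - (birth τ u + death (sh u τ) p) = r - death (sh u τ) p := by ring
    rw [this]
    simp only [sh, List.cons_append]
    ring

/-- the line of `v` only depends on the noise of the suffixes of `v` and on their lifetimes -/
theorem line_congr {τ τ' : Lab → ℝ} {b b' : Lab → Pth} {v : Lab}
    (h1 : ∀ u, u <:+ v → τ u = τ' u) (h2 : ∀ u, u <:+ v → b u = b' u) :
    line τ b v = line τ' b' v := by
  have hd : ∀ u, u <:+ v → death τ u = death τ' u := by
    intro u
    induction u with
    | nil => intro hu; simp [death, h1 _ hu]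
    | cons x u ih =>
      intro hu
      have := ih ((List.suffix_cons x u).trans hu)
      simp only [death, birth_cons] at this ⊢
      rw [this, h1 _ hu]
  have : ∀ u, u <:+ v → line τ b u = line τ' b' u := by
    intro u
    induction u with
    | nil => intro hu; funext t; rw [line_nil, line_nil, h2 _ hu]
    | cons x u ih =>
      intro hu
      have hu' := (List.suffix_cons x u).trans hu
      funext t
      rw [line_cons, line_cons, ih hu', hd _ hu', h2 _ hu]
  exact this v List.suffix_rfl

/-! ## functions which agree along ancestral lines -/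

theorem old_append {τ : Lab → ℝ} (h : ∀ u, 0 < τ u) {E : Type*} {f : Lab → ℝ → E}
    (hf : ∀ x u t, 0 ≤ t → t ≤ death τ u → f (x :: u) t = f u t) (p u : Lab) {t : ℝ}
    (h0 : 0 ≤ t) (ht : t ≤ death τ u) : f (p ++ u) t = f u t := by
  induction p with
  | nil => rfl
  | cons x p ih =>
    rw [List.cons_append, hf x _ t h0, ih]
    exact ht.trans (death_le_death_append h p u)

/-! ## indicators -/

@[simp] theorem ind_true {p : Prop} (h : p) : ind p = 1 := by simp [ind, h]
@[simp] theorem ind_false {p : Prop} (h : ¬p) : ind p = 0 := by simp [ind, h]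
theorem ind_le_one (p : Prop) : ind p ≤ 1 := by
  by_cases h : p <;> simp [ind, h]
theorem ind_ne_zero {p : Prop} : ind p ≠ 0 ↔ p := by
  by_cases h : p <;> simp [ind, h]
theorem ind_mono {p q : Prop} (h : p → q) : ind p ≤ ind q := by
  by_cases hp : p
  · simp [ind, hp, h hp]
  · simp [ind, hp]
theorem ind_and (p q : Prop) : ind (p ∧ q) = ind p * ind q := by
  by_cases hp : p <;> by_cases hq : q <;> simp [ind, hp, hq]
theorem ind_mem {α : Type*} (s : Set α) (x : α) : ind (x ∈ s) = s.indicator (fun _ => (1 : ℝ≥0∞)) x := by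
  by_cases h : x ∈ s <;> simp [ind, h]

theorem measurable_ind {α : Type*} [MeasurableSpace α] {s : Set α} (hs : MeasurableSet s) :
    Measurable (fun x => ind (x ∈ s)) := by
  simp_rw [ind_mem]
  exact measurable_const.indicator hs

end Pool.Agent.helper23.HB
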