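import Pool.Agent.helper23.HB.Exp

open MeasureTheory ProbabilityTheory Set Filter Topology
open scoped ENNReal NNReal

namespace Pool.Agent.helper23.HB

theorem measurable_ind_Alive (v : Lab) :
    Measurable (fun x : (Lab → ℝ) × ℝ => ind (v ∈ Alive x.1 x.2)) :=
  measurable_ind (measurableSet_Alive v)

theorem append_mem_Alive' {τ : Lab → ℝ} {t : ℝ} {p u : Lab} :
    p ++ u ∈ Alive τ t ↔ p ∈ Alive (sh u τ) (t - birth τ u) := by
  rw [← append_mem_Alive]
  ring_nf

theorem Alive_of_neg {τ : Lab → ℝ} (h : ∀ u, 0 < τ u) {t : ℝ} (ht : t < 0) : Alive τ t = ∅ := by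
  ext u
  simp only [mem_Alive, mem_empty_iff_false, iff_false, not_and]
  intro h1
  linarith [birth_nonneg h u]

theorem gamma_step (β t : ℝ) (n : ℕ) :
    ∫ r in (0 : ℝ)..t, (β * (t - r)) ^ n / (n.factorial : ℝ) * β =
      (β * t) ^ (n + 1) / ((n + 1).factorial : ℝ) := by
  have h : ∀ r ∈ uIcc 0 t, HasDerivAt
      (fun r => -((β * (t - r)) ^ (n + 1) / ((n + 1).factorial : ℝ)))
      ((β * (t - r)) ^ n / (n.factorial : ℝ) * β) r := by
    intro r _
    have h1 : HasDerivAt (fun r => β * (t - r)) (-β) r := by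
      simpa using ((hasDerivAt_id r).const_sub t).const_mul β
    have h2 := ((h1.pow (n + 1)).div_const ((n + 1).factorial : ℝ)).neg
    refine h2.congr_deriv ?_
    rw [Nat.factorial_succ]
    have : (n.factorial : ℝ) ≠ 0 := by positivity
    have : ((n : ℝ) + 1) ≠ 0 := by positivity
    push_cast
    field_simp
  rw [intervalIntegral.integral_eq_sub_of_hasDerivAt h]
  · simp
  · apply Continuous.intervalIntegrable
    fun_prop

theorem prob_alive (hBR : St_BR) {Ω : Type} [MeasurableSpace Ω] {P : Measure Ω}
    [IsProbabilityMeasure P] {β : ℝ} (hβ : 0 < β) {T : Ω → Lab → ℝ} (hT : Life β P T) (v : Lab) :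
    ∀ t : ℝ, 0 ≤ t → ∫⁻ ω, ind (v ∈ Alive (T ω) t) ∂P =
      ENNReal.ofReal (Real.exp (-(β * t)) * ((β * t) ^ v.length / (v.length.factorial : ℝ))) := by
  have hm : Measurable T := measurable_pi_lambda _ hT.meas
  induction v using List.reverseRecOn with
  | nil =>
    intro t ht
    have h1 : ∀ ω, ind ([] ∈ Alive (T ω) t) = ind (ω ∈ {ω | t < T ω []}) := by
      intro ω
      simp [mem_Alive, death, ht]
    simp_rw [h1]
    have hmeas : MeasurableSet {ω | t < T ω []} := measurableSet_lt measurable_const (hT.meas _)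
    simp_rw [ind_mem]
    rw [lintegral_indicator hmeas]
    simp [hT.law [] t ht]
  | append_singleton u x ih =>
    intro t ht
    have h1 : ∀ ω, ind (u ++ [x] ∈ Alive (T ω) t) =
        (1 : ℝ≥0∞) * ind (u ∈ Alive (sh (x :: []) (T ω)) (t - death (T ω) [])) * 1 := by
      intro ω
      rw [one_mul, mul_one]
      congr 1
      rw [append_mem_Alive']
      simp
    simp_rw [h1]
    have hf : Measurable (fun y : (Lab → ℝ) × ℝ => ind (u ∈ Alive y.1 (t - y.2))) :=
      (measurable_ind_Alive u).comp (measurable_fst.prodMk (measurable_const.sub measurable_snd))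
    have hbr := hBR Ω P β T hβ hT [] x (fun _ => 1) (fun y => ind (u ∈ Alive y.1 (t - y.2)))
      (fun _ => 1) measurable_const hf measurable_const
    rw [hbr]
    simp only [one_mul, lintegral_const, measure_univ, mul_one]
    have hF : Measurable fun d : ℝ => ∫⁻ ω', ind (u ∈ Alive (T ω') (t - d)) ∂P := by
      have : Measurable (fun y : ℝ × Ω => ind (u ∈ Alive (T y.2) (t - y.1))) :=
        hf.comp ((hm.comp measurable_snd).prodMk measurable_fst)
      exact this.lintegral_prod_right'
    have h2 : ∀ ω, death (T ω) [] = T ω [] := by intro ω; simp [death]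
    simp_rw [h2]
    rw [life_lintegral hβ hT [] hF]
    -- restrict to (0, t]
    have h3 : ∫⁻ r in Ioi (0 : ℝ), (∫⁻ ω', ind (u ∈ Alive (T ω') (t - r)) ∂P) *
          ENNReal.ofReal (β * Real.exp (-(β * r))) =
        ∫⁻ r in Ioc (0 : ℝ) t, ENNReal.ofReal (Real.exp (-(β * t)) *
          ((β * (t - r)) ^ u.length / (u.length.factorial : ℝ) * β)) := by
      rw [← lintegral_indicator measurableSet_Ioi, ← lintegral_indicator measurableSet_Ioc]
      refine lintegral_congr fun r => ?_
      by_cases hr0 : 0 < r
      · rw [indicator_of_mem (by exact hr0 : r ∈ Ioi (0 : ℝ))]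
        by_cases hrt : r ≤ t
        · rw [indicator_of_mem (by exact ⟨hr0, hrt⟩ : r ∈ Ioc (0 : ℝ) t), ih (t - r) (by linarith),
            ← ENNReal.ofReal_mul (by
              have : 0 ≤ β * (t - r) := mul_nonneg hβ.le (by linarith)
              positivity)]
          congr 1
          have : Real.exp (-(β * (t - r))) * Real.exp (-(β * r)) = Real.exp (-(β * t)) := by
            rw [← Real.exp_add]; ring_nf
          rw [← this]; ring
        · rw [indicator_of_notMem (by simp [hrt])]
          have : ∀ ω', ind (u ∈ Alive (T ω') (t - r)) = 0 := by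
            intro ω'
            rw [Alive_of_neg (hT.pos ω') (by linarith)]; simp
          simp [this]
      · rw [indicator_of_notMem (by simpa using hr0), indicator_of_notMem (by simp [hr0])]
    rw [h3]
    have hnn : ∀ r, r ∈ Ioc (0 : ℝ) t → 0 ≤ Real.exp (-(β * t)) *
          ((β * (t - r)) ^ u.length / (u.length.factorial : ℝ) * β) := by
      intro r hr
      have : 0 ≤ β * (t - r) := mul_nonneg hβ.le (by linarith [hr.2])
      positivity
    have hcont : Continuous fun r : ℝ => Real.exp (-(β * t)) *
          ((β * (t - r)) ^ u.length / (u.length.factorial : ℝ) * β) := by fun_prop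
    rw [← ofReal_integral_eq_lintegral_ofReal]
    · congr 1
      rw [← intervalIntegral.integral_of_le ht, intervalIntegral.integral_const_mul, gamma_step]
      simp
    · exact (hcont.integrableOn_Icc (a := 0) (b := t)).mono_set Ioc_subset_Icc_self
    · filter_upwards [ae_restrict_mem measurableSet_Ioc] with r hr using hnn r hr

/-- sums over words of functions of the length -/
theorem tsum_words (f : ℕ → ℝ≥0∞) :
    ∑' v : Lab, f v.length = ∑' n : ℕ, (2 : ℝ≥0∞) ^ n * f n := by
  rw [← (Equiv.sigmaFiberEquiv (List.length : Lab → ℕ)).tsum_eq, ENNReal.tsum_sigma']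
  refine tsum_congr fun n => ?_
  have h1 : ∀ v : {v : Lab // v.length = n},
      f ((Equiv.sigmaFiberEquiv (List.length : Lab → ℕ)) ⟨n, v⟩).length = f n := by
    rintro ⟨v, hv⟩
    simp [Equiv.sigmaFiberEquiv, hv]
  simp_rw [h1]
  have hcard : Fintype.card (List.Vector Bool n) = 2 ^ n := by simp [card_vector]
  have : ∑' _ : {v : Lab // v.length = n}, f n = ∑' _ : List.Vector Bool n, f n := rfl
  rw [this, tsum_fintype, Finset.sum_const, Finset.card_univ, hcard, nsmul_eq_mul]
  push_cast
  rfl

theorem mCNT (hBR : St_BR) : St_CNT := by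
  intro Ω _ P _ β T hβ hT
  have hm : Measurable T := measurable_pi_lambda _ hT.meas
  have hmv : ∀ (v : Lab) (t : ℝ), Measurable fun ω => ind (v ∈ Alive (T ω) t) := fun v t =>
    (measurable_ind (measurableSet_Alive_left v t)).comp hm
  have hmean : ∀ t : ℝ, 0 ≤ t → ∑' v : Lab, ∫⁻ ω, ind (v ∈ Alive (T ω) t) ∂P =
      ENNReal.ofReal (Real.exp (β * t)) := by
    intro t ht
    simp_rw [fun v => prob_alive hBR hβ hT v t ht]
    rw [tsum_words (fun n => ENNReal.ofReal (Real.exp (-(β * t)) *
      ((β * t) ^ n / (n.factorial : ℝ))))]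
    have hbt : 0 ≤ β * t := mul_nonneg hβ.le ht
    have h1 : ∀ n : ℕ, (2 : ℝ≥0∞) ^ n * ENNReal.ofReal (Real.exp (-(β * t)) *
        ((β * t) ^ n / (n.factorial : ℝ))) = ENNReal.ofReal (Real.exp (-(β * t)) *
        ((2 * (β * t)) ^ n / (n.factorial : ℝ))) := by
      intro n
      have : (2 : ℝ≥0∞) ^ n = ENNReal.ofReal (2 ^ n) := by
        rw [ENNReal.ofReal_pow (by norm_num)]; norm_num
      rw [this, ← ENNReal.ofReal_mul (by positivity)]
      congr 1
      rw [mul_pow]; ring
    simp_rw [h1]
    have hsum : HasSum (fun n : ℕ => Real.exp (-(β * t)) *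
        ((2 * (β * t)) ^ n / (n.factorial : ℝ))) (Real.exp (-(β * t)) *
          Real.exp (2 * (β * t))) := by
      refine HasSum.mul_left _ ?_
      rw [Real.exp_eq_exp_ℝ]
      exact NormedSpace.expSeries_div_hasSum_exp (2 * (β * t))
    rw [← ENNReal.ofReal_tsum_of_nonneg (fun n => by positivity) hsum.summable, hsum.tsum_eq,
      ← Real.exp_add]
    congr 2; ring
  refine ⟨?_, ?_⟩
  · intro t ht
    unfold cnt
    rw [lintegral_tsum (fun v => (hmv v t).aemeasurable), hmean t ht]
  · -- no explosion
    have hb : ∀ (v : Lab) (t : ℝ), MeasurableSet {τ : Lab → ℝ | birth τ v ≤ t} := fun v t =>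
      measurableSet_le (measurable_birth v) measurable_const
    have hbound : ∀ (v : Lab) (t : ℝ), 0 ≤ t → ∫⁻ ω, ind (birth (T ω) v ≤ t) ∂P ≤
        ENNReal.ofReal (Real.exp (β * t)) * ∫⁻ ω, ind (v ∈ Alive (T ω) t) ∂P := by
      intro v t ht
      have key : (∫⁻ ω, ind (birth (T ω) v ≤ t) ∂P) * ENNReal.ofReal (Real.exp (-β * t)) ≤
          ∫⁻ ω, ind (v ∈ Alive (T ω) t) ∂P := by
        cases v with
        | nil =>
          have e1 : ∀ ω, ind (birth (T ω) [] ≤ t) = 1 := fun ω => ind_true (by simpa using ht)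
          have e2 : ∀ ω, ind ([] ∈ Alive (T ω) t) = ind (ω ∈ {ω | t < T ω []}) := by
            intro ω
            simp [mem_Alive, death, ht]
          simp_rw [e1, e2, ind_mem]
          rw [lintegral_indicator (measurableSet_lt measurable_const (hT.meas _))]
          simp [hT.law [] t ht]
        | cons x w =>
          have hφ : Measurable (fun y : ℝ × ℝ => ind (y.1 + y.2 ≤ t)) :=
            measurable_ind (s := {y : ℝ × ℝ | y.1 + y.2 ≤ t})
              (measurableSet_le (measurable_fst.add measurable_snd) measurable_const)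
          have hf : Measurable (fun y : (Lab → ℝ) × ℝ => ind (t < y.1 [])) :=
            measurable_ind (s := {y : (Lab → ℝ) × ℝ | t < y.1 []})
              (measurableSet_lt measurable_const ((measurable_pi_apply _).comp measurable_fst))
          have hbr := hBR Ω P β T hβ hT w x (fun y => ind (y.1 + y.2 ≤ t))
            (fun y => ind (t < y.1 [])) (fun _ => 1) hφ hf measurable_const
          have e3 : ∫⁻ ω', ind (t < T ω' []) ∂P = ENNReal.ofReal (Real.exp (-β * t)) := by
            have : ∀ ω, ind (t < T ω []) = ind (ω ∈ {ω | t < T ω []}) := fun ω => rfl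
            simp_rw [this, ind_mem]
            rw [lintegral_indicator (measurableSet_lt measurable_const (hT.meas _))]
            simp [hT.law [] t ht]
          simp only [e3, lintegral_const, measure_univ, mul_one] at hbr
          have hφ' : Measurable (fun ω => ind (birth (T ω) w + T ω w ≤ t)) :=
            hφ.comp (((measurable_birth w).comp hm).prodMk (hT.meas w))
          rw [lintegral_mul_const _ hφ'] at hbr
          have e4 : ∀ ω, ind (birth (T ω) (x :: w) ≤ t) = ind (birth (T ω) w + T ω w ≤ t) := by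
            intro ω; rfl
          simp_rw [e4]
          rw [← hbr]
          refine lintegral_mono fun ω => ?_
          by_cases h1 : birth (T ω) w + T ω w ≤ t
          · by_cases h2 : t < sh (x :: w) (T ω) []
            · rw [ind_true h1, ind_true h2, ind_true, one_mul]
              refine ⟨h1, ?_⟩
              have h3 : sh (x :: w) (T ω) [] = T ω (x :: w) := rfl
              rw [h3] at h2
              have h4 : 0 ≤ birth (T ω) (x :: w) := birth_nonneg (hT.pos ω) _
              simp only [death]; linarith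
            · rw [ind_false h2]; simp
          · rw [ind_false h1]; simp
      have h1 : ENNReal.ofReal (Real.exp (β * t)) * ENNReal.ofReal (Real.exp (-β * t)) = 1 := by
        rw [← ENNReal.ofReal_mul (Real.exp_pos _).le, ← Real.exp_add]; simp
      calc ∫⁻ ω, ind (birth (T ω) v ≤ t) ∂P
          = ENNReal.ofReal (Real.exp (β * t)) * ((∫⁻ ω, ind (birth (T ω) v ≤ t) ∂P) *
            ENNReal.ofReal (Real.exp (-β * t))) := by
            rw [mul_comm (∫⁻ ω, ind (birth (T ω) v ≤ t) ∂P), ← mul_assoc, h1, one_mul]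
        _ ≤ _ := mul_le_mul_right key _
    have hfin : ∀ n : ℕ, ∀ᵐ ω ∂P, ∑' v : Lab, ind (birth (T ω) v ≤ n) ≠ ∞ := by
      intro n
      have hbm : ∀ v : Lab, Measurable fun ω => ind (birth (T ω) v ≤ n) := fun v =>
        (measurable_ind (hb v n)).comp hm
      have h1 : ∫⁻ ω, ∑' v : Lab, ind (birth (T ω) v ≤ n) ∂P ≠ ∞ := by
        rw [lintegral_tsum fun v => (hbm v).aemeasurable]
        refine ne_top_of_le_ne_top ?_ (ENNReal.tsum_le_tsum fun v => hbound v n n.cast_nonneg)
        rw [ENNReal.tsum_mul_left, hmean n n.cast_nonneg]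
        exact ENNReal.mul_ne_top ENNReal.ofReal_ne_top ENNReal.ofReal_ne_top
      filter_upwards [ae_lt_top (Measurable.tsum fun v => hbm v) h1] with ω hω using hω.ne
    filter_upwards [ae_all_iff.mpr hfin] with ω hω
    refine ⟨hT.pos ω, fun t => ?_⟩
    obtain ⟨n, hn⟩ := exists_nat_ge t
    have h1 := ENNReal.finite_const_le_of_tsum_ne_top (hω n) (ε := 1) one_ne_zero
    refine h1.subset ?_
    intro v hv
    have : birth (T ω) v ≤ n := le_trans hv hn
    simp [ind_true this]

end Pool.Agent.helper23.HB
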