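import Pool.Agent.helper23.HB.CNT

open MeasureTheory ProbabilityTheory Set Filter Topology
open scoped ENNReal NNReal

namespace Pool.Agent.helper23.HB

/-- the lifetime of `w` is independent of its birth time -/
theorem indepT (hBR : St_BR) {Ω : Type} [MeasurableSpace Ω] {P : Measure Ω}
    [IsProbabilityMeasure P] {β : ℝ} (hβ : 0 < β) {T : Ω → Lab → ℝ} (hT : Life β P T) (w : Lab)
    {Ψ : ℝ × ℝ → ℝ≥0∞} (hΨ : Measurable Ψ) :
    ∫⁻ ω, Ψ (birth (T ω) w, T ω w) ∂P = ∫⁻ ω, ∫⁻ ω', Ψ (birth (T ω) w, T ω' []) ∂P ∂P := by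
  cases w with
  | nil => simp
  | cons x w =>
    have hf : Measurable (fun y : (Lab → ℝ) × ℝ => Ψ (y.2, y.1 [])) :=
      hΨ.comp (measurable_snd.prodMk ((measurable_pi_apply _).comp measurable_fst))
    have hbr := hBR Ω P β T hβ hT w x (fun _ => 1) (fun y => Ψ (y.2, y.1 []))
      (fun _ => 1) measurable_const hf measurable_const
    simp only [one_mul, lintegral_const, measure_univ, mul_one] at hbr
    exact hbr

theorem lintegral_shift (β : ℝ) {φ : ℝ → ℝ≥0∞} {b : ℝ} (hb : 0 ≤ b) :
    ∫⁻ r in Ioi (0 : ℝ), φ (b + r) * ENNReal.ofReal (β * Real.exp (-(β * r))) =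
      ∫⁻ r in Ioi (0 : ℝ), φ r * (ind (b ≤ r) *
        ENNReal.ofReal (β * Real.exp (-(β * (r - b))))) := by
  rw [← lintegral_indicator measurableSet_Ioi, ← lintegral_indicator measurableSet_Ioi]
  have h1 := lintegral_add_left_eq_self (μ := (volume : Measure ℝ))
    (fun y => (Ioi b).indicator
      (fun y => φ y * ENNReal.ofReal (β * Real.exp (-(β * (y - b))))) y) b
  have e1 : ∀ r : ℝ, (Ioi (0 : ℝ)).indicator
      (fun r => φ (b + r) * ENNReal.ofReal (β * Real.exp (-(β * r)))) r =
      (Ioi b).indicator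
      (fun y => φ y * ENNReal.ofReal (β * Real.exp (-(β * (y - b))))) (b + r) := by
    intro r
    by_cases hr : 0 < r
    · rw [indicator_of_mem (by exact hr : r ∈ Ioi (0 : ℝ)),
        indicator_of_mem (by simp only [mem_Ioi]; linarith)]
      congr 5; ring
    · rw [indicator_of_notMem (by simpa using hr), indicator_of_notMem]
      simp only [mem_Ioi, not_lt] at hr ⊢; linarith
  simp_rw [e1]
  rw [h1]
  have h0 : ∀ᵐ r : ℝ, r ≠ b := by rw [ae_iff]; simp
  refine lintegral_congr_ae ?_
  filter_upwards [h0] with r hr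
  rcases lt_or_gt_of_ne hr with h | h
  · rw [indicator_of_notMem (by simpa using h.le)]
    by_cases h2 : r ∈ Ioi (0 : ℝ)
    · rw [indicator_of_mem h2, ind_false (by linarith), zero_mul, mul_zero]
    · rw [indicator_of_notMem h2]
  · rw [indicator_of_mem (by exact h : r ∈ Ioi b),
      indicator_of_mem (by exact lt_of_le_of_lt hb h : r ∈ Ioi (0 : ℝ)), ind_true h.le, one_mul]

theorem lintegral_death (hBR : St_BR) {Ω : Type} [MeasurableSpace Ω] {P : Measure Ω}
    [IsProbabilityMeasure P] {β : ℝ} (hβ : 0 < β) {T : Ω → Lab → ℝ} (hT : Life β P T) (w : Lab)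
    {φ : ℝ → ℝ≥0∞} (hφ : Measurable φ) :
    ∫⁻ ω, φ (death (T ω) w) ∂P =
      ∫⁻ r in Ioi (0 : ℝ), φ r * (ENNReal.ofReal β * ∫⁻ ω, ind (w ∈ Alive (T ω) r) ∂P) := by
  have hm : Measurable T := measurable_pi_lambda _ hT.meas
  have hmb : Measurable (fun ω => birth (T ω) w) := (measurable_birth w).comp hm
  have e1 : ∫⁻ ω, φ (death (T ω) w) ∂P = ∫⁻ ω, ∫⁻ ω', φ (birth (T ω) w + T ω' []) ∂P ∂P :=
    indepT hBR hβ hT w (Ψ := fun y => φ (y.1 + y.2)) (hφ.comp (measurable_fst.add measurable_snd))
  have e2 : ∀ ω, ∫⁻ ω', φ (birth (T ω) w + T ω' []) ∂P =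
      ∫⁻ r in Ioi (0 : ℝ), φ r * (ind (birth (T ω) w ≤ r) *
        ENNReal.ofReal (β * Real.exp (-(β * (r - birth (T ω) w))))) := by
    intro ω
    rw [life_lintegral hβ hT [] (φ := fun r => φ (birth (T ω) w + r))
      (hφ.comp (measurable_const.add measurable_id))]
    exact lintegral_shift β (birth_nonneg (hT.pos ω) w)
  simp_rw [e1, e2]
  have hmeas : Measurable (fun x : Ω × ℝ => φ x.2 * (ind (birth (T x.1) w ≤ x.2) *
        ENNReal.ofReal (β * Real.exp (-(β * (x.2 - birth (T x.1) w)))))) := by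
    refine (hφ.comp measurable_snd).mul ((measurable_ind
      (s := {x : Ω × ℝ | birth (T x.1) w ≤ x.2}) ?_).mul ?_)
    · exact measurableSet_le (hmb.comp measurable_fst) measurable_snd
    · refine ENNReal.measurable_ofReal.comp (measurable_const.mul
        (Real.measurable_exp.comp ?_))
      exact (measurable_const.mul (measurable_snd.sub (hmb.comp measurable_fst))).neg
  rw [lintegral_lintegral_swap hmeas.aemeasurable]
  refine setLIntegral_congr_fun measurableSet_Ioi fun r hr => ?_
  have hr0 : (0 : ℝ) < r := hr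
  have hmeas2 : Measurable (fun ω => ind (birth (T ω) w ≤ r) *
        ENNReal.ofReal (β * Real.exp (-(β * (r - birth (T ω) w))))) := by
    refine (measurable_ind (s := {ω | birth (T ω) w ≤ r}) ?_).mul ?_
    · exact measurableSet_le hmb measurable_const
    · refine ENNReal.measurable_ofReal.comp (measurable_const.mul
        (Real.measurable_exp.comp ?_))
      exact (measurable_const.mul (measurable_const.sub hmb)).neg
  rw [lintegral_const_mul _ hmeas2]
  congr 1
  -- the probability that `w` is alive at time `r`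
  have hΨ : Measurable (fun y : ℝ × ℝ => ind (y.1 ≤ r ∧ r < y.1 + y.2)) :=
    measurable_ind (s := {y : ℝ × ℝ | y.1 ≤ r ∧ r < y.1 + y.2})
      ((measurableSet_le measurable_fst measurable_const).inter
        (measurableSet_lt measurable_const (measurable_fst.add measurable_snd)))
  have e3 : ∫⁻ ω, ind (w ∈ Alive (T ω) r) ∂P =
      ∫⁻ ω, ∫⁻ ω', ind (birth (T ω) w ≤ r ∧ r < birth (T ω) w + T ω' []) ∂P ∂P :=
    indepT hBR hβ hT w hΨ
  rw [e3, ← lintegral_const_mul]
  · refine lintegral_congr fun ω => ?_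
    by_cases hb : birth (T ω) w ≤ r
    · rw [ind_true hb, one_mul]
      have e4 : ∀ ω', ind (birth (T ω) w ≤ r ∧ r < birth (T ω) w + T ω' []) =
          ind (ω' ∈ {ω' | r - birth (T ω) w < T ω' []}) := by
        intro ω'
        congr 1
        simp only [hb, true_and, mem_ofPred_eq, eq_iff_iff]
        constructor <;> intro h <;> linarith
      simp_rw [e4, ind_mem]
      rw [lintegral_indicator (measurableSet_lt measurable_const (hT.meas _)), setLIntegral_one,
        hT.law [] _ (by linarith), ← ENNReal.ofReal_mul hβ.le]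
      congr 3; ring
    · rw [ind_false hb]
      simp [hb]
  · have : Measurable (fun x : Ω × Ω => ind (birth (T x.1) w ≤ r ∧
        r < birth (T x.1) w + T x.2 [])) :=
      hΨ.comp ((hmb.comp measurable_fst).prodMk ((hT.meas []).comp measurable_snd))
    exact this.lintegral_prod_right'

theorem mDTH (hBR : St_BR) (hCNT : St_CNT) : St_DTH := by
  intro Ω _ P _ β T hβ hT φ hφ
  have hm : Measurable T := measurable_pi_lambda _ hT.meas
  simp_rw [fun w => lintegral_death hBR hβ hT w hφ]
  have hmw : ∀ w : Lab, Measurable (fun r : ℝ => ∫⁻ ω, ind (w ∈ Alive (T ω) r) ∂P) := by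
    intro w
    have : Measurable (fun x : ℝ × Ω => ind (w ∈ Alive (T x.2) x.1)) :=
      (measurable_ind_Alive w).comp ((hm.comp measurable_snd).prodMk measurable_fst)
    exact this.lintegral_prod_right'
  rw [← lintegral_tsum]
  · refine setLIntegral_congr_fun measurableSet_Ioi fun r hr => ?_
    have hr0 : (0 : ℝ) < r := hr
    rw [ENNReal.tsum_mul_left, ENNReal.tsum_mul_left, ENNReal.ofReal_mul hβ.le]
    congr 2
    have h1 := (hCNT Ω P β T hβ hT).1 r hr0.le
    rw [← h1]
    unfold cnt
    rw [lintegral_tsum]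
    intro v
    exact ((measurable_ind (measurableSet_Alive_left v r)).comp hm).aemeasurable
  · intro w
    exact (hφ.mul ((hmw w).const_mul _)).aemeasurable

end Pool.Agent.helper23.HB
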