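import Mathlib

/-!
# Hyperbolic branching Brownian motion with radial drift : definitions

Labels of particles are words over `Bool`; the children of `u` are `false :: u`, `true :: u`;
the ancestors of `v` are the suffixes of `v`.
-/

open MeasureTheory ProbabilityTheory Set Filter Topology
open scoped ENNReal NNReal

namespace Pool.Agent.helper23.HB

/-- labels of particles -/
abbrev Lab := List Bool

/-! ## the tree -/

/-- birth time of the particle `u`, given all lifetimes -/
def birth (τ : Lab → ℝ) : Lab → ℝ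
  | [] => 0
  | _ :: u => birth τ u + τ u

/-- death (= splitting) time of the particle `u` -/
def death (τ : Lab → ℝ) (u : Lab) : ℝ := birth τ u + τ u

/-- particles alive at time `t` -/
def Alive (τ : Lab → ℝ) (t : ℝ) : Set Lab := {u | birth τ u ≤ t ∧ t < death τ u}

/-- the family seen from the particle `u` (the subtree of `u`) -/
def sh {α : Type*} (u : Lab) (f : Lab → α) : Lab → α := fun p => f (p ++ u)

/-- no explosion (deterministic) -/
def NE (τ : Lab → ℝ) : Prop := (∀ u, 0 < τ u) ∧ ∀ t : ℝ, {u | birth τ u ≤ t}.Finite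

/-- the ancestor (or self) of `v` at time `s` -/
noncomputable def anc (τ : Lab → ℝ) (s : ℝ) : Lab → Lab
  | [] => []
  | x :: u => if death τ u ≤ s then x :: u else anc τ s u

open Classical in
/-- indicator of a proposition with values in `[0, ∞]` -/
noncomputable def ind (p : Prop) : ℝ≥0∞ := if p then 1 else 0

/-- number of particles alive at time `t` -/
noncomputable def cnt (τ : Lab → ℝ) (t : ℝ) : ℝ≥0∞ := ∑' v : Lab, ind (v ∈ Alive τ t)

/-- normalised number of particles alive at time `t` -/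
noncomputable def Xt (β : ℝ) (τ : Lab → ℝ) (t : ℝ) : ℝ≥0∞ :=
  ENNReal.ofReal (Real.exp (-β * t)) * cnt τ t

/-- (a bound of) the supremum over all times of the normalised number of particles -/
noncomputable def Ms (β : ℝ) (τ : Lab → ℝ) : ℝ≥0∞ :=
  ENNReal.ofReal (Real.exp β) * ⨆ n : ℕ, Xt β τ n

/-- weight of the particle `u` (it bounds the normalised number of its descendants) -/
noncomputable def wt (β : ℝ) (τ : Lab → ℝ) (u : Lab) : ℝ≥0∞ :=
  1 + Ms β (sh (false :: u) τ) + Ms β (sh (true :: u) τ)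

/-- a pair of particles whose last common ancestor is `w`: `(w, x, p, q)` stands for the pair
`p ++ x :: w`, `q ++ (!x) :: w` -/
abbrev Quad := Lab × Bool × Lab × Lab

/-- first particle of the pair -/
def qu (z : Quad) : Lab := z.2.2.1 ++ z.2.1 :: z.1

/-- second particle of the pair -/
def qv (z : Quad) : Lab := z.2.2.2 ++ (!z.2.1) :: z.1

/-! ## noise -/

/-- continuous real paths which vanish on the negative half line, with the sigma-algebra generated
by the evaluations (the sigma-algebra of the subtype of `ℝ → ℝ`) -/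
abbrev Pth : Type := {f : ℝ → ℝ // Continuous f ∧ ∀ t, t ≤ 0 → f t = 0}

instance : CoeFun Pth (fun _ => ℝ → ℝ) := ⟨Subtype.val⟩

/-- noise along the ancestral line of `v` -/
noncomputable def line (τ : Lab → ℝ) (b : Lab → Pth) : Lab → ℝ → ℝ
  | [], t => b [] t
  | x :: u, t => line τ b u (min t (death τ u)) + b (x :: u) (t - death τ u)

/-- increment of `X` over the `k`-th block of length `h`, and maximal displacement in this block -/
noncomputable def blk (h : ℝ) (X : ℝ → ℝ) (k : ℕ) : ℝ × ℝ :=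
  (X (k * h + h) - X (k * h), ⨆ r : Icc (0 : ℝ) h, |X (k * h + r) - X (k * h)|)

/-- `B` is a family of independent Brownian motions indexed by the labels -/
structure Noise {Ω : Type} [MeasurableSpace Ω] (P : Measure Ω) (B : Ω → Lab → Pth) : Prop where
  meas : ∀ u, Measurable (fun ω => B ω u)
  bm : ∀ u, IsPreBrownianReal (fun (t : ℝ≥0) ω => (B ω u : ℝ → ℝ) (t : ℝ)) P
  indep : iIndepFun (fun u ω => B ω u) P

/-- `T` is a family of independent exponential variables of rate `β` indexed by the labels -/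
structure Life {Ω : Type} [MeasurableSpace Ω] (β : ℝ) (P : Measure Ω) (T : Ω → Lab → ℝ) :
    Prop where
  pos : ∀ ω u, 0 < T ω u
  meas : ∀ u, Measurable (fun ω => T ω u)
  law : ∀ u (t : ℝ), 0 ≤ t → P {ω | t < T ω u} = ENNReal.ofReal (Real.exp (-β * t))
  indep : iIndepFun (fun u ω => T ω u) P

/-! ## radial and angular parts -/

/-- radial drift `coth(r)/2 + λ` -/
noncomputable def drift (lam r : ℝ) : ℝ := Real.cosh r / (2 * Real.sinh r) + lam

/-- `r` solves the radial equation driven by the path `X` -/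
structure RSol (lam : ℝ) (X r : ℝ → ℝ) : Prop where
  pos : ∀ t, 0 ≤ t → 0 < r t
  cont : ContinuousOn r (Ici 0)
  eqn : ∀ s t, 0 ≤ s → s ≤ t →
    r t = r s + (X t - X s) + ∫ y in s..t, drift lam (r y)

/-- clock of the angular part -/
noncomputable def clk (r : ℝ → ℝ) (t : ℝ) : ℝ := ∫ y in (0 : ℝ)..t, 1 / (Real.sinh (r y)) ^ 2

/-- angular lifetimes -/
noncomputable def sig (τ : Lab → ℝ) (R : Lab → ℝ → ℝ) (u : Lab) : ℝ :=
  clk (R u) (death τ u) - clk (R u) (birth τ u)

/-- angular coordinate along the line of `u` at time `t` -/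
noncomputable def ang (θ0 : ℝ) (τ : Lab → ℝ) (R : Lab → ℝ → ℝ) (w : Lab → Pth) (u : Lab)
    (t : ℝ) : ℝ := θ0 + line (sig τ R) w u (clk (R u) t)

/-- point of the unit circle with angle `x` -/
noncomputable def cis (x : ℝ) : ℂ := Complex.exp (x * Complex.I)

/-- A hyperbolic branching Brownian motion with radial drift started at a point different from the
origin, in polar coordinates: `R ω u t` is the radial coordinate at the absolute time `t` along the
ancestral line of `u`. `mR` is a sigma-algebra containing all radial information. -/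
structure Sys (β lam : ℝ) {Ω : Type} [mΩ : MeasurableSpace Ω] (P : Measure Ω) where
  T : Ω → Lab → ℝ
  B : Ω → Lab → Pth
  W : Ω → Lab → Pth
  ρ0 : Ω → ℝ
  θ0 : Ω → ℝ
  R : Ω → Lab → ℝ → ℝ
  life : Life β P T
  noiseB : Noise P B
  noiseW : Noise P W
  indepTB : IndepFun T B P
  start : ∀ ω u, R ω u 0 = ρ0 ω
  rad : ∀ ω u, RSol lam (line (T ω) (B ω) u) (R ω u)
  old : ∀ ω x u t, 0 ≤ t → t ≤ death (T ω) u → R ω (x :: u) t = R ω u t
  mR : MeasurableSpace Ω
  mR_le : mR ≤ mΩ
  measT : ∀ u, Measurable[mR] (fun ω => T ω u)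
  measB : ∀ u, Measurable[mR] (fun ω => B ω u)
  measρ : Measurable[mR] ρ0
  measθ : Measurable[mR] θ0
  measR : ∀ u t, 0 ≤ t → Measurable[mR] (fun ω => R ω u t)
  indepW : Indep mR (MeasurableSpace.comap W inferInstance) P

namespace Sys

variable {β lam : ℝ} {Ω : Type} [mΩ : MeasurableSpace Ω] {P : Measure Ω}

/-- angular coordinate -/
noncomputable def Th (S : Sys β lam P) (ω : Ω) (u : Lab) (t : ℝ) : ℝ :=
  ang (S.θ0 ω) (S.T ω) (S.R ω) (S.W ω) u t

/-- direction -/
noncomputable def D (S : Sys β lam P) (ω : Ω) (u : Lab) (t : ℝ) : ℂ := cis (S.Th ω u t)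

/-- position in the unit disc -/
noncomputable def Z (S : Sys β lam P) (ω : Ω) (u : Lab) (t : ℝ) : ℂ :=
  (Real.tanh (S.R ω u t / 2) : ℂ) * S.D ω u t

/-- oscillation of the angle along the line of `u` in the time interval `[m, m+1]` (at most 2) -/
noncomputable def osc (S : Sys β lam P) (ω : Ω) (u : Lab) (m : ℕ) : ℝ :=
  min 2 (⨆ r : Icc (0 : ℝ) 1, |S.Th ω u (m + r) - S.Th ω u m|)

end Sys

/-! ## limit objects -/

/-- the limit set -/
def LSet (τ : Lab → ℝ) (Z : Lab → ℝ → ℂ) : Set ℂ :=
  {ζ | ‖ζ‖ = 1 ∧ ∃ (t : ℕ → ℝ) (u : ℕ → Lab), Tendsto t atTop atTop ∧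
    (∀ n, u n ∈ Alive τ (t n)) ∧ Tendsto (fun n => Z (u n) (t n)) atTop (𝓝 ζ)}

/-- average of `F` over the particles alive at time `t` -/
noncomputable def avg (τ : Lab → ℝ) (t : ℝ) (F : Lab → ℝ) : ℝ :=
  ((Alive τ t).ncard : ℝ)⁻¹ * ∑ᶠ v ∈ Alive τ t, F v

/-- the unit circle -/
abbrev circ : Set ℂ := Metric.sphere (0 : ℂ) 1

/-- dimension of a measure on the circle -/
noncomputable def dimM (μ : Measure ℂ) : ℝ≥0∞ :=
  ⨅ (A : Set ℂ) (_ : MeasurableSet A) (_ : A ⊆ circ) (_ : μ (circ \ A) = 0), dimH A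

/-- the constant of the upper formula -/
noncomputable def lamDim (β lam : ℝ) : ℝ :=
  if β ≤ (1 + 2 * lam) ^ 2 / 8 then
    min ((1 + 2 * lam - √((1 + 2 * lam) ^ 2 - 8 * β)) / 2) 1
  else 1

/-! ## block functionals -/

/-- reflected walk -/
noncomputable def Yk (c : ℝ) (x : ℕ → ℝ × ℝ) : ℕ → ℝ
  | 0 => 0
  | k + 1 => max (Yk c x k + (x k).1 + c) 0

end Pool.Agent.helper23.HB
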