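import Pool.Agent.helper23.HB.Stmts

/-! expectations of functions of one exponential lifetime -/

open MeasureTheory ProbabilityTheory Set Filter Topology
open scoped ENNReal NNReal

namespace Pool.Agent.helper23.HB

theorem life_map_eq {Ω : Type} [MeasurableSpace Ω] {P : Measure Ω} [IsProbabilityMeasure P]
    {β : ℝ} (hβ : 0 < β) {T : Ω → Lab → ℝ} (hT : Life β P T) (u : Lab) :
    P.map (fun ω => T ω u) = expMeasure β := by
  haveI := isProbabilityMeasure_expMeasure hβ
  haveI : IsProbabilityMeasure (P.map fun ω => T ω u) :=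
    Measure.isProbabilityMeasure_map (hT.meas u).aemeasurable
  apply Measure.eq_of_cdf
  ext x
  rw [cdf_expMeasure_eq hβ, cdf_eq_real, map_measureReal_apply (hT.meas u) measurableSet_Iic]
  have h1 : (fun ω => T ω u) ⁻¹' (Iic x) = {ω | x < T ω u}ᶜ := by ext; simp
  have hmeas : MeasurableSet {ω | x < T ω u} := measurableSet_lt measurable_const (hT.meas u)
  rw [h1, probReal_compl_eq_one_sub hmeas]
  split_ifs with hx
  · rw [measureReal_def, hT.law u x hx, ENNReal.toReal_ofReal (Real.exp_pos _).le]
    congr 2; ring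
  · have : {ω | x < T ω u} = univ := by
      ext ω; simp only [mem_ofPred_eq, mem_univ, iff_true]
      exact (not_le.mp hx).trans (hT.pos ω u)
    rw [this]; simp

/-- expectation of a function of a lifetime -/
theorem life_lintegral {Ω : Type} [MeasurableSpace Ω] {P : Measure Ω} [IsProbabilityMeasure P]
    {β : ℝ} (hβ : 0 < β) {T : Ω → Lab → ℝ} (hT : Life β P T) (u : Lab) {φ : ℝ → ℝ≥0∞}
    (hφ : Measurable φ) :
    ∫⁻ ω, φ (T ω u) ∂P =
      ∫⁻ r in Ioi (0 : ℝ), φ r * ENNReal.ofReal (β * Real.exp (-(β * r))) := by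
  have h1 : ∫⁻ ω, φ (T ω u) ∂P = ∫⁻ r, φ r ∂(expMeasure β) := by
    rw [← life_map_eq hβ hT u, lintegral_map hφ (hT.meas u)]
  have h2 : expMeasure β = volume.withDensity (exponentialPDF β) := rfl
  have hm : Measurable (exponentialPDF β) := (measurable_exponentialPDFReal β).ennreal_ofReal
  rw [h1, h2, lintegral_withDensity_eq_lintegral_mul _ hm hφ,
    ← lintegral_indicator measurableSet_Ioi]
  have h0 : ∀ᵐ r : ℝ, r ≠ 0 := by
    rw [ae_iff]; simp
  refine lintegral_congr_ae ?_
  filter_upwards [h0] with r hr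
  rcases lt_or_gt_of_ne hr with h | h
  · rw [indicator_of_notMem (by simpa using h.le)]
    simp [exponentialPDF_of_neg h]
  · rw [indicator_of_mem (by simpa using h)]
    rw [Pi.mul_apply, exponentialPDF_of_nonneg h.le, mul_comm]

end Pool.Agent.helper23.HB
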