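import Pool.Agent.helper23.HB.Stmts

open MeasureTheory ProbabilityTheory Set Filter Topology
open scoped ENNReal NNReal

namespace Pool.Agent.helper23.HB

theorem mIND : St_IND := by
  intro Ω _ P _ E _ X hX hind κ A hA
  -- sigma type
  set f : (Σ i : κ, A i) → Lab := fun p => (p.2 : Lab) with hf
  have hinj : Function.Injective f := by
    rintro ⟨i, u, hu⟩ ⟨j, v, hv⟩ h
    simp only [hf] at h
    subst h
    by_cases hij : i = j
    · subst hij; rfl
    · exact absurd hv ((Set.disjoint_left.mp (hA hij)) hu)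
  have h1 : iIndepFun (fun (p : Σ i : κ, A i) ω => X ω (f p)) P := hind.precomp hinj
  have hm : ∀ (p : Σ i : κ, A i), Measurable fun ω => X ω (f p) := fun p => hX _
  have h2 : ∀ i, iIndepFun (fun (u : A i) ω => X ω u) P := fun i =>
    hind.precomp (g := fun u : A i => (u : Lab)) Subtype.val_injective
  have hmi : ∀ i, Measurable (fun ω (u : A i) => X ω u) := fun i =>
    measurable_pi_lambda _ fun u => hX _
  haveI : ∀ u, IsProbabilityMeasure (P.map fun ω => X ω u) := fun u =>
    Measure.isProbabilityMeasure_map (hX u).aemeasurable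
  haveI : ∀ i, IsProbabilityMeasure (P.map fun ω (u : A i) => X ω u) := fun i =>
    Measure.isProbabilityMeasure_map (hmi i).aemeasurable
  rw [iIndepFun_iff_map_fun_eq_infinitePi_map hmi]
  have e1 : (fun ω (i : κ) (u : A i) => X ω u) =
      (MeasurableEquiv.piCurry (fun (i : κ) (_ : A i) => E)) ∘ (fun ω p => X ω (f p)) := by
    funext ω i u; simp [Sigma.curry, hf]
  rw [e1, ← Measure.map_map (by fun_prop) (measurable_pi_lambda _ hm),
    (iIndepFun_iff_map_fun_eq_infinitePi_map hm).1 h1]
  have e2 := Measure.infinitePi_map_piCurry (X := fun (i : κ) (_ : A i) => E)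
    (fun (i : κ) (u : A i) => P.map fun ω => X ω u)
  rw [show (fun p : (Σ i : κ, A i) => P.map fun ω => X ω (f p)) =
    (fun p : (Σ i : κ, A i) => P.map fun ω => X ω p.2) from rfl, e2]
  congr 1
  funext i
  exact ((iIndepFun_iff_map_fun_eq_infinitePi_map (fun u : A i => hX u)).1 (h2 i)).symm

end Pool.Agent.helper23.HB
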