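import Pool.Agent.helper23.HB.Basic

/-!
# Hyperbolic branching Brownian motion : measurability
-/

open MeasureTheory ProbabilityTheory Set Filter Topology
open scoped ENNReal NNReal

namespace Pool.Agent.helper23.HB

theorem measurable_birth (v : Lab) : Measurable (fun τ : Lab → ℝ => birth τ v) := by
  induction v with
  | nil => exact measurable_const
  | cons x u ih => exact ih.add (measurable_pi_apply u)

theorem measurable_death (v : Lab) : Measurable (fun τ : Lab → ℝ => death τ v) :=
  (measurable_birth v).add (measurable_pi_apply v)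

theorem measurable_sh {α : Type*} [MeasurableSpace α] (u : Lab) :
    Measurable (fun f : Lab → α => sh u f) :=
  measurable_pi_lambda _ fun p => measurable_pi_apply (p ++ u)

theorem measurableSet_Alive (v : Lab) :
    MeasurableSet {x : (Lab → ℝ) × ℝ | v ∈ Alive x.1 x.2} := by
  have h1 : MeasurableSet {x : (Lab → ℝ) × ℝ | birth x.1 v ≤ x.2} :=
    measurableSet_le ((measurable_birth v).comp measurable_fst) measurable_snd
  have h2 : MeasurableSet {x : (Lab → ℝ) × ℝ | x.2 < death x.1 v} :=
    measurableSet_lt measurable_snd ((measurable_death v).comp measurable_fst)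
  exact h1.inter h2

theorem measurableSet_Alive_left (v : Lab) (t : ℝ) :
    MeasurableSet {τ : Lab → ℝ | v ∈ Alive τ t} :=
  (measurable_id.prodMk measurable_const : Measurable fun τ : Lab → ℝ => (τ, t))
    (measurableSet_Alive v)

theorem measurable_cnt : Measurable (fun x : (Lab → ℝ) × ℝ => cnt x.1 x.2) :=
  Measurable.tsum fun v => measurable_ind (measurableSet_Alive v)

theorem measurable_cnt_left (t : ℝ) : Measurable (fun τ : Lab → ℝ => cnt τ t) :=
  measurable_cnt.comp (measurable_id.prodMk measurable_const)

theorem measurable_Xt (β t : ℝ) : Measurable (fun τ : Lab → ℝ => Xt β τ t) :=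
  (measurable_cnt_left t).const_mul _

theorem measurable_Ms (β : ℝ) : Measurable (fun τ : Lab → ℝ => Ms β τ) :=
  (Measurable.iSup fun n : ℕ => measurable_Xt β (n : ℝ)).const_mul _

theorem measurable_wt (β : ℝ) (u : Lab) : Measurable (fun τ : Lab → ℝ => wt β τ u) :=
  (measurable_const.add ((measurable_Ms β).comp (measurable_sh _))).add
    ((measurable_Ms β).comp (measurable_sh _))

/-! ## paths -/

theorem measurable_pth_apply (t : ℝ) : Measurable (fun b : Pth => (b : ℝ → ℝ) t) :=
  (measurable_pi_apply t).comp measurable_subtype_coe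

/-- evaluation of a path at a variable time -/
theorem measurable_pth_eval : Measurable (fun x : Pth × ℝ => (x.1 : ℝ → ℝ) x.2) := by
  have h : Measurable (Function.uncurry fun (t : ℝ) (b : Pth) => (b : ℝ → ℝ) t) :=
    measurable_uncurry_of_continuous_of_measurable (fun b => b.continuous) measurable_pth_apply
  exact h.comp measurable_swap

/-- a map into the space of paths is measurable if all evaluations are -/
theorem measurable_to_pth {α : Type*} [MeasurableSpace α] {f : α → Pth}
    (h : ∀ t : ℝ, Measurable (fun a => (f a : ℝ → ℝ) t)) : Measurable f :=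
  Measurable.subtype_mk (measurable_pi_lambda _ h)

theorem measurable_line (v : Lab) :
    Measurable (fun x : ((Lab → ℝ) × (Lab → Pth)) × ℝ => line x.1.1 x.1.2 v x.2) := by
  induction v with
  | nil =>
    simp only [line_nil]
    have : Measurable (fun x : ((Lab → ℝ) × (Lab → Pth)) × ℝ => (x.1.2 [], x.2)) :=
      ((measurable_pi_apply _).comp (measurable_snd.comp measurable_fst)).prodMk measurable_snd
    exact measurable_pth_eval.comp this
  | cons x u ih =>
    simp only [line_cons]
    have hd : Measurable (fun x : ((Lab → ℝ) × (Lab → Pth)) × ℝ => death x.1.1 u) :=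
      (measurable_death u).comp (measurable_fst.comp measurable_fst)
    refine Measurable.add ?_ ?_
    · have : Measurable (fun x : ((Lab → ℝ) × (Lab → Pth)) × ℝ =>
        (x.1, min x.2 (death x.1.1 u))) := measurable_fst.prodMk (measurable_snd.min hd)
      exact ih.comp this
    · have : Measurable (fun y : ((Lab → ℝ) × (Lab → Pth)) × ℝ =>
        (y.1.2 (x :: u), y.2 - death y.1.1 u)) :=
        ((measurable_pi_apply _).comp (measurable_snd.comp measurable_fst)).prodMk
          (measurable_snd.sub hd)
      exact measurable_pth_eval.comp this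

theorem measurable_line_left (v : Lab) (t : ℝ) :
    Measurable (fun x : (Lab → ℝ) × (Lab → Pth) => line x.1 x.2 v t) :=
  (measurable_line v).comp (measurable_id.prodMk measurable_const)

/-! ## suprema of continuous functions -/

theorem iSup_eq_iSup_dense {α : Type*} [TopologicalSpace α] [TopologicalSpace.SeparableSpace α]
    [Nonempty α] {g : α → ℝ} (hg : Continuous g) (hb : BddAbove (range g)) :
    ⨆ r, g r = ⨆ n : ℕ, g (TopologicalSpace.denseSeq α n) := by
  have hb' : BddAbove (range fun n : ℕ => g (TopologicalSpace.denseSeq α n)) :=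
    hb.mono (by rintro _ ⟨n, rfl⟩; exact ⟨_, rfl⟩)
  apply le_antisymm
  · apply ciSup_le
    intro r
    have hcl : IsClosed {r | g r ≤ ⨆ n : ℕ, g (TopologicalSpace.denseSeq α n)} :=
      isClosed_le hg continuous_const
    have h1 : Dense {r | g r ≤ ⨆ n : ℕ, g (TopologicalSpace.denseSeq α n)} := by
      refine (TopologicalSpace.denseRange_denseSeq α).mono ?_
      rintro _ ⟨n, rfl⟩
      exact le_ciSup hb' n
    have h2 := h1.closure_eq
    rw [hcl.closure_eq] at h2
    have : r ∈ {r | g r ≤ ⨆ n : ℕ, g (TopologicalSpace.denseSeq α n)} := by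
      rw [h2]; exact mem_univ r
    exact this
  · apply ciSup_le
    intro n
    exact le_ciSup hb _

/-- supremum over a compact interval of a family of continuous functions -/
theorem measurable_iSup_Icc {α : Type*} [MeasurableSpace α] (a b : ℝ) {g : α → ℝ → ℝ}
    (hg : ∀ x, Continuous (g x)) (hm : ∀ t, Measurable (fun x => g x t)) :
    Measurable (fun x => ⨆ r : Icc a b, g x r) := by
  rcases isEmpty_or_nonempty (Icc a b) with he | he
  · simp only [Real.iSup_of_isEmpty]; exact measurable_const
  · have h1 : ∀ x, ⨆ r : Icc a b, g x r =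
        ⨆ n : ℕ, g x ((TopologicalSpace.denseSeq (Icc a b) n : Icc a b) : ℝ) := by
      intro x
      have hc : Continuous fun r : Icc a b => g x r := (hg x).comp continuous_subtype_val
      exact iSup_eq_iSup_dense hc (isCompact_range hc).bddAbove
    simp_rw [h1]
    exact Measurable.iSup fun n => hm _

theorem measurable_blk {α : Type*} [MeasurableSpace α] (h : ℝ) {X : α → ℝ → ℝ}
    (hX : ∀ x, Continuous (X x)) (hm : ∀ t, Measurable (fun x => X x t)) :
    Measurable (fun x => blk h (X x)) := by
  refine measurable_pi_lambda _ fun k => ?_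
  refine Measurable.prodMk ((hm _).sub (hm _)) ?_
  refine measurable_iSup_Icc 0 h (g := fun x r => |X x (k * h + r) - X x (k * h)|) ?_ ?_
  · intro x
    exact (((hX x).comp (continuous_const.add continuous_id)).sub continuous_const).abs
  · intro t
    exact ((hm _).sub (hm _)).abs

theorem measurable_blk_line (h : ℝ) (v : Lab) :
    Measurable (fun x : (Lab → ℝ) × (Lab → Pth) => blk h (line x.1 x.2 v)) :=
  measurable_blk h (fun x => line_continuous _ _ v) (measurable_line_left v)

theorem measurable_blk_pth (h : ℝ) : Measurable (fun b : Pth => blk h (b : ℝ → ℝ)) :=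
  measurable_blk h (fun b => b.continuous) measurable_pth_apply

theorem measurable_Yk (c : ℝ) (m : ℕ) : Measurable (fun x : ℕ → ℝ × ℝ => Yk c x m) := by
  induction m with
  | zero => exact measurable_const
  | succ k ih =>
    exact ((ih.add (measurable_fst.comp (measurable_pi_apply k))).add_const c).max measurable_const

/-- the block supremum bounds all displacements in the block -/
theorem abs_sub_le_blk {X : ℝ → ℝ} (hX : Continuous X) (h : ℝ) (k : ℕ) {r : ℝ} (h0 : 0 ≤ r)
    (h1 : r ≤ h) : |X (k * h + r) - X (k * h)| ≤ (blk h X k).2 := by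
  have hc : Continuous fun r : Icc (0 : ℝ) h => |X (k * h + r) - X (k * h)| :=
    (((hX.comp (continuous_const.add continuous_subtype_val)).sub continuous_const)).abs
  exact le_ciSup (isCompact_range hc).bddAbove (⟨r, h0, h1⟩ : Icc (0 : ℝ) h)

theorem blk_snd_nonneg (h : ℝ) (X : ℝ → ℝ) (k : ℕ) : 0 ≤ (blk h X k).2 :=
  Real.iSup_nonneg fun _ => abs_nonneg _

end Pool.Agent.helper23.HB
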