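import Pool.Agent.helper23.HB.Basic

/-!
# Hyperbolic branching Brownian motion with radial drift, started at the origin : the model

`ρ u s ω`, `θ u s ω` are the hyperbolic polar coordinates of the particle `u` at age `s ≥ 0`
(the diffusion of the particle is run for ever, the particle uses it only until its lifetime
`T u ω` is over, when it is replaced by its two children `false :: u`, `true :: u`).
The generator of the motion is `Δ/2 + λ ∂_ρ`; in polar coordinates the radial part solves
`dρ = dB + (coth ρ / 2 + λ) dt`, and, given the radial part, the angle is a Brownian motion run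
with the clock `∫ dt / sinh² ρ`.
-/

open MeasureTheory ProbabilityTheory Set Filter Topology
open scoped ENNReal NNReal

namespace Pool.Agent.helper23.HB

/-- Hyperbolic branching Brownian motion with branching rate `β` and radial drift `lam`, started
from one particle at the origin of the hyperbolic disc. -/
structure HBBM {Ω : Type} [MeasurableSpace Ω] (β lam : ℝ) (P : Measure Ω)
    (T : Lab → Ω → ℝ) (B W : Lab → ℝ≥0 → Ω → ℝ) (ρ θ : Lab → ℝ → Ω → ℝ) : Prop where
  /-- the lifetimes are independent exponential variables of rate `β` -/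
  T_pos : ∀ u ω, 0 < T u ω
  T_meas : ∀ u, Measurable (T u)
  T_law : ∀ u (t : ℝ), 0 ≤ t → P {ω | t < T u ω} = ENNReal.ofReal (Real.exp (-β * t))
  T_indep : iIndepFun T P
  /-- the radial noises are independent Brownian motions, independent of the lifetimes -/
  B_meas : ∀ u t, Measurable (B u t)
  B_cont : ∀ u ω, Continuous (fun t => B u t ω)
  B_zero : ∀ u ω, B u 0 ω = 0
  B_bm : ∀ u, IsBrownianReal (B u) P
  B_indep : iIndepFun (fun u ω t => B u t ω) P
  TB_indep : IndepFun (fun ω u => T u ω) (fun ω (u : Lab) (t : ℝ≥0) => B u t ω) P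
  /-- the angular noises (of the particles different from the first one) are independent
  Brownian motions -/
  W_meas : ∀ u t, Measurable (W u t)
  W_cont : ∀ u ω, Continuous (fun t => W u t ω)
  W_zero : ∀ u ω, W u 0 ω = 0
  W_bm : ∀ u, u ≠ [] → IsBrownianReal (W u) P
  W_indep : iIndepFun (fun (u : {u : Lab // u ≠ []}) ω t => W u.1 t ω) P
  /-- regularity of the polar coordinates -/
  ρ_meas : ∀ u (t : ℝ≥0), Measurable (ρ u t)
  θ_meas : ∀ u (t : ℝ≥0), Measurable (θ u t)
  ρ_cont : ∀ u ω, ContinuousOn (fun s => ρ u s ω) (Ici 0)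
  θ_cont : ∀ u ω, ContinuousOn (fun s => θ u s ω) (Ioi 0)
  ρ_pos : ∀ u ω (t : ℝ), 0 < t → 0 < ρ u t ω
  ρ_int : ∀ u ω (t : ℝ), 0 ≤ t →
    IntervalIntegrable (fun s => Real.cosh (ρ u s ω) / (2 * Real.sinh (ρ u s ω))) volume 0 t
  /-- the first particle starts at the origin, its children start where it dies, and so on -/
  ρ_root : ∀ ω, ρ [] 0 ω = 0
  ρ_start : ∀ x u ω, ρ (x :: u) 0 ω = ρ u (T u ω) ω
  /-- the radial equation -/
  ρ_eqn : ∀ u ω (t : ℝ), 0 ≤ t → ρ u t ω = ρ u 0 ω + B u t.toNNReal ω +
    ∫ s in (0 : ℝ)..t, (Real.cosh (ρ u s ω) / (2 * Real.sinh (ρ u s ω)) + lam)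
  /-- the angular equation for the particles different from the first one -/
  θ_eqn : ∀ x u ω (t : ℝ), 0 ≤ t → θ (x :: u) t ω = θ u (T u ω) ω +
    W (x :: u) (∫ s in (0 : ℝ)..t, 1 / (Real.sinh (ρ (x :: u) s ω)) ^ 2).toNNReal ω
  /-- the angular noises are independent of all the radial information and of the angle of the
  first particle -/
  W_radial_indep : IndepFun (fun ω (u : {u : Lab // u ≠ []}) (t : ℝ≥0) => W u.1 t ω)
    (fun ω => ((fun (u : Lab) => T u ω), (fun (u : Lab) (t : ℝ≥0) => B u t ω),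
      (fun (u : Lab) (t : ℝ≥0) => ρ u t ω), (fun (t : ℝ≥0) => θ [] t ω))) P
  /-- the angular equation for the first particle (started at the origin): after every time
  `s > 0` the angle is driven by a Brownian motion independent of the past angles and of the
  radial information -/
  θ_root : ∀ s : ℝ, 0 < s → ∃ W' : ℝ≥0 → Ω → ℝ, IsBrownianReal W' P ∧
    IndepFun (fun ω (t : ℝ≥0) => W' t ω)
      (fun ω => ((fun (u : Lab) => T u ω), (fun (u : Lab) (t : ℝ≥0) => B u t ω),
        (fun (u : Lab) (t : ℝ≥0) => ρ u t ω), (fun (t : Ioc (0 : ℝ) s) => θ [] t ω))) P ∧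
    ∀ᵐ ω ∂P, ∀ t : ℝ, 0 ≤ t → θ [] (s + t) ω = θ [] s ω +
      W' (∫ r in s..(s + t), 1 / (Real.sinh (ρ [] r ω)) ^ 2).toNNReal ω

/-- position in the unit disc, at the absolute time `t`, of the particle `u` -/
noncomputable def posZ {Ω : Type} (T : Lab → Ω → ℝ) (ρ θ : Lab → ℝ → Ω → ℝ) (ω : Ω) (u : Lab)
    (t : ℝ) : ℂ :=
  (Real.tanh (ρ u (t - birth (fun u => T u ω) u) ω / 2) : ℂ) *
    cis (θ u (t - birth (fun u => T u ω) u) ω)

end Pool.Agent.helper23.HB
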