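import Pool.Agent.helper23.HB.DTH

open MeasureTheory ProbabilityTheory Set Filter Topology
open scoped ENNReal NNReal

namespace Pool.Agent.helper23.HB

/-- mean population at a real time -/
theorem mean_cnt (hCNT : St_CNT) {Ω : Type} [MeasurableSpace Ω] {P : Measure Ω}
    [IsProbabilityMeasure P] {β : ℝ} (hβ : 0 < β) {T : Ω → Lab → ℝ} (hT : Life β P T) (t : ℝ) :
    ∫⁻ ω, cnt (T ω) t ∂P = ind (0 ≤ t) * ENNReal.ofReal (Real.exp (β * t)) := by
  by_cases ht : 0 ≤ t
  · rw [ind_true ht, one_mul, (hCNT Ω P β T hβ hT).1 t ht]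
  · rw [ind_false ht, zero_mul]
    have : ∀ ω, cnt (T ω) t = 0 := by
      intro ω
      unfold cnt
      rw [Alive_of_neg (hT.pos ω) (not_le.mp ht)]
      simp
    simp [this]

theorem mPRS (hBR : St_BR) (hCNT : St_CNT) (hDTH : St_DTH) : St_PRS := by
  intro Ω _ P _ β T hβ hT s t ψ hψ
  have hm : Measurable T := measurable_pi_lambda _ hT.meas
  -- one pair (w, x)
  have key : ∀ (w : Lab) (x : Bool), ∑' p : Lab, ∑' q : Lab,
      ∫⁻ ω, ind (p ++ x :: w ∈ Alive (T ω) s) * ind (q ++ (!x) :: w ∈ Alive (T ω) t) *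
        ψ (death (T ω) w) ∂P =
      ∫⁻ ω, ψ (death (T ω) w) * (ind (0 ≤ s - death (T ω) w) *
        ENNReal.ofReal (Real.exp (β * (s - death (T ω) w)))) *
        (ind (0 ≤ t - death (T ω) w) *
        ENNReal.ofReal (Real.exp (β * (t - death (T ω) w)))) ∂P := by
    intro w x
    have hmm : ∀ p q : Lab, Measurable (fun ω => ind (p ++ x :: w ∈ Alive (T ω) s) *
        ind (q ++ (!x) :: w ∈ Alive (T ω) t) * ψ (death (T ω) w)) := fun p q =>
      (((measurable_ind (measurableSet_Alive_left _ s)).comp hm).mul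
        ((measurable_ind (measurableSet_Alive_left _ t)).comp hm)).mul
        (hψ.comp ((measurable_death w).comp hm))
    have e1 : ∑' p : Lab, ∑' q : Lab,
      ∫⁻ ω, ind (p ++ x :: w ∈ Alive (T ω) s) * ind (q ++ (!x) :: w ∈ Alive (T ω) t) *
        ψ (death (T ω) w) ∂P = ∫⁻ ω, ∑' p : Lab, ∑' q : Lab,
        ind (p ++ x :: w ∈ Alive (T ω) s) * ind (q ++ (!x) :: w ∈ Alive (T ω) t) *
        ψ (death (T ω) w) ∂P := by
      rw [lintegral_tsum fun p => (Measurable.tsum fun q => hmm p q).aemeasurable]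
      refine tsum_congr fun p => ?_
      rw [lintegral_tsum fun q => (hmm p q).aemeasurable]
    rw [e1]
    have hf : Measurable (fun y : (Lab → ℝ) × ℝ => cnt y.1 (s - y.2)) :=
      measurable_cnt.comp (measurable_fst.prodMk (measurable_const.sub measurable_snd))
    have hg : Measurable (fun y : (Lab → ℝ) × ℝ => cnt y.1 (t - y.2)) :=
      measurable_cnt.comp (measurable_fst.prodMk (measurable_const.sub measurable_snd))
    have hbr := hBR Ω P β T hβ hT w x (fun y => ψ (y.1 + y.2)) (fun y => cnt y.1 (s - y.2))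
      (fun y => cnt y.1 (t - y.2)) (hψ.comp (measurable_fst.add measurable_snd)) hf hg
    simp only [mean_cnt hCNT hβ hT] at hbr
    refine Eq.trans ?_ hbr
    refine lintegral_congr fun ω => ?_
    have e2 : ∀ p : Lab, ind (p ++ x :: w ∈ Alive (T ω) s) =
        ind (p ∈ Alive (sh (x :: w) (T ω)) (s - death (T ω) w)) := by
      intro p; rw [append_mem_Alive']; rfl
    have e3 : ∀ q : Lab, ind (q ++ (!x) :: w ∈ Alive (T ω) t) =
        ind (q ∈ Alive (sh ((!x) :: w) (T ω)) (t - death (T ω) w)) := by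
      intro p; rw [append_mem_Alive']; rfl
    simp_rw [e2, e3]
    have e4 : ∀ p : Lab, ∑' q : Lab, ind (p ∈ Alive (sh (x :: w) (T ω)) (s - death (T ω) w)) *
        ind (q ∈ Alive (sh ((!x) :: w) (T ω)) (t - death (T ω) w)) * ψ (death (T ω) w) =
        ind (p ∈ Alive (sh (x :: w) (T ω)) (s - death (T ω) w)) *
          (cnt (sh ((!x) :: w) (T ω)) (t - death (T ω) w) * ψ (death (T ω) w)) := by
      intro p
      rw [ENNReal.tsum_mul_right, ENNReal.tsum_mul_left, mul_assoc]
      rfl
    simp_rw [e4]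
    rw [ENNReal.tsum_mul_right]
    change cnt _ _ * (_ * ψ (birth (T ω) w + T ω w)) = ψ (birth (T ω) w + T ω w) * _ * _
    ring
  -- sum over everything
  have hΞ : Measurable (fun r : ℝ => 2 * (ψ r * (ind (0 ≤ s - r) *
        ENNReal.ofReal (Real.exp (β * (s - r)))) *
        (ind (0 ≤ t - r) * ENNReal.ofReal (Real.exp (β * (t - r)))))) := by
    have h1 : ∀ a : ℝ, Measurable (fun r : ℝ => ind (0 ≤ a - r) *
        ENNReal.ofReal (Real.exp (β * (a - r)))) := by
      intro a
      refine (measurable_ind (s := {r : ℝ | 0 ≤ a - r})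
        (measurableSet_le measurable_const (measurable_const.sub measurable_id))).mul ?_
      exact ENNReal.measurable_ofReal.comp (Real.measurable_exp.comp
        (measurable_const.mul (measurable_const.sub measurable_id)))
    exact ((hψ.mul (h1 s)).mul (h1 t)).const_mul 2
  have h2 : ∑' z : Quad, ∫⁻ ω, ind (qu z ∈ Alive (T ω) s) * ind (qv z ∈ Alive (T ω) t) *
        ψ (death (T ω) z.1) ∂P = ∑' w : Lab, ∫⁻ ω, 2 * (ψ (death (T ω) w) *
        (ind (0 ≤ s - death (T ω) w) * ENNReal.ofReal (Real.exp (β * (s - death (T ω) w)))) *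
        (ind (0 ≤ t - death (T ω) w) *
          ENNReal.ofReal (Real.exp (β * (t - death (T ω) w))))) ∂P := by
    rw [ENNReal.tsum_prod']
    refine tsum_congr fun w => ?_
    rw [ENNReal.tsum_prod']
    have h3 : ∀ x : Bool, ∑' y : Lab × Lab, ∫⁻ ω, ind (qu (w, x, y) ∈ Alive (T ω) s) *
        ind (qv (w, x, y) ∈ Alive (T ω) t) * ψ (death (T ω) w) ∂P =
        ∫⁻ ω, ψ (death (T ω) w) * (ind (0 ≤ s - death (T ω) w) *
        ENNReal.ofReal (Real.exp (β * (s - death (T ω) w)))) *
        (ind (0 ≤ t - death (T ω) w) *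
        ENNReal.ofReal (Real.exp (β * (t - death (T ω) w)))) ∂P := by
      intro x
      rw [ENNReal.tsum_prod']
      exact key w x
    rw [tsum_bool, h3, h3, ← two_mul, lintegral_const_mul' _ _ (by norm_num)]
  rw [h2, hDTH Ω P β T hβ hT _ hΞ, ← lintegral_indicator measurableSet_Ioi,
    ← lintegral_indicator measurableSet_Ioc]
  refine lintegral_congr fun r => ?_
  by_cases hr : r ∈ Ioc (0 : ℝ) (min s t)
  · have hr1 : r ≤ s := hr.2.trans (min_le_left _ _)
    have hr2 : r ≤ t := hr.2.trans (min_le_right _ _)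
    rw [indicator_of_mem hr, indicator_of_mem (by exact hr.1 : r ∈ Ioi (0 : ℝ)),
      ind_true (by linarith), ind_true (by linarith), one_mul, one_mul]
    have e5 : (2 : ℝ≥0∞) = ENNReal.ofReal 2 := by norm_num
    have e6 : ENNReal.ofReal (2 * β * Real.exp (β * (s + t - r))) =
        ENNReal.ofReal 2 * (ENNReal.ofReal (Real.exp (β * (s - r))) *
          ENNReal.ofReal (Real.exp (β * (t - r))) * ENNReal.ofReal (β * Real.exp (β * r))) := by
      rw [← ENNReal.ofReal_mul (by positivity), ← ENNReal.ofReal_mul (by positivity),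
        ← ENNReal.ofReal_mul (by positivity)]
      congr 1
      have : Real.exp (β * (s + t - r)) = Real.exp (β * (s - r)) * Real.exp (β * (t - r)) *
          Real.exp (β * r) := by
        rw [← Real.exp_add, ← Real.exp_add]; ring_nf
      rw [this]; ring
    rw [e6, e5]; ring
  · rw [indicator_of_notMem hr]
    by_cases h0 : 0 < r
    · rw [indicator_of_mem (by exact h0 : r ∈ Ioi (0 : ℝ))]
      have h4 : ¬(0 ≤ s - r) ∨ ¬(0 ≤ t - r) := by
        by_contra hcon
        push Not at hcon
        exact hr ⟨h0, le_min (by linarith [hcon.1]) (by linarith [hcon.2])⟩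
      rcases h4 with h4 | h4
      · rw [ind_false h4]; simp
      · rw [ind_false h4]; simp
    · rw [indicator_of_notMem (by simpa using h0)]

end Pool.Agent.helper23.HB
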