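import Pool.Agent.helper23.HB.Meas

/-!
# Hyperbolic branching Brownian motion : statements of the modules

Every module `XX` proves a theorem `mXX : St_XX` (possibly from other `St_YY`).
-/

open MeasureTheory ProbabilityTheory Set Filter Topology
open scoped ENNReal NNReal

namespace Pool.Agent.helper23.HB

/-! ## Group I : independence, Brownian paths -/

/-- a continuous measurable process on `[0, ∞)` (indexed by `ℝ`) which is a Brownian motion -/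
structure BMp {Ω : Type} [MeasurableSpace Ω] (P : Measure Ω) (X : Ω → ℝ → ℝ) : Prop where
  cont : ∀ ω, Continuous (X ω)
  meas : ∀ t, Measurable (fun ω => X ω t)
  bm : IsPreBrownianReal (fun (t : ℝ≥0) ω => X ω (t : ℝ)) P

/-- grouping of independent variables -/
def St_IND : Prop :=
  ∀ (Ω : Type) [MeasurableSpace Ω] (P : Measure Ω) [IsProbabilityMeasure P]
    (E : Type) [MeasurableSpace E] (X : Ω → Lab → E), (∀ u, Measurable fun ω => X ω u) →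
    iIndepFun (fun u ω => X ω u) P → ∀ (κ : Type) (A : κ → Set Lab),
    Pairwise (fun i j => Disjoint (A i) (A j)) →
    iIndepFun (fun (i : κ) (ω : Ω) (u : A i) => X ω u) P

/-- joint independence of the pairs (lifetime, noise) -/
def St_JNT : Prop :=
  ∀ (Ω : Type) [MeasurableSpace Ω] (P : Measure Ω) [IsProbabilityMeasure P]
    (E E' : Type) [MeasurableSpace E] [MeasurableSpace E'] (X : Ω → Lab → E) (Y : Ω → Lab → E'),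
    (∀ u, Measurable fun ω => X ω u) → (∀ u, Measurable fun ω => Y ω u) →
    iIndepFun (fun u ω => X ω u) P → iIndepFun (fun u ω => Y ω u) P → IndepFun X Y P →
    iIndepFun (fun u ω => (X ω u, Y ω u)) P

/-- uniqueness of the law of Brownian motion on the path space -/
def St_BLAW : Prop :=
  ∀ (Ω Ω' : Type) [MeasurableSpace Ω] [MeasurableSpace Ω'] (P : Measure Ω) (P' : Measure Ω')
    [IsProbabilityMeasure P] [IsProbabilityMeasure P'] (X : Ω → Pth) (X' : Ω' → Pth),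
    Measurable X → Measurable X' →
    IsPreBrownianReal (fun (t : ℝ≥0) ω => (X ω : ℝ → ℝ) (t : ℝ)) P →
    IsPreBrownianReal (fun (t : ℝ≥0) ω => (X' ω : ℝ → ℝ) (t : ℝ)) P' →
    Measure.map X P = Measure.map X' P'

/-- shift invariance -/
def St_SH : Prop :=
  ∀ (Ω : Type) [MeasurableSpace Ω] (P : Measure Ω) [IsProbabilityMeasure P]
    (β : ℝ) (T : Ω → Lab → ℝ) (B : Ω → Lab → Pth), 0 < β → Life β P T → Noise P B →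
    IndepFun T B P → ∀ u : Lab,
    Life β P (fun ω => sh u (T ω)) ∧ Noise P (fun ω => sh u (B ω)) ∧
    Measure.map (fun ω => (sh u (T ω), sh u (B ω))) P = Measure.map (fun ω => (T ω, B ω)) P

/-- shift invariance, lifetimes only -/
def St_SHT : Prop :=
  ∀ (Ω : Type) [MeasurableSpace Ω] (P : Measure Ω) [IsProbabilityMeasure P]
    (β : ℝ) (T : Ω → Lab → ℝ), 0 < β → Life β P T → ∀ u : Lab,
    Life β P (fun ω => sh u (T ω)) ∧ Measure.map (fun ω => sh u (T ω)) P = Measure.map T P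

/-- the sibling trials -/
def vk (k : ℕ) : Lab := true :: List.replicate k false

/-- infinitely many of the independent trials succeed -/
def St_TRI : Prop :=
  ∀ (Ω : Type) [MeasurableSpace Ω] (P : Measure Ω) [IsProbabilityMeasure P]
    (β : ℝ) (T : Ω → Lab → ℝ) (B : Ω → Lab → Pth), 0 < β → Life β P T → Noise P B →
    IndepFun T B P → ∀ G : Set ((Lab → ℝ) × (Lab → Pth)), MeasurableSet G →
    P {ω | (T ω, B ω) ∈ G} ≠ 0 →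
    ∀ᵐ ω ∂P, ∃ᶠ k in atTop, (sh (vk k) (T ω), sh (vk k) (B ω)) ∈ G

/-- the noise along a line is a Brownian motion -/
def St_LINE : Prop :=
  ∀ (Ω : Type) [MeasurableSpace Ω] (P : Measure Ω) [IsProbabilityMeasure P]
    (B : Ω → Lab → Pth), Noise P B → ∀ τ : Lab → ℝ, (∀ u, 0 < τ u) → ∀ v : Lab,
    BMp P (fun ω => line τ (B ω) v)

/-- the blocks are independent and identically distributed, their law is unique -/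
def St_BLK : Prop :=
  ∀ (Ω : Type) [MeasurableSpace Ω] (P : Measure Ω) [IsProbabilityMeasure P]
    (X : Ω → ℝ → ℝ), BMp P X → ∀ h : ℝ, 0 < h →
    iIndepFun (fun (k : ℕ) ω => blk h (X ω) k) P ∧
    (∀ k, Measure.map (fun ω => blk h (X ω) k) P = Measure.map (fun ω => blk h (X ω) 0) P) ∧
    ∀ (Ω' : Type) [MeasurableSpace Ω'] (P' : Measure Ω') [IsProbabilityMeasure P']
      (X' : Ω' → ℝ → ℝ), BMp P' X' →
      Measure.map (fun ω => blk h (X ω)) P = Measure.map (fun ω => blk h (X' ω)) P'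

/-- Gaussian increments and tails of the block supremum -/
def St_GAU : Prop :=
  ∀ (Ω : Type) [MeasurableSpace Ω] (P : Measure Ω) [IsProbabilityMeasure P]
    (X : Ω → ℝ → ℝ), BMp P X → ∀ (h : ℝ) (_ : 0 < h),
    Measure.map (fun ω => (blk h (X ω) 0).1) P = gaussianReal 0 h.toNNReal ∧
    (∀ x : ℝ, 0 ≤ x → P {ω | x ≤ (blk h (X ω) 0).2} ≤
      ENNReal.ofReal (2 * Real.exp (-x ^ 2 / (2 * h)))) ∧
    (∀ a : ℝ, ∫⁻ ω, ENNReal.ofReal (Real.exp (a * (blk h (X ω) 0).2)) ∂P ≠ ∞) ∧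
    (∀ s : ℝ, 0 < s → s ≤ 1 → ∫⁻ ω, ENNReal.ofReal ((blk h (X ω) 0).2) ^ s ∂P ≤
      ENNReal.ofReal (2 * h ^ (s / 2)))

/-- many-to-one -/
def St_M21 : Prop :=
  ∀ (Ω : Type) [MeasurableSpace Ω] (P : Measure Ω) [IsProbabilityMeasure P]
    (T : Ω → Lab → ℝ) (B : Ω → Lab → Pth), (∀ u, Measurable fun ω => T ω u) →
    (∀ ω u, 0 < T ω u) → Noise P B → IndepFun T B P → ∀ (v : Lab) (h : ℝ), 0 < h →
    ∀ (gT : (Lab → ℝ) → ℝ≥0∞) (F : (ℕ → ℝ × ℝ) → ℝ≥0∞), Measurable gT → Measurable F →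
    ∫⁻ ω, gT (T ω) * F (blk h (line (T ω) (B ω) v)) ∂P =
      (∫⁻ ω, gT (T ω) ∂P) * ∫⁻ ω, F (blk h (B ω [])) ∂P

/-- law of a pair of lines, for deterministic lifetimes -/
def St_B4 : Prop :=
  ∀ (Ω : Type) [MeasurableSpace Ω] (P : Measure Ω) [IsProbabilityMeasure P]
    (B : Ω → Lab → Pth), Noise P B → ∀ τ : Lab → ℝ, (∀ u, 0 < τ u) →
    ∀ (z : Quad) (h : ℝ) (m n : ℕ), 0 < h → m < n → m * h ≤ death τ z.1 →
    death τ z.1 < (m + 1) * h → ∀ gd : Set (ℝ × ℝ), MeasurableSet gd →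
    P {ω | (∀ k < n, blk h (line τ (B ω) (qu z)) k ∈ gd) ∧
      ∀ k < n, blk h (line τ (B ω) (qv z)) k ∈ gd} ≤
      (P {ω | blk h (B ω []) 0 ∈ gd}) ^ (m + 2 * (n - m - 1))

/-! ## Group C : counting particles -/

/-- branching property: the two subtrees of `w` are independent copies, independent of the
birth time and of the lifetime of `w` -/
def St_BR : Prop :=
  ∀ (Ω : Type) [MeasurableSpace Ω] (P : Measure Ω) [IsProbabilityMeasure P]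
    (β : ℝ) (T : Ω → Lab → ℝ), 0 < β → Life β P T → ∀ (w : Lab) (x : Bool)
    (φ : ℝ × ℝ → ℝ≥0∞) (f g : (Lab → ℝ) × ℝ → ℝ≥0∞), Measurable φ → Measurable f → Measurable g →
    ∫⁻ ω, φ (birth (T ω) w, T ω w) * f (sh (x :: w) (T ω), death (T ω) w) *
        g (sh ((!x) :: w) (T ω), death (T ω) w) ∂P =
      ∫⁻ ω, φ (birth (T ω) w, T ω w) * (∫⁻ ω', f (T ω', death (T ω) w) ∂P) *
        (∫⁻ ω', g (T ω', death (T ω) w) ∂P) ∂P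

/-- mean number of particles; no explosion -/
def St_CNT : Prop :=
  ∀ (Ω : Type) [MeasurableSpace Ω] (P : Measure Ω) [IsProbabilityMeasure P]
    (β : ℝ) (T : Ω → Lab → ℝ), 0 < β → Life β P T →
    (∀ t : ℝ, 0 ≤ t → ∫⁻ ω, cnt (T ω) t ∂P = ENNReal.ofReal (Real.exp (β * t))) ∧
    ∀ᵐ ω ∂P, NE (T ω)

/-- intensity of the splitting times -/
def St_DTH : Prop :=
  ∀ (Ω : Type) [MeasurableSpace Ω] (P : Measure Ω) [IsProbabilityMeasure P]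
    (β : ℝ) (T : Ω → Lab → ℝ), 0 < β → Life β P T → ∀ φ : ℝ → ℝ≥0∞, Measurable φ →
    ∑' w : Lab, ∫⁻ ω, φ (death (T ω) w) ∂P =
      ∫⁻ r in Ioi (0 : ℝ), φ r * ENNReal.ofReal (β * Real.exp (β * r))

/-- pairs of particles -/
def St_PRS : Prop :=
  ∀ (Ω : Type) [MeasurableSpace Ω] (P : Measure Ω) [IsProbabilityMeasure P]
    (β : ℝ) (T : Ω → Lab → ℝ), 0 < β → Life β P T → ∀ (s t : ℝ) (ψ : ℝ → ℝ≥0∞), Measurable ψ →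
    ∑' z : Quad, ∫⁻ ω, ind (qu z ∈ Alive (T ω) s) * ind (qv z ∈ Alive (T ω) t) *
        ψ (death (T ω) z.1) ∂P =
      ∫⁻ r in Ioc (0 : ℝ) (min s t), ψ r * ENNReal.ofReal (2 * β * Real.exp (β * (s + t - r)))

/-- second moments -/
def St_MOM : Prop :=
  ∀ (Ω : Type) [MeasurableSpace Ω] (P : Measure Ω) [IsProbabilityMeasure P]
    (β : ℝ) (T : Ω → Lab → ℝ), 0 < β → Life β P T → ∀ s t : ℝ, 0 ≤ s → s ≤ t →
    ∫⁻ ω, cnt (T ω) s * cnt (T ω) t ∂P =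
      ENNReal.ofReal (Real.exp (β * t) + 2 * Real.exp (β * (s + t)) * (1 - Real.exp (-β * s)))

/-- convergence of the normalised number of particles (the limit may vanish) and integrability of
the maximal function -/
def St_MART : Prop :=
  ∀ (Ω : Type) [MeasurableSpace Ω] (P : Measure Ω) [IsProbabilityMeasure P]
    (β : ℝ) (T : Ω → Lab → ℝ), 0 < β → Life β P T →
    (∫⁻ ω, Ms β (T ω) ∂P ≠ ∞) ∧
    ∃ Xlim : Ω → ℝ, Measurable Xlim ∧ (∀ ω, 0 ≤ Xlim ω) ∧ Integrable Xlim P ∧ ∫ ω, Xlim ω ∂P = 1 ∧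
      ∀ᵐ ω ∂P, Tendsto (fun t : ℝ => Real.exp (-β * t) * ((Alive (T ω) t).ncard : ℝ)) atTop
        (𝓝 (Xlim ω))

/-- the limit is positive, in all subtrees -/
def St_POS : Prop :=
  ∀ (Ω : Type) [MeasurableSpace Ω] (P : Measure Ω) [IsProbabilityMeasure P]
    (β : ℝ) (T : Ω → Lab → ℝ), 0 < β → Life β P T →
    ∀ᵐ ω ∂P, ∀ u : Lab, ∃ w : ℝ, 0 < w ∧
      Tendsto (fun t : ℝ => Real.exp (-β * t) * ((Alive (sh u (T ω)) t).ncard : ℝ)) atTop (𝓝 w)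

/-- deterministic bounds by the maximal functions -/
def St_C4 : Prop :=
  (∀ (β : ℝ) (τ : Lab → ℝ), 0 < β → NE τ → ∀ t : ℝ, 0 ≤ t → Xt β τ t ≤ Ms β τ) ∧
  (∀ (β : ℝ) (τ : Lab → ℝ), 0 < β → NE τ → ∀ (m t : ℝ) (u : Lab), 0 ≤ m → m ≤ t →
    u ∈ Alive τ m →
    ENNReal.ofReal (Real.exp (-β * t)) * ∑' v : Lab, ind (v ∈ Alive τ t ∧ u <:+ v) ≤
      ENNReal.ofReal (Real.exp (-β * m)) * wt β τ u) ∧
  (∀ (β : ℝ) (τ : Lab → ℝ), 0 < β → NE τ → ∀ (n : ℝ) (w : Lab), 0 ≤ n →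
    ENNReal.ofReal (Real.exp (-(2 * β * n))) *
        ∑' z : Bool × Lab × Lab, ind (qu (w, z) ∈ Alive τ n ∧ qv (w, z) ∈ Alive τ n) ≤
      2 * (ENNReal.ofReal (Real.exp (-(2 * β * death τ w))) * Ms β (sh (false :: w) τ) *
        Ms β (sh (true :: w) τ)))

/-- pathwise summation over the tree -/
def St_PT : Prop :=
  ∀ (β : ℝ) (τ : Lab → ℝ) (m : ℕ) (t : ℝ) (φ : Lab → ℕ → ℝ≥0∞) (F : Lab → ℝ≥0∞), 0 < β →
    NE τ → (m : ℝ) ≤ t →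
    (∀ v ∈ Alive τ t, ∀ v' ∈ Alive τ ((⌊t⌋₊ : ℝ) + 1), v <:+ v' →
      F v ≤ ∑ j ∈ Finset.Icc m ⌊t⌋₊, φ (anc τ ((j : ℝ) + 1) v') j) →
    ENNReal.ofReal (Real.exp (-β * t)) * ∑' v : Lab, ind (v ∈ Alive τ t) * F v ≤
      ENNReal.ofReal (Real.exp β) * ∑' j : ℕ, ind (m ≤ j) *
        (ENNReal.ofReal (Real.exp (-β * ((j : ℝ) + 1))) *
          ∑' u : Lab, ind (u ∈ Alive τ ((j : ℝ) + 1)) * φ u j * wt β τ u)

/-- mean of the weights -/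
def St_WT : Prop :=
  ∀ (Ω : Type) [MeasurableSpace Ω] (P : Measure Ω) [IsProbabilityMeasure P]
    (β : ℝ) (T : Ω → Lab → ℝ), 0 < β → Life β P T → ∃ C : ℝ≥0∞, C ≠ ∞ ∧ ∀ m : ℝ, 0 ≤ m →
    ∑' u : Lab, ∫⁻ ω, ind (u ∈ Alive (T ω) m) * wt β (T ω) u ∂P ≤
      C * ENNReal.ofReal (Real.exp (β * m))

/-- pair weights -/
noncomputable def Hst (β κ : ℝ) (τ : Lab → ℝ) : ℝ≥0∞ :=
  ∑' w : Lab, ENNReal.ofReal (Real.exp ((κ - 2 * β) * death τ w)) * Ms β (sh (false :: w) τ) *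
    Ms β (sh (true :: w) τ)

/-- the pair weights have finite mean -/
def St_H4 : Prop :=
  ∀ (Ω : Type) [MeasurableSpace Ω] (P : Measure Ω) [IsProbabilityMeasure P]
    (β : ℝ) (T : Ω → Lab → ℝ), 0 < β → Life β P T → ∀ κ : ℝ, κ < β →
    ∫⁻ ω, Hst β κ (T ω) ∂P ≠ ∞

/-! ## Group D : analysis -/

/-- large deviation lower bound for one long block -/
def St_LDP : Prop :=
  ∀ (Ω : Type) [MeasurableSpace Ω] (P : Measure Ω) [IsProbabilityMeasure P]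
    (X : Ω → ℝ → ℝ), BMp P X → ∀ a η : ℝ, 0 < η → ∃ h K : ℝ, 1 ≤ h ∧ 0 < K ∧
    ENNReal.ofReal (Real.exp (-((|a| + η) ^ 2 / 2 + η) * h)) ≤
      P {ω | |(blk h (X ω) 0).1 - a * h| ≤ η * h ∧ (blk h (X ω) 0).2 ≤ K * h}

/-- the reflected walk (including the critical case) -/
def St_LIN : Prop :=
  ∀ (Ω : Type) [MeasurableSpace Ω] (P : Measure Ω) [IsProbabilityMeasure P] (D : ℕ → Ω → ℝ),
    (∀ k, Measurable (D k)) → iIndepFun D P → (∀ k, Measure.map (D k) P = gaussianReal 0 1) →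
    ∀ β c s : ℝ, 0 < β → 0 < c → 0 < s → (β < c * s - s ^ 2 / 2 ∨ (β = c ^ 2 / 2 ∧ c < s)) →
    ∑' m : ℕ, ENNReal.ofReal (Real.exp (β * m)) *
      ∫⁻ ω, ENNReal.ofReal (Real.exp (-s * Yk c (fun k => (D k ω, 0)) m)) ∂P ≠ ∞

/-- the same with block suprema -/
def St_SUMY : Prop :=
  ∀ (Ω : Type) [MeasurableSpace Ω] (P : Measure Ω) [IsProbabilityMeasure P]
    (X : Ω → ℝ → ℝ), BMp P X → ∀ β c s : ℝ, 0 < β → 0 < c → 0 < s →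
    (β < c * s - s ^ 2 / 2 ∨ (β = c ^ 2 / 2 ∧ c < s)) →
    ∑' m : ℕ, ENNReal.ofReal (Real.exp (β * m)) *
      ∫⁻ ω, ENNReal.ofReal (Real.exp (-s * (Yk c (blk 1 (X ω)) m - (blk 1 (X ω) m).2))) ∂P ≠ ∞

/-- one line, away from the bad event that the noise at time `n` is below `-ε n` -/
def St_SUM3 : Prop :=
  ∀ (Ω : Type) [MeasurableSpace Ω] (P : Measure Ω) [IsProbabilityMeasure P]
    (X : Ω → ℝ → ℝ), BMp P X → ∀ c ε s : ℝ, 0 < c → 0 ≤ ε → 0 < s →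
    ∃ C : ℝ≥0∞, C ≠ ∞ ∧ (∀ n m : ℕ, n ≤ m →
      ∫⁻ ω, ind (-(ε * n) ≤ ∑ k ∈ Finset.range n, (blk 1 (X ω) k).1) *
          ENNReal.ofReal (Real.exp (-s * (Yk c (blk 1 (X ω)) m - (blk 1 (X ω) m).2))) ∂P ≤
        C * ENNReal.ofReal
          (Real.exp (-(s * (c - ε) * n) - (c * s - s ^ 2 / 2) * ((m : ℝ) - n)))) ∧
      ∀ n : ℕ, P {ω | ¬(-(ε * n) ≤ ∑ k ∈ Finset.range n, (blk 1 (X ω) k).1)} ≤
        ENNReal.ofReal (Real.exp (-(ε ^ 2 * n / 2)))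

/-- anti-concentration on the circle -/
def St_ACON : Prop :=
  ∀ s : ℝ, 0 < s → s < 1 → ∃ C : ℝ≥0∞, C ≠ ∞ ∧ ∀ (x : ℝ) (v : ℝ≥0), v ≠ 0 →
    ∫⁻ y, ‖cis (x + y) - 1‖ₑ ^ (-s) ∂(gaussianReal 0 v) ≤
      C * ENNReal.ofReal (min 1 (v : ℝ)) ^ (-(s / 2))

/-- choice of the speed -/
def St_D5 : Prop :=
  ∀ β c s : ℝ, 0 < β → 0 < c → 0 < s → (β ≤ c ^ 2 / 2 → s < c - √(c ^ 2 - 2 * β)) →
    ∃ a η : ℝ, 0 < η ∧ η < a ∧ s * (a + 3 * η) < β - ((|a - c| + η) ^ 2 / 2 + η)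

/-- the energy of a pair of near or far particles (finite point sets) -/
def St_ECOV : Prop :=
  ∀ (G : Finset Lab) (x : Lab → ℂ) (a s : ℝ) (near : Lab → Prop) (k : ℕ) (U : ℕ → Set ℂ),
    0 < a → 0 < s → (∀ p ∈ G, ∀ q ∈ G, p <:+ q → p = q) → (∀ p ∈ G, ∃ i < k, x p ∈ U i) →
    (∑' z : Quad, ind (qu z ∈ G ∧ qv z ∈ G ∧ ¬near z.1) *
          ‖x (qu z) - x (qv z)‖ₑ ^ (-s)) ≠ ∞ →
    ENNReal.ofReal a * (G.card : ℝ≥0∞) ≤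
      ((k : ℝ≥0∞) * (ENNReal.ofReal (a ^ 2) * ((G.card : ℝ≥0∞) +
        ∑' z : Quad, ind (qu z ∈ G ∧ qv z ∈ G ∧ near z.1)))) ^ (1 / 2 : ℝ) +
      ((ENNReal.ofReal (a ^ 2) * ∑' z : Quad, ind (qu z ∈ G ∧ qv z ∈ G ∧ ¬near z.1) *
          ‖x (qu z) - x (qv z)‖ₑ ^ (-s)) *
        ∑ i ∈ Finset.range k, Metric.ediam (U i) ^ s) ^ (1 / 2 : ℝ)

/-- Hausdorff dimension and open covers; dimension of the circle -/
def St_DIM : Prop :=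
  (∀ (A : Set ℂ) (s : ℝ), 0 < s → dimH A < ENNReal.ofReal s → ∀ ε : ℝ≥0∞, 0 < ε →
    ∃ U : ℕ → Set ℂ, (∀ i, IsOpen (U i)) ∧ A ⊆ (⋃ i, U i) ∧
      ∑' i, Metric.ediam (U i) ^ s ≤ ε) ∧
  (∀ (A : Set ℂ) (s : ℝ), 0 < s → (∀ ε : ℝ≥0∞, 0 < ε → ∃ (ι : Type) (_ : Countable ι)
    (U : ι → Set ℂ), A ⊆ (⋃ i, U i) ∧ ∑' i, Metric.ediam (U i) ^ s ≤ ε) →
    dimH A ≤ ENNReal.ofReal s) ∧
  dimH circ ≤ 1

/-- the deterministic lower bound of the dimension -/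
def St_DET : Prop :=
  ∀ (A : Set ℂ) (s κ L : ℝ) (G : ℕ → Finset Lab) (a : ℕ → ℝ) (near : ℕ → Lab → Prop)
    (x : ℕ → Lab → ℂ) (S : Set ℕ), 0 < s → 0 < κ → (∀ n, 0 < a n) →
    (∀ n, ∀ p ∈ G n, ∀ q ∈ G n, p <:+ q → p = q) →
    Tendsto (fun n => ENNReal.ofReal (a n ^ 2) * (((G n).card : ℝ≥0∞) +
        ∑' z : Quad, ind (qu z ∈ G n ∧ qv z ∈ G n ∧ near n z.1))) atTop (𝓝 0) →
    (∀ n ∈ S, ENNReal.ofReal (a n ^ 2) *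
        ∑' z : Quad, ind (qu z ∈ G n ∧ qv z ∈ G n ∧ ¬near n z.1) *
          ‖x n (qu z) - x n (qv z)‖ₑ ^ (-s) ≤ ENNReal.ofReal L) →
    (∀ U : ℕ → Set ℂ, (∀ i, IsOpen (U i)) → A ⊆ (⋃ i, U i) → ∃ k : ℕ, ∃ᶠ n in atTop,
      n ∈ S ∧ κ ≤ a n * (({p | p ∈ G n ∧ ∃ i < k, x n p ∈ U i} : Set Lab).ncard : ℝ)) →
    ENNReal.ofReal s ≤ dimH A

/-- an abstract Fatou lemma conditional on a sigma-algebra -/
def St_LIMA : Prop :=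
  ∀ (Ω : Type) [mΩ : MeasurableSpace Ω] (P : Measure Ω) [IsProbabilityMeasure P]
    (mR : MeasurableSpace Ω), mR ≤ mΩ → ∀ (I : ℕ → Ω → ℝ≥0∞) (E : ℕ → Set Ω) (C : ℝ≥0∞),
    (∀ n, Measurable[mΩ] (I n)) → (∀ n, MeasurableSet[mR] (E n)) → C ≠ ∞ →
    (∀ n (F : Set Ω), MeasurableSet[mR] F → F ⊆ E n → ∫⁻ ω in F, I n ω ∂P ≤ C * P F) →
    ∀ᵐ ω ∂P, (∃ᶠ n in atTop, ω ∈ E n) → ∃ L : ℕ, ∃ᶠ n in atTop, ω ∈ E n ∧ I n ω ≤ (L : ℝ≥0∞)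

/-! ## Group R : radial part -/

/-- basic estimates of the radial coordinate -/
def St_R1 : Prop :=
  (∀ (lam : ℝ) (X r : ℝ → ℝ), Continuous X → RSol lam X r → ∀ s t, 0 ≤ s → s ≤ t →
    r s + (X t - X s) + (lam + 1 / 2) * (t - s) ≤ r t) ∧
  (∀ η : ℝ, 0 < η → ∃ r1 : ℝ, 0 < r1 ∧ ∀ (lam : ℝ) (X r : ℝ → ℝ), Continuous X →
    RSol lam X r → 0 < lam + 1 / 2 →
    (∀ s t, 0 ≤ s → s ≤ t → (∀ y ∈ Icc s t, r1 ≤ r y) →
      r t ≤ r s + (X t - X s) + (lam + 1 / 2 + η) * (t - s)) ∧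
    (∀ s t, 0 ≤ s → s ≤ t → ∃ y ∈ Icc s t,
      r t ≤ max (r s) r1 + (X t - X y) + (lam + 1 / 2 + η) * (t - s)))

/-- lower bound by the reflected walk -/
def St_RAD : Prop :=
  ∀ (lam : ℝ) (X r : ℝ → ℝ), 0 < lam + 1 / 2 → Continuous X → RSol lam X r → ∀ m : ℕ,
    Yk (lam + 1 / 2) (blk 1 X) m ≤ r m ∧
    ∀ y : ℝ, 0 ≤ y → y ≤ 1 → Yk (lam + 1 / 2) (blk 1 X) m - (blk 1 X m).2 ≤ r (m + y)

/-- bad event for a block sequence -/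
def bad (ε : ℝ) (m : ℕ) (x : ℕ → ℝ × ℝ) : Prop :=
  (∃ k < m, ε * m ≤ (∑ j ∈ Finset.Ico k m, (x j).1) + (x k).2) ∨ ε * m ≤ (x m).2

/-- upper bound away from the bad event -/
def St_UPR : Prop :=
  ∀ ε : ℝ, 0 < ε → ∃ r1 : ℝ, 0 < r1 ∧ ∀ (lam : ℝ) (X r : ℝ → ℝ), 0 < lam + 1 / 2 →
    Continuous X → RSol lam X r → ∀ j : ℕ, ¬bad ε j (blk 1 X) → ∀ y : ℝ, 0 ≤ y → y ≤ 1 →
    r (j + y) ≤ max (r 0) r1 + (lam + 1 / 2 + 4 * ε) * (j + 1)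

/-- the bad events are summable -/
def St_BAD : Prop :=
  ∀ (Ω : Type) [MeasurableSpace Ω] (P : Measure Ω) [IsProbabilityMeasure P]
    (X : Ω → ℝ → ℝ), BMp P X → ∀ ε : ℝ, 0 < ε →
    ∑' m : ℕ, P {ω | bad ε m (blk 1 (X ω))} ≠ ∞

/-- bounds of the clock -/
def St_CK : Prop :=
  ∀ r : ℝ → ℝ, ContinuousOn r (Ici 0) → (∀ t, 0 ≤ t → 0 < r t) →
    (∀ a b : ℝ, 0 ≤ a → a ≤ b → clk r a ≤ clk r b) ∧
    (∀ a b : ℝ, 0 ≤ a → a < b → clk r a < clk r b) ∧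
    ContinuousOn (clk r) (Ici 0) ∧
    (∀ m z : ℝ, 0 ≤ m → (∀ y ∈ Icc m (m + 1), z ≤ r y) →
      min 1 (clk r (m + 1) - clk r m) ≤ 8 * Real.exp (-2 * z)) ∧
    (∀ a b z : ℝ, 0 ≤ a → a ≤ b → (∀ y ∈ Icc a b, r y ≤ z) →
      4 * (b - a) * Real.exp (-2 * z) ≤ clk r b - clk r a)

/-- radial data of a whole tree (deterministic) -/
structure RadOK (lam : ℝ) (τ : Lab → ℝ) (b : Lab → Pth) (R : Lab → ℝ → ℝ) : Prop where
  pos : ∀ u, 0 < τ u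
  rad : ∀ u, RSol lam (line τ b u) (R u)
  old : ∀ x u t, 0 ≤ t → t ≤ death τ u → R (x :: u) t = R u t

/-- the clocks along the lines -/
def St_CLK : Prop :=
  ∀ (lam : ℝ) (τ : Lab → ℝ) (b : Lab → Pth) (R : Lab → ℝ → ℝ), RadOK lam τ b R →
    (∀ u, 0 < sig τ R u) ∧
    (∀ u, birth (sig τ R) u = clk (R u) (birth τ u)) ∧
    (∀ u, death (sig τ R) u = clk (R u) (death τ u)) ∧
    (∀ p u t, 0 ≤ t → t ≤ death τ u → clk (R (p ++ u)) t = clk (R u) t) ∧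
    (∀ (θ0 : ℝ) (w : Lab → Pth) x u t, 0 ≤ t → t ≤ death τ u →
      ang θ0 τ R w (x :: u) t = ang θ0 τ R w u t) ∧
    (∀ (θ0 : ℝ) (w : Lab → Pth) u, ContinuousOn (ang θ0 τ R w u) (Ici 0))

/-- good blocks (large deviation blocks) -/
def gdset (a η K h : ℝ) : Set (ℝ × ℝ) := {x | |x.1 - a * h| ≤ η * h ∧ x.2 ≤ K * h}

/-- the first `n` blocks are good -/
def GoodB (h : ℝ) (gd : Set (ℝ × ℝ)) (n : ℕ) (X : ℝ → ℝ) : Prop := ∀ k < n, blk h X k ∈ gd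

/-- radial coordinates in a subtree along good lines -/
def St_SUBR : Prop :=
  ∀ η : ℝ, 0 < η → ∃ r1 : ℝ, 0 < r1 ∧ ∀ (lam : ℝ) (τ : Lab → ℝ) (b : Lab → Pth)
    (R : Lab → ℝ → ℝ), 0 < lam + 1 / 2 → RadOK lam τ b R → ∀ (u p : Lab) (a K h : ℝ) (n : ℕ),
    0 < h → η ≤ a → 0 ≤ K →
    GoodB h (gdset (a - (lam + 1 / 2)) η K h) n (line (sh u τ) (sh u b) p) →
    r1 + K * h ≤ R u (birth τ u) → ∀ t : ℝ, 0 ≤ t → t ≤ n * h →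
      R u (birth τ u) + (a - η) * t - (a + K) * h ≤ R (p ++ u) (birth τ u + t) ∧
      R (p ++ u) (birth τ u + t) ≤ R u (birth τ u) + (a + 2 * η) * t +
        (K + |a - (lam + 1 / 2)| + η) * h

/-! ## Group S : systems -/

/-- pathwise facts for a system -/
def St_SYS : Prop :=
  ∀ (Ω : Type) [MeasurableSpace Ω] (P : Measure Ω) [IsProbabilityMeasure P] (β lam : ℝ)
    (S : Sys β lam P),
    (∀ ω, RadOK lam (S.T ω) (S.B ω) (S.R ω)) ∧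
    (∀ ω x u t, 0 ≤ t → t ≤ death (S.T ω) u → S.Th ω (x :: u) t = S.Th ω u t) ∧
    (∀ ω x u t, 0 ≤ t → t ≤ death (S.T ω) u → S.D ω (x :: u) t = S.D ω u t) ∧
    (∀ ω x u t, 0 ≤ t → t ≤ death (S.T ω) u → S.Z ω (x :: u) t = S.Z ω u t) ∧
    (∀ ω u, ContinuousOn (S.Th ω u) (Ici 0)) ∧
    (∀ ω u t, ‖S.D ω u t‖ = 1) ∧
    (∀ ω u t, 0 ≤ t → ‖S.Z ω u t‖ ≤ 1 ∧ ‖S.Z ω u t - S.D ω u t‖ = 1 - ‖S.Z ω u t‖ ∧
      ‖S.Z ω u t - S.D ω u t‖ ≤ 2 * Real.exp (-S.R ω u t)) ∧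
    (∀ ω u (m : ℕ) (r : ℝ), 0 ≤ r → r ≤ 1 →
      ‖S.D ω u (m + r) - S.D ω u m‖ ≤ S.osc ω u m) ∧
    (∀ ω u (m : ℕ), 0 ≤ S.osc ω u m ∧ S.osc ω u m ≤ 2)

/-- measurability facts for a system -/
def St_MSYS : Prop :=
  ∀ (Ω : Type) [MeasurableSpace Ω] (P : Measure Ω) [IsProbabilityMeasure P] (β lam : ℝ)
    (S : Sys β lam P),
    (∀ u (t : Ω → ℝ), Measurable[S.mR] t → (∀ ω, 0 ≤ t ω) →
      Measurable[S.mR] (fun ω => S.R ω u (t ω))) ∧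
    (∀ u (t : Ω → ℝ), Measurable[S.mR] t → (∀ ω, 0 ≤ t ω) →
      Measurable[S.mR] (fun ω => clk (S.R ω u) (t ω))) ∧
    Measurable[S.mR] (fun ω => sig (S.T ω) (S.R ω)) ∧
    (∀ u (t : Ω → ℝ), Measurable t → (∀ ω, 0 ≤ t ω) → Measurable (fun ω => S.Th ω u (t ω))) ∧
    (∀ u (t : Ω → ℝ), Measurable t → (∀ ω, 0 ≤ t ω) → Measurable (fun ω => S.D ω u (t ω))) ∧
    (∀ u (m : ℕ), Measurable (fun ω => S.osc ω u m))

/-- averaging of the oscillation of the angle over the angular noise -/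
def St_B5a : Prop :=
  ∀ s : ℝ, 0 < s → s ≤ 1 → ∃ C : ℝ≥0∞, C ≠ ∞ ∧
    ∀ (Ω : Type) [MeasurableSpace Ω] (P : Measure Ω) [IsProbabilityMeasure P] (β lam : ℝ)
    (S : Sys β lam P) (u : Lab) (m : ℕ) (g : Ω → ℝ≥0∞), Measurable[S.mR] g →
    ∫⁻ ω, g ω * ENNReal.ofReal (S.osc ω u m) ^ s ∂P ≤
      C * ∫⁻ ω, g ω * ENNReal.ofReal (min 1 (clk (S.R ω u) (m + 1) - clk (S.R ω u) m)) ^ (s / 2) ∂P

/-- averaging of the energy of a pair over the angular noise -/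
def St_PAIR : Prop :=
  ∀ s : ℝ, 0 < s → s < 1 → ∃ C : ℝ≥0∞, C ≠ ∞ ∧
    ∀ (Ω : Type) [MeasurableSpace Ω] (P : Measure Ω) [IsProbabilityMeasure P] (β lam : ℝ)
    (S : Sys β lam P) (z : Quad) (t : Ω → ℝ) (g : Ω → ℝ≥0∞), Measurable[S.mR] t →
    (∀ ω, 0 ≤ t ω) → Measurable[S.mR] g → (∀ ω, g ω ≠ 0 → death (S.T ω) z.1 ≤ t ω) →
    ∫⁻ ω, g ω * ‖S.D ω (qu z) (t ω) - S.D ω (qv z) (t ω)‖ₑ ^ (-s) ∂P ≤
      C * ∫⁻ ω, g ω * ENNReal.ofReal (min 1 (clk (S.R ω (qu z)) (t ω) -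
        clk (S.R ω (qu z)) (death (S.T ω) z.1))) ^ (-(s / 2)) ∂P

/-- one line: oscillation of the angle in terms of the noise only -/
def St_OSC : Prop :=
  ∀ s : ℝ, 0 < s → s ≤ 1 → ∃ C : ℝ≥0∞, C ≠ ∞ ∧
    ∀ (Ω : Type) [MeasurableSpace Ω] (P : Measure Ω) [IsProbabilityMeasure P] (β lam : ℝ),
    -1 / 2 < lam → ∀ (S : Sys β lam P) (u : Lab) (m : ℕ) (gT : (Lab → ℝ) → ℝ≥0∞)
    (G : (ℕ → ℝ × ℝ) → ℝ≥0∞), Measurable gT → Measurable G →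
    ∫⁻ ω, gT (S.T ω) * G (blk 1 (line (S.T ω) (S.B ω) u)) *
        ENNReal.ofReal (S.osc ω u m) ^ s ∂P ≤
      C * (∫⁻ ω, gT (S.T ω) ∂P) * ∫⁻ ω, G (blk 1 (S.B ω [])) * ENNReal.ofReal (Real.exp
        (-s * (Yk (lam + 1 / 2) (blk 1 (S.B ω [])) m - (blk 1 (S.B ω []) m).2))) ∂P

/-! ## Group E1 : upper bound for the limit set -/

/-- deterministic covering argument -/
def St_COV1 : Prop :=
  ∀ (τ : Lab → ℝ) (Z D : Lab → ℝ → ℂ) (φ : Lab → ℕ → ℝ≥0∞) (s : ℝ), NE τ → 0 < s → s ≤ 1 →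
    (∀ x u t, 0 ≤ t → t ≤ death τ u → D (x :: u) t = D u t) →
    (∀ u t, 0 ≤ t → ‖D u t‖ = 1 ∧ ‖Z u t - D u t‖ = 1 - ‖Z u t‖) →
    (∀ u (m : ℕ) (r : ℝ), 0 ≤ r → r ≤ 1 → ‖D u (m + r) - D u m‖ₑ ≤ φ u m) →
    (∑' m : ℕ, ∑' u : Lab, ind (u ∈ Alive τ ((m : ℝ) + 1)) * φ u m ^ s) ≠ ∞ →
    dimH (LSet τ Z) ≤ ENNReal.ofReal s

/-- upper bound for the limit set -/
def St_UL : Prop :=
  ∀ (Ω : Type) [MeasurableSpace Ω] (P : Measure Ω) [IsProbabilityMeasure P] (β lam : ℝ),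
    0 < β → -1 / 2 < lam → ∀ S : Sys β lam P, β ≤ (1 + 2 * lam) ^ 2 / 8 →
    (1 + 2 * lam - √((1 + 2 * lam) ^ 2 - 8 * β)) / 2 < 1 →
    ∀ᵐ ω ∂P, dimH (LSet (S.T ω) (S.Z ω)) ≤
      ENNReal.ofReal ((1 + 2 * lam - √((1 + 2 * lam) ^ 2 - 8 * β)) / 2)

/-! ## Group E5 : the limit measure -/

/-- `μ` is the weak limit of the empirical measures of `F` and it is carried by the circle -/
def IsLim (τ : Lab → ℝ) (F : Lab → ℝ → ℂ) (μ : Measure ℂ) : Prop :=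
  IsProbabilityMeasure μ ∧ μ (circᶜ) = 0 ∧ ∀ f : BoundedContinuousFunction ℂ ℝ,
    Tendsto (fun t : ℝ => avg τ t (fun v => f (F v t))) atTop (𝓝 (∫ z, f z ∂μ))

/-- deterministic construction of the limit measure -/
def St_E5D : Prop :=
  ∀ (β : ℝ) (τ : Lab → ℝ) (Z D : Lab → ℝ → ℂ), 0 < β → NE τ →
    (∀ u, ∃ w : ℝ, 0 < w ∧ Tendsto (fun t : ℝ =>
      Real.exp (-β * t) * ((Alive (sh u τ) t).ncard : ℝ)) atTop (𝓝 w)) →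
    (∀ u t, 0 ≤ t → ‖D u t‖ = 1 ∧ ‖Z u t‖ ≤ 1) →
    (∃ e : ℕ → ℝ≥0∞, Tendsto e atTop (𝓝 0) ∧ ∀ (m : ℕ) (t : ℝ), (m : ℝ) ≤ t →
      ENNReal.ofReal (Real.exp (-β * t)) * ∑' v : Lab, ind (v ∈ Alive τ t) *
        (‖Z v t - D (anc τ m v) m‖ₑ + ‖D v t - D (anc τ m v) m‖ₑ) ≤ e m) →
    ∃ μ : Measure ℂ, IsLim τ Z μ ∧ IsLim τ D μ

/-- existence of the limit measure -/
def St_E5 : Prop :=
  ∀ (Ω : Type) [MeasurableSpace Ω] (P : Measure Ω) [IsProbabilityMeasure P] (β lam : ℝ),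
    0 < β → -1 / 2 < lam → ∀ S : Sys β lam P,
    ∀ᵐ ω ∂P, ∃ μ : Measure ℂ, IsLim (S.T ω) (S.Z ω) μ ∧ IsLim (S.T ω) (S.D ω) μ

/-! ## Group E3 : upper bound for the limit measure -/

/-- deterministic part -/
def St_E3D : Prop :=
  ∀ (β c s w : ℝ) (τ : Lab → ℝ) (D : Lab → ℝ → ℂ) (μ : Measure ℂ) (q : ℕ → ℝ≥0∞), 0 < β →
    0 < s → β < s * c → NE τ → 0 < w →
    Tendsto (fun t : ℝ => Real.exp (-β * t) * ((Alive τ t).ncard : ℝ)) atTop (𝓝 w) →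
    IsLim τ D μ → Tendsto q atTop (𝓝 0) →
    (∀ (n : ℕ) (t : ℝ), (n : ℝ) ≤ t →
      ENNReal.ofReal (Real.exp (-β * t)) * ∑' v : Lab, ind (v ∈ Alive τ t) *
        ind (Real.exp (-c * n) < ‖D v t - D (anc τ n v) n‖) ≤ q n) →
    dimM μ ≤ ENNReal.ofReal s

/-- upper bound for the dimension of the limit measure -/
def St_UM : Prop :=
  ∀ (Ω : Type) [MeasurableSpace Ω] (P : Measure Ω) [IsProbabilityMeasure P] (β lam : ℝ),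
    0 < β → -1 / 2 < lam → ∀ S : Sys β lam P,
    ∀ᵐ ω ∂P, ∀ μ : Measure ℂ, IsLim (S.T ω) (S.D ω) μ →
      dimM μ ≤ ENNReal.ofReal (2 * β / (2 * lam + 1))

/-! ## Group E4 : lower bound for the limit measure -/

/-- particles alive at time `n` whose line has no bad block between `N` and `n - 1` -/
def Gd4 (ε : ℝ) (N n : ℕ) (τ : Lab → ℝ) (b : Lab → Pth) : Set Lab :=
  {v | v ∈ Alive τ n ∧ ∀ j, N ≤ j → j < n → ¬bad ε j (blk 1 (line τ b v))}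

/-- few particles are bad -/
def St_FEW : Prop :=
  ∀ (Ω : Type) [MeasurableSpace Ω] (P : Measure Ω) [IsProbabilityMeasure P] (β lam : ℝ),
    0 < β → -1 / 2 < lam → ∀ (S : Sys β lam P) (ε : ℝ), 0 < ε →
    ∀ᵐ ω ∂P, ∀ δ : ℝ, 0 < δ → ∃ N : ℕ, ∀ n : ℕ, N ≤ n →
      Real.exp (-β * n) *
        ((Alive (S.T ω) n \ Gd4 ε N n (S.T ω) (S.B ω)).ncard : ℝ) ≤ δ

/-- energy bound -/
def St_EN4 : Prop :=
  ∀ (Ω : Type) [MeasurableSpace Ω] (P : Measure Ω) [IsProbabilityMeasure P] (β lam : ℝ),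
    0 < β → -1 / 2 < lam → ∀ (S : Sys β lam P) (ε s K : ℝ) (N : ℕ), 0 < ε → 0 < s → s < 1 →
    0 ≤ K → ∃ C : ℝ≥0∞, C ≠ ∞ ∧ ∀ (n : ℕ) (F : Set Ω), N < n → MeasurableSet[S.mR] F →
    (∀ ω ∈ F, NE (S.T ω) ∧ S.ρ0 ω ≤ K ∧
      Hst β (s * (lam + 1 / 2 + 4 * ε)) (S.T ω) ≤ ENNReal.ofReal K) →
    ∫⁻ ω in F, ENNReal.ofReal (Real.exp (-β * n) ^ 2) * ∑' z : Quad,
        ind (qu z ∈ Gd4 ε N n (S.T ω) (S.B ω) ∧ qv z ∈ Gd4 ε N n (S.T ω) (S.B ω) ∧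
          ¬((n : ℝ) - 2 ≤ death (S.T ω) z.1)) *
        ‖S.D ω (qu z) n - S.D ω (qv z) n‖ₑ ^ (-s) ∂P ≤ C * P F

/-- lower bound for the dimension of the limit measure -/
def St_LM : Prop :=
  ∀ (Ω : Type) [MeasurableSpace Ω] (P : Measure Ω) [IsProbabilityMeasure P] (β lam : ℝ),
    0 < β → -1 / 2 < lam → ∀ S : Sys β lam P,
    ∀ᵐ ω ∂P, ∀ μ : Measure ℂ, IsLim (S.T ω) (S.D ω) μ → ∀ A : Set ℂ, MeasurableSet A →
      A ⊆ circ → μ (circ \ A) = 0 →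
      ENNReal.ofReal (min (2 * β / (2 * lam + 1)) 1) ≤ dimH A

/-! ## Group E2 : lower bound for the limit set -/

/-- good particles after `n` blocks -/
def Gd2 (h : ℝ) (gd : Set (ℝ × ℝ)) (n : ℕ) (τ : Lab → ℝ) (b : Lab → Pth) : Set Lab :=
  {p | p ∈ Alive τ (n * h) ∧ GoodB h gd n (line τ b p)}

/-- normalised number of good particles -/
noncomputable def Mn (κ h : ℝ) (gd : Set (ℝ × ℝ)) (n : ℕ) (τ : Lab → ℝ) (b : Lab → Pth) :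
    ℝ≥0∞ := ENNReal.ofReal ((κ ^ n)⁻¹) * ∑' p : Lab, ind (p ∈ Gd2 h gd n τ b)

/-- energy of the good pairs -/
noncomputable def Hn (κ γ h : ℝ) (gd : Set (ℝ × ℝ)) (n : ℕ) (τ : Lab → ℝ) (b : Lab → Pth) :
    ℝ≥0∞ := ENNReal.ofReal ((κ ^ n)⁻¹ ^ 2) * ∑' z : Quad,
      ind (qu z ∈ Gd2 h gd n τ b ∧ qv z ∈ Gd2 h gd n τ b ∧ ¬(((n : ℝ) - 1) * h ≤ death τ z.1)) *
      ENNReal.ofReal (Real.exp (γ * death τ z.1))

/-- near-diagonal pairs -/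
noncomputable def Nn (κ h : ℝ) (gd : Set (ℝ × ℝ)) (n : ℕ) (τ : Lab → ℝ) (b : Lab → Pth) :
    ℝ≥0∞ := ENNReal.ofReal ((κ ^ n)⁻¹ ^ 2) * ((∑' p : Lab, ind (p ∈ Gd2 h gd n τ b)) +
      ∑' z : Quad, ind (qu z ∈ Gd2 h gd n τ b ∧ qv z ∈ Gd2 h gd n τ b ∧
        ((n : ℝ) - 1) * h ≤ death τ z.1))

/-- sums over pairs of good particles -/
def St_PSUM : Prop :=
  ∀ (Ω : Type) [MeasurableSpace Ω] (P : Measure Ω) [IsProbabilityMeasure P]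
    (β : ℝ) (T : Ω → Lab → ℝ) (B : Ω → Lab → Pth), 0 < β → Life β P T → Noise P B →
    IndepFun T B P → ∀ (h : ℝ) (gd : Set (ℝ × ℝ)) (n : ℕ) (ψ : ℝ → ℝ≥0∞), 0 < h →
    MeasurableSet gd → Measurable ψ →
    ∫⁻ ω, ∑' z : Quad, ind (qu z ∈ Gd2 h gd n (T ω) (B ω) ∧ qv z ∈ Gd2 h gd n (T ω) (B ω)) *
        ψ (death (T ω) z.1) ∂P ≤
      ∑ m ∈ Finset.range n, (P {ω | blk h (B ω []) 0 ∈ gd}) ^ (m + 2 * (n - m - 1)) *
        ∫⁻ r in Ioc ((m : ℝ) * h) (((m : ℝ) + 1) * h),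
          ψ r * ENNReal.ofReal (2 * β * Real.exp (β * (2 * (n * h) - r)))

/-- moments of `Mn`, `Hn`, `Nn` -/
def St_E2M : Prop :=
  ∀ (Ω : Type) [MeasurableSpace Ω] (P : Measure Ω) [IsProbabilityMeasure P]
    (β : ℝ) (T : Ω → Lab → ℝ) (B : Ω → Lab → Pth), 0 < β → Life β P T → Noise P B →
    IndepFun T B P → ∀ (h γ κ : ℝ) (gd : Set (ℝ × ℝ)), 0 < h → 0 ≤ γ → MeasurableSet gd →
    κ = Real.exp (β * h) * (P {ω | blk h (B ω []) 0 ∈ gd}).toReal → 1 < κ →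
    Real.exp (γ * h) < κ → ∃ C : ℝ≥0∞, C ≠ ∞ ∧ ∀ n : ℕ,
      ∫⁻ ω, Mn κ h gd n (T ω) (B ω) ∂P = 1 ∧
      ∫⁻ ω, Mn κ h gd n (T ω) (B ω) ^ 2 ∂P ≤ C ∧
      ∫⁻ ω, Hn κ γ h gd n (T ω) (B ω) ∂P ≤ C ∧
      ∫⁻ ω, Nn κ h gd n (T ω) (B ω) ∂P ≤ C * ENNReal.ofReal ((κ ^ n)⁻¹)

/-- from the moments to the success event -/
def St_E2A : Prop :=
  ∀ (Ω : Type) [MeasurableSpace Ω] (P : Measure Ω) [IsProbabilityMeasure P] (κ : ℝ) (C : ℝ≥0∞)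
    (M H N : ℕ → Ω → ℝ≥0∞), 1 < κ → C ≠ ∞ → (∀ n, Measurable (M n)) → (∀ n, Measurable (H n)) →
    (∀ n, Measurable (N n)) → (∀ n, ∫⁻ ω, M n ω ∂P = 1 ∧ ∫⁻ ω, M n ω ^ 2 ∂P ≤ C ∧
      ∫⁻ ω, H n ω ∂P ≤ C ∧ ∫⁻ ω, N n ω ∂P ≤ C * ENNReal.ofReal ((κ ^ n)⁻¹)) →
    (∃ K0 : ℕ, P {ω | ∃ᶠ n in atTop, 1 / 2 ≤ M n ω ∧ H n ω ≤ (K0 : ℝ≥0∞)} ≠ 0) ∧
    ∀ᵐ ω ∂P, Tendsto (fun n => N n ω) atTop (𝓝 0)

/-- the radial coordinate at the birth of the trial particles tends to infinity -/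
def St_BIR : Prop :=
  ∀ (Ω : Type) [MeasurableSpace Ω] (P : Measure Ω) [IsProbabilityMeasure P] (β lam : ℝ),
    0 < β → -1 / 2 < lam → ∀ S : Sys β lam P,
    ∀ᵐ ω ∂P, Tendsto (fun k => S.R ω (vk k) (birth (S.T ω) (vk k))) atTop atTop

/-- energy bound in a subtree -/
def St_EN2 : Prop :=
  ∀ η : ℝ, 0 < η → ∃ r1 : ℝ, 0 < r1 ∧
  ∀ (Ω : Type) [MeasurableSpace Ω] (P : Measure Ω) [IsProbabilityMeasure P] (β lam : ℝ),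
    0 < β → -1 / 2 < lam → ∀ (S : Sys β lam P) (u : Lab) (a K h κ s γ K0 K1 : ℝ), 0 < s →
    s < 1 → η ≤ a → 0 < h → 0 ≤ K → 0 < κ → s * (a + 2 * η) ≤ γ → 0 ≤ K0 →
    ∃ C : ℝ≥0∞, C ≠ ∞ ∧ ∀ (n : ℕ) (F : Set Ω), MeasurableSet[S.mR] F →
    (∀ ω ∈ F, r1 + K * h ≤ S.R ω u (birth (S.T ω) u) ∧ S.R ω u (birth (S.T ω) u) ≤ K1 ∧
      Hn κ γ h (gdset (a - (lam + 1 / 2)) η K h) n (sh u (S.T ω)) (sh u (S.B ω)) ≤
        ENNReal.ofReal K0) →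
    ∫⁻ ω in F, ENNReal.ofReal ((κ ^ n)⁻¹ ^ 2) * ∑' z : Quad,
        ind (qu z ∈ Gd2 h (gdset (a - (lam + 1 / 2)) η K h) n (sh u (S.T ω)) (sh u (S.B ω)) ∧
          qv z ∈ Gd2 h (gdset (a - (lam + 1 / 2)) η K h) n (sh u (S.T ω)) (sh u (S.B ω)) ∧
          ¬(((n : ℝ) - 1) * h ≤ death (sh u (S.T ω)) z.1)) *
        ‖S.D ω (qu z ++ u) (birth (S.T ω) u + n * h) -
          S.D ω (qv z ++ u) (birth (S.T ω) u + n * h)‖ₑ ^ (-s) ∂P ≤ C * P F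

/-- the limit set is closed, and neighbourhoods of it catch all particles far away -/
def St_LCL : Prop :=
  ∀ (τ : Lab → ℝ) (Z : Lab → ℝ → ℂ), IsCompact (LSet τ Z) ∧
    ∀ (O : Set ℂ), IsOpen O → LSet τ Z ⊆ O →
    ∀ (t : ℕ → ℝ) (u : ℕ → Lab) (d : ℕ → ℂ), Tendsto t atTop atTop →
    (∀ n, u n ∈ Alive τ (t n)) → (∀ n, ‖d n‖ = 1) →
    Tendsto (fun n => Z (u n) (t n) - d n) atTop (𝓝 0) → ∀ᶠ n in atTop, d n ∈ O

/-- lower bound for the limit set -/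
def St_LL : Prop :=
  ∀ (Ω : Type) [MeasurableSpace Ω] (P : Measure Ω) [IsProbabilityMeasure P] (β lam : ℝ),
    0 < β → -1 / 2 < lam → ∀ (S : Sys β lam P) (s : ℝ), 0 < s → s < 1 →
    (β ≤ (1 + 2 * lam) ^ 2 / 8 → s < (1 + 2 * lam - √((1 + 2 * lam) ^ 2 - 8 * β)) / 2) →
    ∀ᵐ ω ∂P, ENNReal.ofReal s ≤ dimH (LSet (S.T ω) (S.Z ω))

end Pool.Agent.helper23.HB
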