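import Pool.Agent.helper23.HB.Stmts
import Pool.Agent.helper23.HB.Model

/-!
# Hyperbolic branching Brownian motion : statements of the last modules
-/

open MeasureTheory ProbabilityTheory Set Filter Topology
open scoped ENNReal NNReal

namespace Pool.Agent.helper23.HB

/-- the subtrees of the two children of the first particle are systems -/
def St_CONV : Prop :=
  ∀ (Ω : Type) [MeasurableSpace Ω] (P : Measure Ω) [IsProbabilityMeasure P] (β lam : ℝ)
    (T : Lab → Ω → ℝ) (B W : Lab → ℝ≥0 → Ω → ℝ) (ρ θ : Lab → ℝ → Ω → ℝ),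
    HBBM β lam P T B W ρ θ → ∀ x : Bool, ∃ S : Sys β lam P,
    (∀ ω, S.T ω = sh [x] (fun u => T u ω)) ∧
    ∀ ω (p : Lab) (t : ℝ), p ∈ Alive (S.T ω) t →
      S.Z ω p t = posZ T ρ θ ω (p ++ [x]) (T [] ω + t)

/-- limit set and limit measure of a tree from those of the two subtrees -/
def St_UNI : Prop :=
  ∀ (β : ℝ) (τ : Lab → ℝ) (Z : Lab → ℝ → ℂ) (Z' : Bool → Lab → ℝ → ℂ) (w : Bool → ℝ)
    (μ : Bool → Measure ℂ), 0 < β → 0 < τ [] → (∀ x, NE (sh [x] τ)) →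
    (∀ x, ∀ p t, p ∈ Alive (sh [x] τ) t → Z' x p t = Z (p ++ [x]) (τ [] + t)) →
    (∀ x, 0 < w x ∧ Tendsto (fun t : ℝ => Real.exp (-β * t) * ((Alive (sh [x] τ) t).ncard : ℝ))
      atTop (𝓝 (w x))) →
    (∀ x, IsLim (sh [x] τ) (Z' x) (μ x)) →
    NE τ ∧ LSet τ Z = LSet (sh [false] τ) (Z' false) ∪ LSet (sh [true] τ) (Z' true) ∧
    ∃ ν : Measure ℂ, IsLim τ Z ν ∧ dimM ν = max (dimM (μ false)) (dimM (μ true))

end Pool.Agent.helper23.HB
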